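import Pool.Agent.MP_a17da5_co.RS

/-!
The base case: a single source is a good blob.
-/

set_option autoImplicit false

namespace Pool.Agent.MP_a17da5_co

namespace Base

variable {V E : Type} [Fintype E] (S : UP V E)

open Classical in
/-- Number of edges with the same key lying to the left. -/
noncomputable def rk (k : E → V) (e : E) : ℤ :=
  ((Finset.univ.filter fun f => k f = k e ∧ S.lt f e).card : ℕ)

lemma rk_lt (k : E → V)
    (hk : ∀ v, ∃ g : ℤ, ∀ e, k e = v → S.τ (S.tail e) ≤ g ∧ g < S.τ (S.head e))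
    {e e' : E} (h : k e = k e') (hl : S.lt e e') : rk S k e < rk S k e' := by
  classical
  obtain ⟨g, hg⟩ := hk (k e')
  unfold rk
  rw [Nat.cast_lt]
  refine Finset.card_lt_card ⟨fun f hf => ?_, fun hf => ?_⟩
  · obtain ⟨-, h1, h2⟩ := Finset.mem_filter.1 hf
    have a := hg f (h1.trans h)
    have b := hg e h
    have c := hg e' rfl
    exact Finset.mem_filter.2 ⟨Finset.mem_univ _, h1.trans h,
      S.trans g f e e' a.1 a.2 b.1 b.2 c.1 c.2 h2 hl⟩
  · exact S.irrefl e (Finset.mem_filter.1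
      (hf (Finset.mem_filter.2 ⟨Finset.mem_univ _, h, hl⟩))).2.2

lemma rk_inj (k : E → V)
    (hk : ∀ v, ∃ g : ℤ, ∀ e, k e = v → S.τ (S.tail e) ≤ g ∧ g < S.τ (S.head e))
    {e e' : E} (h : k e = k e') (hr : rk S k e = rk S k e') : e = e' := by
  by_contra hne
  obtain ⟨g, hg⟩ := hk (k e')
  have b := hg e h
  have c := hg e' rfl
  rcases S.total g e e' b.1 b.2 c.1 c.2 hne with h1 | h1
  · exact (rk_lt S k hk h h1).ne hr
  · exact (rk_lt S k hk h.symm h1).ne hr.symm

lemma rk_iff (k : E → V)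
    (hk : ∀ v, ∃ g : ℤ, ∀ e, k e = v → S.τ (S.tail e) ≤ g ∧ g < S.τ (S.head e))
    {e e' : E} (h : k e = k e') : S.lt e e' ↔ rk S k e < rk S k e' := by
  refine ⟨rk_lt S k hk h, fun hr => ?_⟩
  obtain ⟨g, hg⟩ := hk (k e')
  have b := hg e h
  have c := hg e' rfl
  have hne : e ≠ e' := by rintro rfl; exact lt_irrefl _ hr
  rcases S.total g e e' b.1 b.2 c.1 c.2 hne with h1 | h1
  · exact h1
  · exact absurd (rk_lt S k hk h.symm h1) (not_lt.2 hr.le)

omit [Fintype E] in
lemma gap_tail (v : V) :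
    ∃ g : ℤ, ∀ e, S.tail e = v → S.τ (S.tail e) ≤ g ∧ g < S.τ (S.head e) :=
  ⟨S.τ v, fun e he => ⟨by rw [he], he ▸ S.τ_lt e⟩⟩

omit [Fintype E] in
lemma gap_head (v : V) :
    ∃ g : ℤ, ∀ e, S.head e = v → S.τ (S.tail e) ≤ g ∧ g < S.τ (S.head e) :=
  ⟨S.τ v - 1, fun e he => by have := S.τ_lt e; rw [he] at this ⊢; omega⟩

variable (Y : E → ZMod 2)

/-- Parity of the chosen edges to the left of `e` at the gap `g`. -/
noncomputable def side (g : ℤ) (e : E) : ZMod 2 :=
  sumOn Y fun f => S.τ (S.tail f) ≤ g ∧ g < S.τ (S.head f) ∧ S.lt f e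

/-- Parity of the chosen edges passing to the left of the vertex `v`. -/
noncomputable def wv (v : V) : ZMod 2 :=
  sumOn Y fun f => S.τ (S.tail f) < S.τ v ∧ S.τ v < S.τ (S.head f) ∧
    ∃ e₁, (S.tail e₁ = v ∨ S.head e₁ = v) ∧ S.lt f e₁

lemma z2_eq {x y : ZMod 2} (h : x + y = 0) : x = y := by revert x y; decide

lemma side_step (ev : ∀ v, sumOn Y (fun e => S.head e = v) = sumOn Y fun e => S.tail e = v)
    (g : ℤ) (e : E) (h1 : S.τ (S.tail e) ≤ g) (h2 : g + 1 < S.τ (S.head e)) :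
    side S Y g e = side S Y (g + 1) e := by
  apply z2_eq
  unfold side
  rw [sumOn_xor]
  by_cases hex : ∃ f v, S.τ v = g + 1 ∧ (S.tail f = v ∨ S.head f = v) ∧ S.lt f e
  · obtain ⟨f₀, v, hv, hi, hl⟩ := hex
    rw [← z2_add_self (sumOn Y fun e => S.tail e = v)]
    nth_rewrite 1 [← ev v]
    rw [sumOn_xor]
    refine sumOn_congr fun f _ => ?_
    have a1 := S.τ_lt f
    have a2 : S.tail f = v ↔ S.τ (S.tail f) = g + 1 := by rw [← hv, S.τ_inj.eq_iff]
    have a3 : S.head f = v ↔ S.τ (S.head f) = g + 1 := by rw [← hv, S.τ_inj.eq_iff]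
    have a4 : (S.tail f = v ∨ S.head f = v) → S.lt f e := fun h =>
      S.span' v e f₀ f (by omega) (by omega) hi h hl
    rw [a2, a3] at a4
    rw [a2, a3]
    by_cases hf : S.lt f e
    · simp only [hf, and_true]
      omega
    · simp only [hf, and_false, iff_self, not_true, false_iff, not_not]
      have := mt a4 hf
      omega
  · refine sumOn_eq_zero fun f hf => absurd ?_ hf
    by_cases hl : S.lt f e
    · have a1 : S.τ (S.tail f) ≠ g + 1 := fun h => hex ⟨f, _, h, Or.inl rfl, hl⟩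
      have a2 : S.τ (S.head f) ≠ g + 1 := fun h => hex ⟨f, _, h, Or.inr rfl, hl⟩
      simp only [hl, and_true]
      omega
    · simp [hl]

lemma side_const (ev : ∀ v, sumOn Y (fun e => S.head e = v) = sumOn Y fun e => S.tail e = v)
    (e : E) (g : ℤ) (h1 : S.τ (S.tail e) ≤ g) (h2 : g < S.τ (S.head e)) :
    side S Y (S.τ (S.tail e)) e = side S Y g e := by
  induction g, h1 using Int.le_induction with
  | base => rfl
  | succ g hg ih => rw [ih (by omega), side_step S Y ev g e hg h2]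

lemma side_out (e : E) : side S Y (S.τ (S.tail e)) e =
    wv S Y (S.tail e) + sumOn Y fun f => S.tail f = S.tail e ∧ S.lt f e := by
  unfold side wv
  rw [sumOn_xor]
  refine sumOn_congr fun f _ => ?_
  have a1 := S.τ_lt f
  by_cases hf : S.tail f = S.tail e
  · rw [hf] at a1
    simp [hf, a1]
  · have a2 : S.τ (S.tail f) ≠ S.τ (S.tail e) := fun h => hf (S.τ_inj h)
    simp only [hf, false_and, iff_false, not_not]
    constructor
    · rintro ⟨b1, b2, b3⟩
      exact ⟨by omega, b2, e, Or.inl rfl, b3⟩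
    · rintro ⟨b1, b2, e₁, b3, b4⟩
      exact ⟨b1.le, b2, S.span _ f e₁ e b1 b2 b3 (Or.inl rfl) b4⟩

lemma side_in (e : E) : side S Y (S.τ (S.head e) - 1) e =
    wv S Y (S.head e) + sumOn Y fun f => S.head f = S.head e ∧ S.lt f e := by
  unfold side wv
  rw [sumOn_xor]
  refine sumOn_congr fun f _ => ?_
  have a1 := S.τ_lt f
  by_cases hf : S.head f = S.head e
  · rw [hf] at a1
    have a2 : S.τ (S.tail f) ≤ S.τ (S.head e) - 1 := by omega
    simp [hf, a2]
  · have a2 : S.τ (S.head f) ≠ S.τ (S.head e) := fun h => hf (S.τ_inj h)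
    simp only [hf, false_and, iff_false, not_not]
    constructor
    · rintro ⟨b1, b2, b3⟩
      exact ⟨by omega, by omega, e, Or.inr rfl, b3⟩
    · rintro ⟨b1, b2, e₁, b3, b4⟩
      exact ⟨by omega, by omega, S.span _ f e₁ e b1 b2 b3 (Or.inr rfl) b4⟩

open Classical in
/-- The source of an edge after contracting `x₀`. -/
noncomputable def src (x₀ : V) (e : E) : Option V :=
  if S.tail e = x₀ then none else some (S.tail e)

omit [Fintype E] in
lemma src_none (x₀ : V) (e : E) : src S x₀ e = none ↔ S.tail e = x₀ := by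
  unfold src; split_ifs with h <;> simp [h]

omit [Fintype E] in
lemma src_some (x₀ : V) (e : E) (v : V) : src S x₀ e = some v ↔ v ≠ x₀ ∧ S.tail e = v := by
  unfold src
  split_ifs with h
  · simp only [false_iff, not_and, reduceCtorEq]
    exact fun h1 h2 => h1 (h2.symm.trans h)
  · simp only [Option.some.injEq]
    exact ⟨fun h1 => ⟨h1 ▸ h, h1⟩, fun h1 => h1.2⟩

omit [Fintype E] in
lemma src_eq (x₀ : V) (e f : E) : src S x₀ e = src S x₀ f ↔ S.tail e = S.tail f := by
  constructor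
  · intro h
    cases h1 : src S x₀ f with
    | none => rw [(src_none S x₀ e).1 (h.trans h1), (src_none S x₀ f).1 h1]
    | some v => rw [((src_some S x₀ e v).1 (h.trans h1)).2, ((src_some S x₀ f v).1 h1).2]
  · intro h
    unfold src
    rw [h]

/-- The rooted structure obtained by contracting a source. -/
noncomputable def rs (x₀ : V) (h0 : ∀ e, S.head e ≠ x₀) : RS V E where
  src := src S x₀
  hd := S.head
  τ := S.τ
  ork := rk S S.tail
  irk := rk S S.head
  lt q l := S.lt q l ∧ S.τ (S.tail q) < S.τ (S.head l) ∧ S.τ (S.tail l) < S.τ (S.head q)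
  τ_inj := S.τ_inj
  τ_lt e v h := ((src_some S x₀ e v).1 h).2 ▸ S.τ_lt e
  ork_inj e e' h hr := rk_inj S _ (gap_tail S) ((src_eq S x₀ e e').1 h) hr
  irk_inj e e' h hr := rk_inj S _ (gap_head S) h hr
  lt_out q l v h1 h2 := by
    have h := (src_eq S x₀ q l).1 (h1.trans h2.symm)
    have a1 := S.τ_lt q
    have a2 := S.τ_lt l
    rw [← rk_iff S _ (gap_tail S) h]
    exact ⟨fun a => a.1, fun a => ⟨a, h ▸ a2, h ▸ a1⟩⟩
  lt_in q l a c _ _ h := by
    have a1 := S.τ_lt q
    have a2 := S.τ_lt l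
    rw [← rk_iff S _ (gap_head S) h]
    exact ⟨fun a => a.1, fun a => ⟨a, h ▸ a1, h ▸ a2⟩⟩
  up1 q l q' h1 h2 h3 := by
    have h4 := ((src_some S x₀ _ _).1 h3).2
    have a1 := S.τ_lt q'
    rw [h4] at a1
    exact ⟨S.span' _ l q q' h1.2.2 h2 (Or.inr rfl) (Or.inl h4) h1.1, h4 ▸ h2, h1.2.2.trans a1⟩
  up2 q l l' h1 h2 h3 := by
    have h4 := ((src_some S x₀ _ _).1 h3).2
    have a1 := S.τ_lt l'
    rw [h4] at a1
    exact ⟨S.span _ q l l' h1.2.1 h2 (Or.inr rfl) (Or.inl h4) h1.1, h1.2.1.trans a1, h4 ▸ h2⟩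
  dn1 q l q' a c a' h1 h2 h3 h4 h5 _ := by
    obtain rfl := ((src_some S x₀ _ _).1 h2).2
    obtain rfl := ((src_some S x₀ _ _).1 h3).2
    have a1 := S.τ_lt q'
    rw [h5] at a1
    exact ⟨S.span' _ l q q' h4 h1.2.1 (Or.inl rfl) (Or.inr h5) h1.1, a1.trans h1.2.1, h5 ▸ h4⟩
  dn2 q l l' a c c' h1 h2 h3 h4 h5 _ := by
    obtain rfl := ((src_some S x₀ _ _).1 h2).2
    obtain rfl := ((src_some S x₀ _ _).1 h3).2
    have a1 := S.τ_lt l'
    rw [h5] at a1
    exact ⟨S.span _ q l l' h4 h1.2.2 (Or.inl rfl) (Or.inr h5) h1.1, h5 ▸ h4, a1.trans h1.2.2⟩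
  jordan Y h1 h2 := by
    have ev : ∀ v, sumOn Y (fun e => S.head e = v) = sumOn Y fun e => S.tail e = v := by
      intro v
      by_cases hv : v = x₀
      · subst hv
        rw [sumOn_eq_zero fun e he => absurd he (h0 e), ← h2]
        exact sumOn_congr fun e _ => src_none S v e
      · rw [h1 v]
        exact sumOn_congr fun e _ => by rw [src_some]; simp [hv]
    refine ⟨fun e => side S Y (S.τ (S.tail e)) e + wv S Y x₀,
      fun o => o.elim 0 fun v => wv S Y v + wv S Y x₀, rfl, fun e => ?_, fun e => ?_⟩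
    · have a1 : sumOn Y (fun f => src S x₀ f = src S x₀ e ∧ rk S S.tail f < rk S S.tail e) =
          sumOn Y fun f => S.tail f = S.tail e ∧ S.lt f e :=
        sumOn_congr fun f _ => by
          rw [src_eq]
          exact and_congr_right fun h => (rk_iff S _ (gap_tail S) h).symm
      rw [a1]
      beta_reduce
      rw [side_out]
      cases h : src S x₀ e with
      | none =>
        rw [(src_none S x₀ e).1 h, add_right_comm, z2_add_self]
        rfl
      | some v =>
        rw [((src_some S x₀ e v).1 h).2, add_right_comm]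
        rfl
    · have a1 : sumOn Y (fun f => S.head f = S.head e ∧ rk S S.head f < rk S S.head e) =
          sumOn Y fun f => S.head f = S.head e ∧ S.lt f e :=
        sumOn_congr fun f _ => and_congr_right fun h => (rk_iff S _ (gap_head S) h).symm
      have a2 := S.τ_lt e
      rw [a1]
      beta_reduce
      rw [side_const S Y ev e (S.τ (S.head e) - 1) (by omega) (by omega), side_in, add_right_comm]
      rfl

end Base

theorem base : BaseStmt := by
  intro V E _ _ S x₀ h
  have h0 : ∀ e, S.head e ≠ x₀ := fun e he => h _ ⟨e, rfl, he⟩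
  refine ⟨fun a b hab hb => absurd (hb ▸ hab) (h a), E, inferInstance, Base.rs S x₀ h0,
    fun a b => ?_, fun b => ?_⟩
  · constructor
    · rintro ⟨e, h1, h2⟩
      obtain ⟨h3, h4⟩ := (Base.src_some S x₀ e a).1 h1
      exact ⟨h3, e, h4, h2⟩
    · rintro ⟨h1, e, h2, h3⟩
      exact ⟨e, (Base.src_some S x₀ e a).2 ⟨h1, h2⟩, h3⟩
  · constructor
    · rintro ⟨e, h1, h2⟩
      exact ⟨fun hb => h0 e (h2.trans hb), x₀, rfl, e, (Base.src_none S x₀ e).1 h1, h2⟩
    · rintro ⟨-, k, rfl, e, h2, h3⟩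
      exact ⟨e, (Base.src_none S k e).2 h2, h3⟩

end Pool.Agent.MP_a17da5_co
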