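import Pool.Agent.MP_a17da5_co.Defs

/-!
The interlock graph of arms has bounded chromatic number (contraction sequence argument).
-/

set_option autoImplicit false

namespace Pool.Agent.MP_a17da5_co

namespace Col

open Finset

lemma greedy {K : Type} [DecidableEq K] {N : ℕ} (A : K → K → Prop) (hs : ∀ a b, A a b → A b a)
    (hi : ∀ a, ¬ A a a) (col0 : K → Fin N) (P : K → Prop)
    (h0 : ∀ a b, A a b → P a → P b → col0 a ≠ col0 b) (T : Finset K)
    (hT : ∀ k ∈ T, ∃ nb : Finset K, nb.card < N ∧ ∀ k', A k k' → k' ∈ nb) :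
    ∃ col : K → Fin N, ∀ a b, A a b → (P a ∨ a ∈ T) → (P b ∨ b ∈ T) → col a ≠ col b := by
  induction T using Finset.induction_on with
  | empty => exact ⟨col0, fun a b h ha hb => h0 a b h (by simpa using ha) (by simpa using hb)⟩
  | insert k T _ ih =>
    obtain ⟨col, hcol⟩ := ih fun k' hk' => hT k' (mem_insert_of_mem hk')
    obtain ⟨nb, hnb, hA⟩ := hT k (mem_insert_self _ _)
    have : ∃ c : Fin N, c ∉ nb.image col := by
      by_contra hc
      push Not at hc
      have h1 : (univ : Finset (Fin N)).card ≤ (nb.image col).card :=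
        card_le_card fun c _ => hc c
      have h2 := card_image_le (s := nb) (f := col)
      rw [card_univ, Fintype.card_fin] at h1
      omega
    obtain ⟨c, hc⟩ := this
    have key : ∀ b, A k b → Function.update col k c k ≠ Function.update col k c b := by
      intro b hb
      have hbk : b ≠ k := by rintro rfl; exact hi _ hb
      rw [Function.update_self, Function.update_of_ne hbk]
      rintro rfl
      exact hc (mem_image_of_mem _ (hA b hb))
    refine ⟨Function.update col k c, fun a b h ha hb => ?_⟩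
    by_cases hak : a = k
    · subst hak; exact key b h
    by_cases hbk : b = k
    · subst hbk; exact (key a (hs _ _ h)).symm
    rw [Function.update_of_ne hak, Function.update_of_ne hbk]
    refine hcol a b h ?_ ?_
    · rcases ha with ha | ha
      · exact Or.inl ha
      · exact Or.inr ((mem_insert.1 ha).resolve_left hak)
    · rcases hb with hb | hb
      · exact Or.inl hb
      · exact Or.inr ((mem_insert.1 hb).resolve_left hbk)

lemma card_le_three {α β γ δ : Type} (P : Finset α) (pa pb : α → Prop) (f : α → β) (g : α → γ)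
    (h : α → δ) (s : Finset β) (t : Finset γ) (u : Finset δ) (hf : ∀ e ∈ P, f e ∈ s)
    (hg : ∀ e ∈ P, g e ∈ t) (hh : ∀ e ∈ P, h e ∈ u)
    (i1 : ∀ e ∈ P, ∀ e' ∈ P, pa e → pa e' → f e = f e' → e = e')
    (i2 : ∀ e ∈ P, ∀ e' ∈ P, pb e → pb e' → g e = g e' → e = e')
    (i3 : ∀ e ∈ P, ∀ e' ∈ P, ¬ pa e → ¬ pa e' → ¬ pb e → ¬ pb e' → h e = h e' → e = e') :
    P.card ≤ s.card + t.card + u.card := by
  classical
  have h1 : (P.filter pa).card ≤ s.card :=
    card_le_card_of_injOn f (fun e he => hf e (mem_filter.1 he).1) fun e he e' he' =>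
      i1 e (mem_filter.1 he).1 e' (mem_filter.1 he').1 (mem_filter.1 he).2 (mem_filter.1 he').2
  have h2 : (P.filter pb).card ≤ t.card :=
    card_le_card_of_injOn g (fun e he => hg e (mem_filter.1 he).1) fun e he e' he' =>
      i2 e (mem_filter.1 he).1 e' (mem_filter.1 he').1 (mem_filter.1 he).2 (mem_filter.1 he').2
  have h3 : (P.filter fun e => ¬ pa e ∧ ¬ pb e).card ≤ u.card :=
    card_le_card_of_injOn h (fun e he => hh e (mem_filter.1 he).1) fun e he e' he' =>
      i3 e (mem_filter.1 he).1 e' (mem_filter.1 he').1 (mem_filter.1 he).2.1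
        (mem_filter.1 he').2.1 (mem_filter.1 he).2.2 (mem_filter.1 he').2.2
  have h4 : P ⊆ (P.filter pa ∪ P.filter pb) ∪ P.filter fun e => ¬ pa e ∧ ¬ pb e := by
    intro e he
    simp only [mem_union, mem_filter]
    tauto
  have h5 := card_le_card h4
  have h6 := card_union_le (P.filter pa ∪ P.filter pb) (P.filter fun e => ¬ pa e ∧ ¬ pb e)
  have h7 := card_union_le (P.filter pa) (P.filter pb)
  omega

lemma nc_card (P : Finset (ℤ × ℤ)) (lo : ℤ) (m : ℕ)
    (hr : ∀ e ∈ P, lo ≤ e.1 ∧ e.1 ≤ e.2 ∧ e.2 < lo + m)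
    (hn : ∀ e ∈ P, ∀ e' ∈ P, ¬ (e.1 < e'.1 ∧ e'.1 < e.2 ∧ e.2 < e'.2)) : P.card ≤ 3 * m := by
  have hc : (Ico lo (lo + m)).card = m := by simp
  have := card_le_three P (fun e => ∀ e' ∈ P, e'.1 = e.1 → e'.2 ≤ e.2) (fun e => e.1 = e.2)
    Prod.fst Prod.fst Prod.snd (Ico lo (lo + m)) (Ico lo (lo + m)) (Ico lo (lo + m))
    (fun e he => by have := hr e he; rw [mem_Ico]; omega)
    (fun e he => by have := hr e he; rw [mem_Ico]; omega)
    (fun e he => by have := hr e he; rw [mem_Ico]; omega)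
    (fun e he e' he' h1 h2 h3 => Prod.ext h3 (le_antisymm (h2 e he h3) (h1 e' he' h3.symm)))
    (fun e he e' he' h1 h2 h3 => Prod.ext h3 (by omega))
    (fun e he e' he' h1 h2 h3 h4 h5 => by
      push Not at h1 h2
      obtain ⟨a, ha, a1, a2⟩ := h1
      obtain ⟨b, hb, b1, b2⟩ := h2
      have := hn e he b hb
      have := hn e' he' a ha
      have := hr e he
      have := hr e' he'
      exact Prod.ext (by omega) h5)
  omega

lemma tr_card (T : Finset (ℤ × ℤ × ℤ)) (s t : Finset (ℤ × ℤ))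
    (hs : ∀ e ∈ T, (e.1, e.2.1) ∈ s) (ht : ∀ e ∈ T, (e.1, e.2.2) ∈ t)
    (hle : ∀ e ∈ T, e.1 ≤ e.2.1)
    (h4 : ∀ e ∈ T, ∀ e' ∈ T, e'.1 < e.2.1 → e.2.1 < e'.2.1 → e.2.2 ≤ e'.2.2) :
    T.card ≤ s.card + t.card + t.card :=
  card_le_three T (fun e => ∀ e' ∈ T, e'.1 = e.1 → e'.2.1 = e.2.1 → e'.2.2 ≤ e.2.2)
    (fun e => e.1 = e.2.1) (fun e => (e.1, e.2.1)) (fun e => (e.1, e.2.2)) (fun e => (e.1, e.2.2))
    s t t hs ht ht
    (fun e he e' he' h1 h2 h3 => by
      obtain ⟨a1, a2⟩ := Prod.ext_iff.1 h3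
      exact Prod.ext a1 (Prod.ext a2 (le_antisymm (h2 e he a1 a2) (h1 e' he' a1.symm a2.symm))))
    (fun e he e' he' h1 h2 h3 => by
      obtain ⟨a1, a2⟩ := Prod.ext_iff.1 h3
      simp only at a1 a2
      exact Prod.ext a1 (Prod.ext (by omega) a2))
    (fun e he e' he' h1 h2 h3 h5 h6 => by
      obtain ⟨a1, a2⟩ := Prod.ext_iff.1 h6
      simp only at a1 a2
      push Not at h1 h2
      obtain ⟨a, ha, a3, a4, a5⟩ := h1
      obtain ⟨b, hb, b3, b4, b5⟩ := h2
      have := h4 a ha e' he'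
      have := h4 b hb e he
      have := hle e he
      have := hle e' he'
      exact Prod.ext a1 (Prod.ext (by omega) a2))

/-- A system of arms. -/
structure Sys (Z : Type) where
  pos : Z → ℤ
  L : Z → ℤ
  J : Z → ℤ
  R : Z → ℤ
  inj : Function.Injective pos
  hL : ∀ z, L z ≤ pos z
  hJ : ∀ z, J z ≤ pos z
  hR : ∀ z, pos z ≤ R z
  h1 : ∀ u u', ¬ (L u < L u' ∧ L u' < pos u ∧ pos u < pos u')
  h2 : ∀ u u', ¬ (J u < J u' ∧ J u' < pos u ∧ pos u < pos u')
  h3 : ∀ z z', ¬ (J z < J z' ∧ J z' < R z ∧ R z < R z')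
  h4 : ∀ z z2, J z2 < pos z → pos z < pos z2 → R z ≤ R z2

variable {Z : Type} [Fintype Z] (S : Sys Z)

/-- Pairs of parts joined by an arm. -/
def edges (q : ℤ → ℤ) : Finset (ℤ × ℤ) :=
  univ.image (fun z => (q (S.L z), q (S.pos z))) ∪ univ.image fun z => (q (S.pos z), q (S.R z))

/-- Pairs meeting a given part. -/
def inc (q : ℤ → ℤ) (X : ℤ) : Finset (ℤ × ℤ) := (edges S q).filter fun e => e.1 = X ∨ e.2 = X

/-- A part with at most one point. -/
def Sing (q : ℤ → ℤ) (X : ℤ) : Prop := ∀ a b, q a = X → q b = X → a = b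

/-- Every big part has small degree. -/
def Good (q : ℤ → ℤ) : Prop := ∀ X, ¬ Sing q X → (inc S q X).card ≤ 96

/-- All parts in use lie in a window of length `m`. -/
def InR (q : ℤ → ℤ) (lo : ℤ) (m : ℕ) : Prop :=
  ∀ z, lo ≤ q (S.L z) ∧ lo ≤ q (S.J z) ∧ q (S.R z) < lo + m

lemma nc_image (a b : Z → ℤ) (q : ℤ → ℤ) (hq : Monotone q) (lo : ℤ) (m : ℕ)
    (hab : ∀ z, a z ≤ b z) (hr : ∀ z, lo ≤ q (a z) ∧ q (b z) < lo + m)
    (hn : ∀ u u', ¬ (a u < a u' ∧ a u' < b u ∧ b u < b u')) :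
    (univ.image fun z => (q (a z), q (b z))).card ≤ 3 * m := by
  refine nc_card _ lo m (fun e he => ?_) fun e he e' he' h => ?_
  · obtain ⟨z, -, rfl⟩ := mem_image.1 he
    exact ⟨(hr z).1, hq (hab z), (hr z).2⟩
  · obtain ⟨z, -, rfl⟩ := mem_image.1 he
    obtain ⟨z', -, rfl⟩ := mem_image.1 he'
    exact hn z z' ⟨hq.reflect_lt h.1, hq.reflect_lt h.2.1, hq.reflect_lt h.2.2⟩

lemma edges_card (q : ℤ → ℤ) (hq : Monotone q) (lo : ℤ) (m : ℕ) (hr : InR S q lo m) :
    (edges S q).card ≤ 12 * m := by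
  have e1 := nc_image S.L S.pos q hq lo m S.hL
    (fun z => ⟨(hr z).1, (hq (S.hR z)).trans_lt (hr z).2.2⟩) S.h1
  have e2 := nc_image S.J S.pos q hq lo m S.hJ
    (fun z => ⟨(hr z).2.1, (hq (S.hR z)).trans_lt (hr z).2.2⟩) S.h2
  have e3 := nc_image S.J S.R q hq lo m (fun z => (S.hJ z).trans (S.hR z))
    (fun z => ⟨(hr z).2.1, (hr z).2.2⟩) S.h3
  have e4 := tr_card (univ.image fun z => (q (S.J z), q (S.pos z), q (S.R z)))
    (univ.image fun z => (q (S.J z), q (S.pos z))) (univ.image fun z => (q (S.J z), q (S.R z)))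
    (fun e he => by
      obtain ⟨z, -, rfl⟩ := mem_image.1 he
      exact mem_image.2 ⟨z, mem_univ _, rfl⟩)
    (fun e he => by
      obtain ⟨z, -, rfl⟩ := mem_image.1 he
      exact mem_image.2 ⟨z, mem_univ _, rfl⟩)
    (fun e he => by
      obtain ⟨z, -, rfl⟩ := mem_image.1 he
      exact hq (S.hJ z))
    (fun e he e' he' a b => by
      obtain ⟨z, -, rfl⟩ := mem_image.1 he
      obtain ⟨z', -, rfl⟩ := mem_image.1 he'
      exact hq (S.h4 z z' (hq.reflect_lt a) (hq.reflect_lt b)))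
  have e5 : (univ.image fun z => (q (S.pos z), q (S.R z))).card ≤
      (univ.image fun z => (q (S.J z), q (S.pos z), q (S.R z))).card := by
    refine le_trans (card_le_card fun e he => ?_) (card_image_le (f := Prod.snd))
    obtain ⟨z, -, rfl⟩ := mem_image.1 he
    exact mem_image.2 ⟨_, mem_image.2 ⟨z, mem_univ _, rfl⟩, rfl⟩
  have e6 := card_union_le (univ.image fun z => (q (S.L z), q (S.pos z)))
    (univ.image fun z => (q (S.pos z), q (S.R z)))
  unfold edges
  omega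

lemma exists_light (E : Finset (ℤ × ℤ)) (lo : ℤ) (m : ℕ) (hE : E.card ≤ 12 * (m + 2)) :
    ∃ i, lo ≤ i ∧ i < lo + (m + 1 : ℕ) ∧
      (E.filter fun e => e.1 = i ∨ e.2 = i ∨ e.1 - 1 = i ∨ e.2 - 1 = i).card ≤ 96 := by
  by_contra hc
  push Not at hc
  have hf : ∀ g : ℤ × ℤ → ℤ, ∑ i ∈ Ico lo (lo + (m + 1 : ℕ)), (E.filter fun e => g e = i).card ≤
      12 * (m + 2) := by
    intro g
    rw [sum_card_fiberwise_eq_card_filter]
    exact (card_filter_le _ _).trans hE
  have h1 : ∑ i ∈ Ico lo (lo + (m + 1 : ℕ)), 97 ≤ ∑ i ∈ Ico lo (lo + (m + 1 : ℕ)),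
      ((E.filter fun e => e.1 = i).card + (E.filter fun e => e.2 = i).card +
        (E.filter fun e => e.1 - 1 = i).card + (E.filter fun e => e.2 - 1 = i).card) := by
    refine sum_le_sum fun i hi => ?_
    have h2 := hc i (mem_Ico.1 hi).1 (mem_Ico.1 hi).2
    rw [filter_or, filter_or, filter_or] at h2
    have h3 := card_union_le (E.filter fun e => e.1 = i) ((E.filter fun e => e.2 = i) ∪
      ((E.filter fun e => e.1 - 1 = i) ∪ (E.filter fun e => e.2 - 1 = i)))
    have h4 := card_union_le (E.filter fun e => e.2 = i)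
      ((E.filter fun e => e.1 - 1 = i) ∪ (E.filter fun e => e.2 - 1 = i))
    have h5 := card_union_le (E.filter fun e => e.1 - 1 = i) (E.filter fun e => e.2 - 1 = i)
    omega
  rw [sum_add_distrib, sum_add_distrib, sum_add_distrib, sum_const, Int.card_Ico, smul_eq_mul]
    at h1
  have a1 := hf fun e => e.1
  have a2 := hf fun e => e.2
  have a3 := hf fun e => e.1 - 1
  have a4 := hf fun e => e.2 - 1
  have a5 : (lo + (m + 1 : ℕ) - lo).toNat = m + 1 := by omega
  rw [a5] at h1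
  omega

/-- Merging the parts `i` and `i + 1`. -/
def mg (i x : ℤ) : ℤ := if x ≤ i then x else x - 1

lemma mg_mono (i : ℤ) : Monotone (mg i) := by
  intro a b h
  unfold mg
  split_ifs <;> omega

lemma edges_comp (f q : ℤ → ℤ) (e : ℤ × ℤ) (he : e ∈ edges S (f ∘ q)) :
    ∃ e' ∈ edges S q, e = (f e'.1, f e'.2) := by
  rcases mem_union.1 he with h | h
  · obtain ⟨z, -, rfl⟩ := mem_image.1 h
    exact ⟨_, mem_union_left _ (mem_image.2 ⟨z, mem_univ _, rfl⟩), rfl⟩
  · obtain ⟨z, -, rfl⟩ := mem_image.1 h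
    exact ⟨_, mem_union_right _ (mem_image.2 ⟨z, mem_univ _, rfl⟩), rfl⟩

lemma good_merge (q : ℤ → ℤ) (hg : Good S q) (i : ℤ)
    (hi : ((edges S q).filter fun e => e.1 = i ∨ e.2 = i ∨ e.1 - 1 = i ∨ e.2 - 1 = i).card ≤ 96) :
    Good S (mg i ∘ q) := by
  intro X hX
  by_cases hXi : X = i
  · refine le_trans (card_le_card fun e he => ?_)
      ((card_image_le (f := fun e : ℤ × ℤ => (mg i e.1, mg i e.2))).trans hi)
    obtain ⟨h1, h2⟩ := mem_filter.1 he
    obtain ⟨e', he', rfl⟩ := edges_comp S _ _ e h1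
    refine mem_image.2 ⟨e', mem_filter.2 ⟨he', ?_⟩, rfl⟩
    simp only [mg] at h2
    split_ifs at h2 <;> omega
  · have hY : ∃ Y, ∀ x, mg i x = X → x = Y := by
      refine ⟨if X < i then X else X + 1, fun x hx => ?_⟩
      simp only [mg] at hx
      split_ifs at hx ⊢ <;> omega
    obtain ⟨Y, hY⟩ := hY
    have hS : ¬ Sing q Y := fun h => hX fun a b ha hb => h a b (hY _ ha) (hY _ hb)
    refine le_trans (card_le_card fun e he => ?_)
      ((card_image_le (f := fun e : ℤ × ℤ => (mg i e.1, mg i e.2))).trans (hg Y hS))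
    obtain ⟨h1, h2⟩ := mem_filter.1 he
    obtain ⟨e', he', rfl⟩ := edges_comp S _ _ e h1
    exact mem_image.2 ⟨e', mem_filter.2 ⟨he', h2.imp (hY _) (hY _)⟩, rfl⟩

/-- The class of a node. -/
def cls (q : ℤ → ℤ) (z : Z) : ℤ × ℤ × ℤ := (q (S.L z), q (S.pos z), q (S.R z))

lemma left_mem (q : ℤ → ℤ) (z : Z) : (q (S.L z), q (S.pos z)) ∈ edges S q :=
  mem_union_left _ (mem_image.2 ⟨z, mem_univ _, rfl⟩)

lemma right_mem (q : ℤ → ℤ) (z : Z) : (q (S.pos z), q (S.R z)) ∈ edges S q :=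
  mem_union_right _ (mem_image.2 ⟨z, mem_univ _, rfl⟩)

lemma mid_card (q : ℤ → ℤ) (hg : Good S q) (Y : ℤ) :
    ((univ.filter fun z => q (S.pos z) = Y).image (cls S q)).card ≤ 96 * 96 := by
  by_cases hY : Sing q Y
  · refine card_image_le.trans (le_trans (card_le_one.2 fun a ha b hb => ?_) (by norm_num))
    exact S.inj (hY _ _ (mem_filter.1 ha).2 (mem_filter.1 hb).2)
  · have h1 := hg Y hY
    refine le_trans (card_le_card (t := (inc S q Y ×ˢ inc S q Y).image
      fun p : (ℤ × ℤ) × ℤ × ℤ => (p.1.1, Y, p.2.2)) fun e he => ?_) (card_image_le.trans ?_)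
    · obtain ⟨z, hz, rfl⟩ := mem_image.1 he
      have hz' := (mem_filter.1 hz).2
      refine mem_image.2 ⟨((q (S.L z), q (S.pos z)), (q (S.pos z), q (S.R z))), mem_product.2
        ⟨mem_filter.2 ⟨left_mem S q z, Or.inr hz'⟩, mem_filter.2 ⟨right_mem S q z, Or.inl hz'⟩⟩,
        ?_⟩
      rw [← hz']
      rfl
    · rw [card_product]
      exact Nat.mul_le_mul h1 h1

/-- The directed interlock relation. -/
def Arc (v u : Z) : Prop := S.pos v ≤ S.L u ∧ S.L u < S.R v ∧ S.R v ≤ S.pos u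

/-- The interlock graph. -/
def Adj (v u : Z) : Prop := Arc S v u ∨ Arc S u v

omit [Fintype Z] in
lemma no_tri (a b c : Z) (h1 : Adj S a b) (h2 : Adj S a c) (h3 : Adj S b c) : False := by
  unfold Adj Arc at h1 h2 h3
  have := S.hL a
  have := S.hL b
  have := S.hL c
  have := S.hR a
  have := S.hR b
  have := S.hR c
  omega

lemma cmp (q : ℤ → ℤ) (hq : Monotone q) {a a' b : ℤ} (ha : q a = q a')
    (hs : q a = q b → Sing q (q a)) : (a ≤ b → a' ≤ b) ∧ (b ≤ a → b ≤ a') ∧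
      (a < b → a' < b) ∧ (b < a → b < a') := by
  rcases lt_trichotomy (q a) (q b) with h | h | h
  · have h1 := hq.reflect_lt h
    have h2 := hq.reflect_lt (ha ▸ h : q a' < q b)
    omega
  · have h1 := hs h a a' rfl ha.symm
    omega
  · have h1 := hq.reflect_lt h
    have h2 := hq.reflect_lt (ha ▸ h : q b < q a')
    omega

/-- The parts that can contain the position of a node meeting the part `X`. -/
def nbr (q : ℤ → ℤ) (X : ℤ) : Finset ℤ := (inc S q X).image Prod.fst ∪ (inc S q X).image Prod.snd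

lemma nbr_card (q : ℤ → ℤ) (hg : Good S q) (X : ℤ) (hX : ¬ Sing q X) :
    (nbr S q X).card ≤ 192 := by
  have h1 := hg X hX
  have h2 := card_union_le ((inc S q X).image Prod.fst) ((inc S q X).image Prod.snd)
  have h3 := card_image_le (s := inc S q X) (f := Prod.fst)
  have h4 := card_image_le (s := inc S q X) (f := Prod.snd)
  unfold nbr
  omega

lemma mem_nbr (q : ℤ → ℤ) (X : ℤ) (y : Z)
    (h : X = q (S.L y) ∨ X = q (S.pos y) ∨ X = q (S.R y)) : q (S.pos y) ∈ nbr S q X := by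
  rcases h with h | h | h
  · exact mem_union_right _ (mem_image.2
      ⟨_, mem_filter.2 ⟨left_mem S q y, Or.inl h.symm⟩, rfl⟩)
  · exact mem_union_right _ (mem_image.2
      ⟨_, mem_filter.2 ⟨left_mem S q y, Or.inr h.symm⟩, rfl⟩)
  · exact mem_union_left _ (mem_image.2
      ⟨_, mem_filter.2 ⟨right_mem S q y, Or.inr h.symm⟩, rfl⟩)

/-- The class of `z` is an independent set. -/
def Ind (q : ℤ → ℤ) (z : Z) : Prop :=
  ∀ a b, cls S q a = cls S q z → cls S q b = cls S q z → ¬ Adj S a b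

lemma few_mid (q : ℤ → ℤ) (hq : Monotone q) (hg : Good S q) (z : Z) (hz : ¬ Ind S q z) :
    ∃ M : Finset ℤ, M.card ≤ 576 ∧
      ∀ x y, cls S q x = cls S q z → Adj S x y → q (S.pos y) ∈ M := by
  classical
  have hb : ∀ X, ∃ M : Finset ℤ, M.card ≤ 192 ∧ ∀ y, q (S.pos y) ∉ M →
      (X = q (S.L y) ∨ X = q (S.pos y) ∨ X = q (S.R y)) → Sing q X := by
    intro X
    by_cases hX : Sing q X
    · exact ⟨∅, by simp, fun _ _ _ => hX⟩
    · exact ⟨nbr S q X, nbr_card S q hg X hX, fun y h1 h2 => absurd (mem_nbr S q X y h2) h1⟩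
  obtain ⟨M1, c1, m1⟩ := hb (q (S.L z))
  obtain ⟨M2, c2, m2⟩ := hb (q (S.pos z))
  obtain ⟨M3, c3, m3⟩ := hb (q (S.R z))
  refine ⟨M1 ∪ M2 ∪ M3, ?_, fun x y hx hxy => ?_⟩
  · have := card_union_le (M1 ∪ M2) M3
    have := card_union_le M1 M2
    omega
  by_contra hy
  simp only [mem_union, not_or] at hy
  have all : ∀ a, cls S q a = cls S q z → Adj S a y := by
    intro a ha
    obtain ⟨x1, x2⟩ := Prod.ext_iff.1 hx
    obtain ⟨x2, x3⟩ := Prod.ext_iff.1 x2
    obtain ⟨a1, a2⟩ := Prod.ext_iff.1 ha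
    obtain ⟨a2, a3⟩ := Prod.ext_iff.1 a2
    simp only [cls] at x1 x2 x3 a1 a2 a3
    have n1 := m1 y hy.1.1
    have n2 := m2 y hy.1.2
    have n3 := m3 y hy.2
    rw [← x1] at n1
    rw [← x2] at n2
    rw [← x3] at n3
    have k1 := cmp q hq (x2.trans a2.symm) fun h => n2 (Or.inl h)
    have k2 := cmp q hq (x3.trans a3.symm) fun h => n3 (Or.inl h)
    have k3 := cmp q hq (x3.trans a3.symm) fun h => n3 (Or.inr (Or.inl h))
    have k4 := cmp q hq (x1.trans a1.symm) fun h => n1 (Or.inr (Or.inl h))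
    have k5 := cmp q hq (x1.trans a1.symm) fun h => n1 (Or.inr (Or.inr h))
    have k6 := cmp q hq (x2.trans a2.symm) fun h => n2 (Or.inr (Or.inr h))
    rcases hxy with h | h
    · exact Or.inl ⟨k1.1 h.1, k2.2.2.2 h.2.1, k3.1 h.2.2⟩
    · exact Or.inr ⟨k4.2.1 h.1, k5.2.2.1 h.2.1, k6.2.1 h.2.2⟩
  apply hz
  intro a b ha hb hab
  exact no_tri S a b y hab (all a ha) (all b hb)

/-- The colouring claim for one partition. -/
def Claim (q : ℤ → ℤ) (N : ℕ) : Prop :=
  ∃ col : ℤ × ℤ × ℤ → Fin N, ∀ x y, Adj S x y → Ind S q x → Ind S q y →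
    col (cls S q x) ≠ col (cls S q y)

lemma step (N : ℕ) (hN : 1152 * (96 * 96) < N) (q : ℤ → ℤ) (hq : Monotone q) (hg : Good S q)
    (i : ℤ) (hg2 : Good S (mg i ∘ q)) (hc : Claim S (mg i ∘ q) N) : Claim S q N := by
  classical
  obtain ⟨col2, hcol2⟩ := hc
  let π : ℤ × ℤ × ℤ → ℤ × ℤ × ℤ := fun k => (mg i k.1, mg i k.2.1, mg i k.2.2)
  have hπ : ∀ z, cls S (mg i ∘ q) z = π (cls S q z) := fun z => rfl
  have hind : ∀ x x', cls S q x = cls S q x' → Ind S (mg i ∘ q) x → Ind S (mg i ∘ q) x' := by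
    intro x x' h h' a b ha hb
    rw [hπ x', ← h, ← hπ] at ha hb
    exact h' a b ha hb
  obtain ⟨col, hcol⟩ := greedy
    (fun k k' => ∃ x y, cls S q x = k ∧ cls S q y = k' ∧ Adj S x y ∧ Ind S q x ∧ Ind S q y)
    (fun a b ⟨x, y, h1, h2, h3, h4, h5⟩ => ⟨y, x, h2, h1, h3.symm, h5, h4⟩)
    (fun a ⟨x, y, h1, h2, h3, h4, _⟩ => h4 x y rfl (h2.trans h1.symm) h3)
    (col2 ∘ π) (fun k => ∃ x, cls S q x = k ∧ Ind S (mg i ∘ q) x)
    (fun a b ⟨x, y, h1, h2, h3, _, _⟩ ⟨x', a1, a2⟩ ⟨y', b1, b2⟩ => by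
      subst h1 h2
      exact hcol2 x y h3 (hind _ _ a1 a2) (hind _ _ b1 b2))
    ((univ.filter fun z => ¬ Ind S (mg i ∘ q) z).image (cls S q))
    (fun k hk => by
      obtain ⟨z, hz, rfl⟩ := mem_image.1 hk
      obtain ⟨M, hM, hmem⟩ := few_mid S _ ((mg_mono i).comp hq) hg2 z (mem_filter.1 hz).2
      refine ⟨(M ∪ M.image (· + 1)).biUnion fun Y =>
        (univ.filter fun z => q (S.pos z) = Y).image (cls S q), ?_, ?_⟩
      · refine lt_of_le_of_lt (card_biUnion_le_card_mul _ _ _ fun Y _ => mid_card S q hg Y)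
          (lt_of_le_of_lt (Nat.mul_le_mul_right _ ?_) hN)
        have h1 := card_union_le M (M.image (· + 1))
        have h2 := card_image_le (s := M) (f := (· + 1))
        omega
      · rintro _ ⟨x, y, h1, rfl, h3, -, -⟩
        have h4 := hmem x y (by rw [hπ, hπ, h1]) h3
        refine mem_biUnion.2 ⟨q (S.pos y), ?_, mem_image.2
          ⟨y, mem_filter.2 ⟨mem_univ _, rfl⟩, rfl⟩⟩
        simp only [Function.comp, mg] at h4
        split_ifs at h4
        · exact mem_union_left _ h4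
        · exact mem_union_right _ (mem_image.2 ⟨_, h4, by omega⟩))
  have hall : ∀ x, (∃ x', cls S q x' = cls S q x ∧ Ind S (mg i ∘ q) x') ∨
      cls S q x ∈ (univ.filter fun z => ¬ Ind S (mg i ∘ q) z).image (cls S q) := by
    intro x
    by_cases h : Ind S (mg i ∘ q) x
    · exact Or.inl ⟨x, rfl, h⟩
    · exact Or.inr (mem_image.2 ⟨x, mem_filter.2 ⟨mem_univ _, h⟩, rfl⟩)
  exact ⟨col, fun x y h hx hy => hcol _ _ ⟨x, y, rfl, rfl, h, hx, hy⟩ (hall x) (hall y)⟩

lemma claim_all (N : ℕ) (hN : 1152 * (96 * 96) < N) (lo : ℤ) (m : ℕ) :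
    ∀ q : ℤ → ℤ, Monotone q → InR S q lo (m + 1) → Good S q → Claim S q N := by
  induction m with
  | zero =>
    intro q hq hr _
    refine ⟨fun _ => ⟨0, by omega⟩, fun x y h hx _ => absurd h (hx x y rfl ?_)⟩
    have a1 := hr x
    have a2 := hr y
    have a3 := hq (S.hL x)
    have a4 := hq (S.hL y)
    have a5 := hq (S.hR x)
    have a6 := hq (S.hR y)
    unfold cls
    refine Prod.ext ?_ (Prod.ext ?_ ?_) <;> simp only <;> omega
  | succ m ih =>
    intro q hq hr hg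
    obtain ⟨i, i1, i2, hi⟩ := exists_light (edges S q) lo m (edges_card S q hq lo _ hr)
    have hg2 := good_merge S q hg i hi
    refine step S N hN q hq hg i hg2 (ih _ ((mg_mono i).comp hq) (fun z => ?_) hg2)
    have := hr z
    simp only [Function.comp, mg]
    split_ifs <;> omega

end Col

theorem coloring : ColoringStmt := by
  refine ⟨1152 * (96 * 96) + 1, fun Z _ pos L J R inj hL hJ hR h1 h2 h3 h4 => ?_⟩
  let S : Col.Sys Z := ⟨pos, L, J, R, inj, hL, hJ, hR, h1, h2, h3, h4⟩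
  obtain ⟨a, ha⟩ := (Set.finite_range L).bddBelow
  obtain ⟨b, hb⟩ := (Set.finite_range J).bddBelow
  obtain ⟨c, hc⟩ := (Set.finite_range R).bddAbove
  obtain ⟨col, hcol⟩ := Col.claim_all S _ (Nat.lt_succ_self _) (min a b) (c - min a b).toNat id
    monotone_id (fun z => by
      have a1 : a ≤ L z := ha ⟨z, rfl⟩
      have a2 : b ≤ J z := hb ⟨z, rfl⟩
      have a3 : R z ≤ c := hc ⟨z, rfl⟩
      change min a b ≤ L z ∧ min a b ≤ J z ∧ R z < _
      omega)
    (fun X hX => absurd (fun x y hx hy => hx.trans hy.symm) hX)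
  have hind : ∀ z, Col.Ind S id z := by
    intro z x y hx hy hxy
    have e1 : pos x = pos z := congrArg (fun k : ℤ × ℤ × ℤ => k.2.1) hx
    have e2 : pos y = pos z := congrArg (fun k : ℤ × ℤ × ℤ => k.2.1) hy
    obtain rfl := inj (e1.trans e2.symm)
    exact Col.no_tri S x x x hxy hxy hxy
  exact ⟨fun z => col (Col.cls S id z), fun v u a1 a2 a3 =>
    hcol v u (Or.inl ⟨a1, a2, a3⟩) (hind v) (hind u)⟩

end Pool.Agent.MP_a17da5_co
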