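import Pool.Agent.MP_a17da5_co.Region

/-!
The exits reaching a green vertex lie in two ranges, each satisfying the hypotheses of the line
lemma.
-/

set_option autoImplicit false

namespace Pool.Agent.MP_a17da5_co

namespace RS

variable {V E : Type} [Fintype V] [Fintype E] {R : RS V E}

/-- No exit reaching `b` lies strictly between the exit of the rightmost down path and the exit
of the leftmost down path, when these come in this order. -/
theorem core {L L' : R.Tree} (hL : L.IsLeft) (hL' : L'.mirror.IsLeft) {b : V} (hb : R.green b)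
    {f1 f2 k : E} (h1 : L.On b f1) (h1' : R.src f1 = none) (h2 : L'.On b f2)
    (h2' : R.src f2 = none) (hk : R.src k = none) (a1 : R.ork f2 < R.ork k)
    (a2 : R.ork k < R.ork f1) (hle : R.le (R.hd k) b) : False := by
  obtain ⟨s, w, h⟩ := exists_sides L L' hb
  have hR : ∀ e, R.gsrc e → R.irk e ≤ R.irk (L'.par (R.hd e)) := by
    intro e he
    have : - R.irk (L'.par (R.hd e)) ≤ - R.irk e := hL' e he
    omega
  have east : ∀ {v : V} {f e : E}, L'.On b f → R.src f = some v → R.src e = some v →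
      R.le (R.hd e) b → R.ork e ≤ R.ork f := by
    intro v f e x1 x2 x3 x4
    have : - R.ork f ≤ - R.ork e := west (R := R.mirror) hL' hb x1 x2 x3 x4
    omega
  have nL' : ∀ e, R.gsrc e → ¬ L'.iL b e := by
    rintro e he ⟨f, x1, x2, x3⟩
    have := hR e he
    rw [← x2, x1.1] at this
    omega
  have w1 : ∀ v, L.Anc v b → w (some v) := by
    intro v hv
    have := Tree.on_induction hb (P := fun e => w (some (R.hd e))) (T := L) ?_ (hv.on hb)
    · rwa [L.hd_par v (hv.green hb)] at this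
    intro e he ih
    have b1 := h.out' e
    have b2 := h.inn' e
    have a0 : s e := by
      cases hs : R.src e with
      | none =>
        obtain rfl := h1.eq_of_src hb he (h1'.trans hs.symm)
        have : L'.oL b f1 := ⟨f2, h2, h2'.trans hs.symm, by omega⟩
        simp only [hs, h.root, this, Tree.not_oL_self hb he] at b1
        tauto
      | some u =>
        have x1 := ih u hs
        rw [L.hd_par u (he.gsrc hb u hs)] at x1
        have x2 : ¬ L'.oL b e := by
          rintro ⟨f, y1, y2, y3⟩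
          have := west hL hb he hs (y2.trans hs) y1.le
          omega
        simp only [hs, x1, x2, Tree.not_oL_self hb he] at b1
        tauto
    simp only [a0, nL' e (he.gsrc hb), Tree.not_iL_self hb he] at b2
    tauto
  have w2 : ∀ v, L'.Anc v b → ¬ L.Anc v b → ¬ w (some v) := by
    intro v hv
    have := Tree.on_induction hb (P := fun e => ¬ L.Anc (R.hd e) b → ¬ w (some (R.hd e)))
      (T := L') ?_ (hv.on hb)
    · rwa [L'.hd_par v (hv.green hb)] at this
    intro e he ih hn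
    have b1 := h.out' e
    have b2 := h.inn' e
    have a0 : ¬ s e := by
      cases hs : R.src e with
      | none =>
        obtain rfl := h2.eq_of_src hb he (h2'.trans hs.symm)
        have : ¬ L.oL b f2 := by
          rw [Tree.oL_iff hb h1 (h1'.trans hs.symm)]; omega
        simp only [hs, h.root, this, Tree.not_oL_self hb he] at b1
        tauto
      | some u =>
        have x1 := ih u hs
        rw [L'.hd_par u (he.gsrc hb u hs)] at x1
        by_cases hu : L.Anc u b
        · obtain ⟨f, y1, y2⟩ := hu.exists_out hb (by rintro rfl; exact he.src_ne hs)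
          have y3 := east he hs y2 y1.le
          have y4 : R.ork f ≠ R.ork e := by
            intro y5
            exact hn (R.ork_inj _ _ (y2.trans hs.symm) y5 ▸ y1.2)
          have y6 : L.oL b e := ⟨f, y1, y2.trans hs.symm, by omega⟩
          simp only [hs, w1 u hu, y6, Tree.not_oL_self hb he] at b1
          tauto
        · simp only [hs, x1 hu, Tree.not_oL hb hs hu, Tree.not_oL_self hb he] at b1
          tauto
    simp only [a0, Tree.not_iL hn, Tree.not_iL_self hb he] at b2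
    tauto
  refine R.ind_top b (P := fun e => s e → R.gsrc e → ¬ L.On b e → False) ?_ k hle ?_
    (gsrc_of_none hk) ?_
  · intro e he ih hs hg hn
    have b2 := h.inn' e
    by_cases c1 : L.Anc (R.hd e) b
    · have y1 := hL e hg
      have y2 : R.irk (L.par (R.hd e)) ≠ R.irk e := by
        intro y3
        exact hn ⟨R.irk_inj _ _ (L.hd_par _ hg.green_hd) y3, c1⟩
      simp only [hs, w1 _ c1, (Tree.iL_iff hb c1).2 (by omega), nL' e hg] at b2
      tauto
    · by_cases c2 : L'.Anc (R.hd e) b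
      · simp only [hs, w2 _ c2 c1, Tree.not_iL c1, nL' e hg] at b2
        tauto
      · rcases he.cases_head with y1 | ⟨e', y1, y2⟩
        · exact c1 (y1 ▸ L.anc_refl _)
        · refine ih e' y1 y2 ?_ (gsrc_of_some y1 hg.green_hd) (fun y3 => c1 (y3.anc_src hb y1))
          rwa [h.s_src hb y1 c1 c2, ← h.s_hd c1 c2]
  · have b1 := h.out' k
    have x1 : ¬ L.oL b k := by rw [Tree.oL_iff hb h1 (h1'.trans hk.symm)]; omega
    have x2 : L'.oL b k := ⟨f2, h2, h2'.trans hk.symm, a1⟩
    simp only [hk, h.root, x1, x2] at b1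
    tauto
  · intro x1
    rw [h1.eq_of_src hb x1 (h1'.trans hk.symm)] at a2
    omega

/-- Separation by two exit paths. -/
theorem separate {a a' : V} {c1 c2 c3 l : E} (e1 : R.src c1 = none) (e2 : R.src c2 = none)
    (e3 : R.src c3 = none) (el : R.src l = none) (r12 : R.ork c1 < R.ork c2)
    (r23 : R.ork c2 < R.ork c3) (rl : R.ork l ≤ R.ork c1) (h1 : R.le (R.hd c1) a)
    (h3 : R.le (R.hd c3) a) (h2 : R.le (R.hd c2) a') (hl : R.le (R.hd l) a') :
    R.le (R.hd c1) a' ∨ R.le (R.hd c3) a' := by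
  by_contra hc
  push Not at hc
  obtain ⟨T1, hT1⟩ := exists_tree_from c1 e1
  obtain ⟨T3, hT3⟩ := exists_tree_from c3 e3
  have ha : R.green a := ⟨c1, e1, h1⟩
  obtain ⟨s, w, h⟩ := exists_sides T1 T3 ha
  have av : ∀ t, R.le t a' → ¬ T1.Anc t a ∧ ¬ T3.Anc t a := fun t ht =>
    ⟨fun x => hc.1 (((hT1 a h1).2 t x).trans ht), fun x => hc.2 (((hT3 a h3).2 t x).trans ht)⟩
  have key : ∀ c, R.src c = none → R.le (R.hd c) a' →
      (w (some a') ↔ ¬ (R.ork c1 < R.ork c ↔ R.ork c3 < R.ork c)) := by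
    intro c hc hle
    rw [← h.persist ha hle (fun t _ y => av t y), ← h.s_hd (av _ hle).1 (av _ hle).2, h.out' c,
      Tree.oL_iff ha (hT1 a h1).1 (e1.trans hc.symm),
      Tree.oL_iff ha (hT3 a h3).1 (e3.trans hc.symm), hc]
    have := h.root
    tauto
  have k2 := key c2 e2 h2
  have kl := key l el hl
  have x1 : ¬ R.ork c3 < R.ork c2 := by omega
  have x2 : ¬ R.ork c1 < R.ork l := by omega
  have x3 : ¬ R.ork c3 < R.ork l := by omega
  simp only [r12, x1, x2, x3] at k2 kl
  tauto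

variable (R) in
/-- The hypotheses of the line lemma concerning reachability. -/
structure Sys (lam rho : {a // R.green a} → {c // R.src c = none}) (h : {a // R.green a} → ℤ) :
    Prop where
  lam_le : ∀ a, R.le (R.hd (lam a).1) a.1
  rho_le : ∀ a, R.le (R.hd (rho a).1) a.1
  lam_rho : ∀ a, R.ork (lam a).1 ≤ R.ork (rho a).1
  nest : ∀ (a a' : {a // R.green a}) (y : {c // R.src c = none}), R.le (R.hd y.1) a.1 →
    R.ork (lam a').1 ≤ R.ork y.1 → R.ork y.1 ≤ R.ork (rho a').1 → ¬ R.le (R.hd y.1) a'.1 →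
    R.ork (lam a').1 ≤ R.ork (lam a).1 ∧ R.ork (rho a).1 ≤ R.ork (rho a').1 ∧ h a < h a'
  sep : ∀ (a a' : {a // R.green a}) (c1 c2 c3 : {c // R.src c = none}),
    R.ork (lam a).1 ≤ R.ork c1.1 → R.ork c1.1 < R.ork c2.1 → R.ork c2.1 < R.ork c3.1 →
    R.ork c3.1 ≤ R.ork (rho a).1 → R.le (R.hd c1.1) a.1 → R.le (R.hd c2.1) a.1 →
    R.le (R.hd c3.1) a.1 → R.le (R.hd c2.1) a'.1 → h a < h a' →
    R.le (R.hd c1.1) a'.1 ∨ R.le (R.hd c3.1) a'.1

theorem exists_sys {L W : R.Tree} (hL : L.IsLeft) (hW : W.IsLex) :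
    ∃ lam rho h, R.Sys lam rho h ∧ (∀ a, L.On a.1 (lam a).1) ∧
      ∀ (a : {a // R.green a}) (c : {c // R.src c = none}), R.le (R.hd c.1) a.1 →
        R.ork c.1 ≤ R.ork (rho a).1 := by
  classical
  choose lam hlam hlam' using fun a : {a // R.green a} => L.exists_root a.2
  choose rho hrho hrho' using fun a : {a // R.green a} => W.exists_root a.2
  obtain ⟨n, hn, -⟩ := exists_rank (fun a : {a // R.green a} => L.post a.1)
  have hmax : ∀ (a : {a // R.green a}) (c : E), R.src c = none → R.le (R.hd c) a.1 →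
      R.ork c ≤ R.ork (rho a) :=
    fun a c h1 h2 => hW a.1 (rho a) c a.2 (hrho a) (h1.trans (hrho' a).symm) h2
  have hpost : ∀ a a' : {a // R.green a}, L.post a'.1 < L.post a.1 →
      R.ork (lam a') ≤ R.ork (lam a) := by
    intro a a' h
    by_contra hc
    exact lt_asymm h (Tree.post_lt_of_div a.2 a'.2 (hlam a) (hlam a')
      ((hlam' a').trans (hlam' a).symm) (by omega))
  refine ⟨fun a => ⟨lam a, hlam' a⟩, fun a => ⟨rho a, hrho' a⟩, fun a => - n a,
    ⟨fun a => (hlam a).le, fun a => (hrho a).le, fun a => hmax a _ (hlam' a) (hlam a).le, ?_, ?_⟩,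
    hlam, fun a c h => hmax a c.1 c.2 h⟩
  · intro a a' y h1 h2 h3 h4
    obtain ⟨s, w, hs⟩ := exists_sides L W a'.2
    have hr : Reg L W a'.1 s w := ⟨hL, hW, a'.2, hs⟩
    obtain ⟨h5, h6⟩ := hr.cl_of_range (hlam a') (hlam' a') (hrho a') (hrho' a') y.2 h2 h3 h4 h1
    have h7 := hr.post_lt a.2 h6 h5
    have h8 := hr.pre_le a.2 h5
    refine ⟨hpost a a' h7, ?_, ?_⟩
    · by_contra hc
      exact absurd (Tree.pre_lt_of_div a'.2 a.2 (hrho a') (hrho a)
        ((hrho' a).trans (hrho' a').symm) (by simpa using hc)) (not_lt.2 h8)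
    · have := (hn a' a).2 h7
      show - n a < - n a'
      omega
  · intro a a' c1 c2 c3 h1 h2 h3 _ h5 _ h7 h8 h9
    have h10 : L.post a'.1 < L.post a.1 := (hn a' a).1 (by
      have : - n a < - n a' := h9
      omega)
    exact separate c1.2 c2.2 c3.2 (hlam' a') h2 h3 ((hpost a a' h10).trans h1) h5 h7 h8
      (hlam a').le

variable (R) in
theorem exists_sys2 [Nonempty E] : ∃ lam rho h lam' rho' h', R.Sys lam rho h ∧
    R.Sys lam' rho' h' ∧ ∀ (a : {a // R.green a}) (c : {c // R.src c = none}),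
      R.le (R.hd c.1) a.1 → (R.ork (lam a).1 ≤ R.ork c.1 ∧ R.ork c.1 ≤ R.ork (rho a).1) ∨
        (R.ork (lam' a).1 ≤ R.ork c.1 ∧ R.ork c.1 ≤ R.ork (rho' a).1) := by
  obtain ⟨L, hL⟩ := R.exists_left
  obtain ⟨W, hW⟩ := R.exists_lex
  obtain ⟨L', hL'⟩ := R.mirror.exists_left
  obtain ⟨W', hW'⟩ := R.mirror.exists_lex
  obtain ⟨lam, rho, h, S1, a1, a2⟩ := exists_sys hL hW
  obtain ⟨lam', rho', h', S2, b1, b2⟩ := exists_sys hL' hW'
  refine ⟨lam, rho, h, rho', lam', h', S1, ⟨S2.rho_le, S2.lam_le, ?_, ?_, ?_⟩, ?_⟩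
  · intro a
    exact neg_le_neg_iff.1 (S2.lam_rho a)
  · intro a a' y x1 x2 x3 x4
    obtain ⟨y1, y2, y3⟩ := S2.nest a a' y x1 (neg_le_neg x3) (neg_le_neg x2) x4
    exact ⟨neg_le_neg_iff.1 y2, neg_le_neg_iff.1 y1, y3⟩
  · intro a a' c1 c2 c3 x1 x2 x3 x4 x5 x6 x7 x8 x9
    exact (S2.sep a a' c3 c2 c1 (neg_le_neg x4) (neg_lt_neg x3) (neg_lt_neg x2) (neg_le_neg x1)
      x7 x6 x5 x8 x9).symm
  · intro a c hc
    by_cases x1 : R.ork (lam a).1 ≤ R.ork c.1
    · exact Or.inl ⟨x1, a2 a c hc⟩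
    · refine Or.inr ⟨neg_le_neg_iff.1 (b2 a c hc), ?_⟩
      by_contra x2
      exact core (R := R) (L' := ⟨L'.par, L'.hd_par, L'.gsrc_par⟩) hL hL' a.2 (a1 a) (lam a).2 (b1 a)
        (lam' a).2 c.2 (not_le.1 x2) (not_le.1 x1) hc

end RS

end Pool.Agent.MP_a17da5_co
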