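import Pool.Agent.MP_a17da5_co.Defs

/-!
Closure properties of `Dec` and `BDec`.
-/

set_option autoImplicit false

namespace Pool.Agent.MP_a17da5_co

open Classical in
/-- Any map from a finite type to a linear order can be replaced by an integer valued one. -/
theorem exists_rank {V α : Type} [Fintype V] [LinearOrder α] (k : V → α) :
    ∃ n : V → ℤ, (∀ x y, n x < n y ↔ k x < k y) ∧ (∀ x, 0 ≤ n x) ∧
      ∀ x, n x < Fintype.card V := by
  refine ⟨fun v => ((Finset.univ.filter (fun u => k u < k v)).card : ℤ), ?_, ?_, ?_⟩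
  · intro x y
    simp only [Nat.cast_lt]
    constructor
    · intro h
      by_contra hc
      push Not at hc
      have : Finset.univ.filter (fun u => k u < k y) ⊆ Finset.univ.filter (fun u => k u < k x) := by
        intro u hu
        simp only [Finset.mem_filter, Finset.mem_univ, true_and] at hu ⊢
        exact lt_of_lt_of_le hu hc
      exact absurd (Finset.card_le_card this) (by omega)
    · intro h
      apply Finset.card_lt_card
      refine ⟨?_, ?_⟩
      · intro u hu
        simp only [Finset.mem_filter, Finset.mem_univ, true_and] at hu ⊢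
        exact lt_trans hu h
      · intro hs
        have := @hs x (by simp [h])
        simp at this
  · intro x; positivity
  · intro x
    simp only [Nat.cast_lt]
    rw [← Finset.card_univ]
    apply Finset.card_lt_card
    refine ⟨Finset.filter_subset _ _, ?_⟩
    intro hs
    have := @hs x (by simp)
    simp at this

namespace Dec

variable {V : Type}

theorem of_fintype {ι : Type} [Fintype ι] {R : V → V → Prop} (g : ι → V → ℤ)
    (h : ∀ x y x' y', x ≠ y → x' ≠ y' →
      (∀ i, (g i x < g i y ↔ g i x' < g i y') ∧ (g i y < g i x ↔ g i y' < g i x')) →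
      R x y → R x' y') : Dec (Fintype.card ι) R := by
  refine ⟨fun j => g ((Fintype.equivFin ι).symm j), fun x y x' y' h1 h2 h3 => h x y x' y' h1 h2 ?_⟩
  intro i
  simpa using h3 (Fintype.equivFin ι i)

theorem mono {N M : ℕ} {R : V → V → Prop} (h : Dec N R) (hNM : N ≤ M) : Dec M R := by
  obtain ⟨g, hg⟩ := h
  refine ⟨fun j => if hj : j.val < N then g ⟨j, hj⟩ else fun _ => 0,
    fun x y x' y' h1 h2 h3 => hg x y x' y' h1 h2 fun i => ?_⟩
  simpa using h3 ⟨i, lt_of_lt_of_le i.2 hNM⟩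

theorem congr {N : ℕ} {R R' : V → V → Prop} (h : Dec N R)
    (hR : ∀ x y, x ≠ y → (R x y ↔ R' x y)) : Dec N R' := by
  obtain ⟨g, hg⟩ := h
  exact ⟨g, fun x y x' y' h1 h2 h3 h4 =>
    (hR x' y' h2).1 (hg x y x' y' h1 h2 h3 ((hR x y h1).2 h4))⟩

theorem not {N : ℕ} {R : V → V → Prop} (h : Dec N R) : Dec N (fun x y => ¬ R x y) := by
  obtain ⟨g, hg⟩ := h
  exact ⟨g, fun x y x' y' h1 h2 h3 h4 h5 =>
    h4 (hg x' y' x y h2 h1 (fun i => ⟨(h3 i).1.symm, (h3 i).2.symm⟩) h5)⟩

theorem and {N M : ℕ} {R R' : V → V → Prop} (h : Dec N R) (h' : Dec M R') :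
    Dec (N + M) (fun x y => R x y ∧ R' x y) := by
  obtain ⟨g, hg⟩ := h
  obtain ⟨g', hg'⟩ := h'
  have := of_fintype (ι := Fin N ⊕ Fin M) (R := fun x y => R x y ∧ R' x y) (Sum.elim g g')
    (fun x y x' y' h1 h2 h3 h4 => ⟨hg x y x' y' h1 h2 (fun i => h3 (Sum.inl i)) h4.1,
      hg' x y x' y' h1 h2 (fun i => h3 (Sum.inr i)) h4.2⟩)
  simpa using this

theorem or {N M : ℕ} {R R' : V → V → Prop} (h : Dec N R) (h' : Dec M R') :
    Dec (N + M) (fun x y => R x y ∨ R' x y) :=
  (h.not.and h'.not).not.congr (fun _ _ _ => by tauto)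

theorem flip {N : ℕ} {R : V → V → Prop} (h : Dec N R) : Dec N (fun x y => R y x) := by
  obtain ⟨g, hg⟩ := h
  exact ⟨g, fun x y x' y' h1 h2 h3 h4 =>
    hg y x y' x' h1.symm h2.symm (fun i => ⟨(h3 i).2, (h3 i).1⟩) h4⟩

theorem ex {ι : Type} [Fintype ι] {N : ℕ} {R : ι → V → V → Prop} (h : ∀ i, Dec N (R i)) :
    Dec (Fintype.card ι * N) (fun x y => ∃ i, R i x y) := by
  choose g hg using h
  have := of_fintype (ι := ι × Fin N) (R := fun x y => ∃ i, R i x y) (fun q => g q.1 q.2)
    (fun x y x' y' h1 h2 h3 ⟨i, h4⟩ => ⟨i, hg i x y x' y' h1 h2 (fun j => h3 (i, j)) h4⟩)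
  simpa using this

theorem lt [Fintype V] {α : Type} [LinearOrder α] (k : V → α) :
    Dec 1 (fun x y => k x < k y) := by
  obtain ⟨n, hn, -⟩ := exists_rank k
  exact ⟨fun _ => n, fun x y x' y' _ _ h3 h4 => (hn _ _).1 ((h3 0).1.1 ((hn _ _).2 h4))⟩

theorem le [Fintype V] {α : Type} [LinearOrder α] (k : V → α) :
    Dec 1 (fun x y => k x ≤ k y) :=
  (lt k).flip.not.congr (fun _ _ _ => not_lt)

theorem eq [Fintype V] {ι : Type} (β : V → ι) : Dec 1 (fun x y => β x = β y) := by
  classical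
  let e := Finite.equivFin (Set.range β)
  let k : V → ℤ := fun v => ((e ⟨β v, v, rfl⟩ : ℕ) : ℤ)
  have hk : ∀ x y, k x = k y ↔ β x = β y := by
    intro x y
    simp only [k, Nat.cast_inj, Fin.val_inj, EmbeddingLike.apply_eq_iff_eq, Subtype.mk.injEq]
  refine ⟨fun _ => k, fun x y x' y' _ _ h3 h4 => (hk _ _).1 ?_⟩
  have h5 := (hk _ _).2 h4
  have := h3 0
  simp only at this
  omega

theorem left [Fintype V] (p : V → Prop) : Dec 3 (fun x _ => p x) := by
  classical
  let e : V → ℤ := fun v => ((Fintype.equivFin V v : ℕ) : ℤ)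
  have he : ∀ x y, x ≠ y → e x ≠ e y := by
    intro x y h
    simpa [e, Fin.val_inj] using h
  refine ⟨![fun v => if p v then 1 else 0, e, fun v => if p v then e v else - e v],
    fun x y x' y' h1 h2 h3 h4 => ?_⟩
  have a0 := h3 0
  have a1 := h3 1
  have a2 := h3 2
  have b1 := he x y h1
  have b2 := he x' y' h2
  simp only [Matrix.cons_val_zero, Matrix.cons_val_one, Matrix.cons_val] at a0 a1 a2
  by_contra h5
  by_cases h6 : p y <;> by_cases h7 : p y' <;> simp only [h4, h5, h6, h7, if_true, if_false]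
    at a0 a2 <;> omega

theorem right [Fintype V] (p : V → Prop) : Dec 3 (fun _ y => p y) := (left p).flip

/-- Relations living in the blocks of a partition are decided simultaneously. -/
theorem block [Fintype V] {ι : Type} {N : ℕ} (β : V → ι) {R : ι → V → V → Prop}
    (h : ∀ i, Dec N (R i)) : Dec (4 ^ N * (1 + (N + 3))) (fun x y => β x = β y ∧ R (β x) x y) := by
  classical
  choose g hg using h
  let pat : ι → V → V → Fin N → Bool × Bool := fun j x y i =>
    (decide (g j i x < g j i y), decide (g j i y < g j i x))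
  let G : Fin N → V → ℤ := fun i v => g (β v) i v
  have h1 : ∀ π : Fin N → Bool × Bool,
      Dec N (fun x y => (fun i => (decide (G i x < G i y), decide (G i y < G i x))) = π) := by
    intro π
    refine ⟨G, fun x y x' y' _ _ h3 h4 => ?_⟩
    rw [← h4]
    funext i
    simp only [(h3 i).1, (h3 i).2]
  have h2 := ex (ι := Fin N → Bool × Bool) (fun π => (eq β).and ((h1 π).and
    (left (fun v => ∃ x y, x ≠ y ∧ pat (β v) x y = π ∧ R (β v) x y))))
  have h3 : Fintype.card (Fin N → Bool × Bool) = 4 ^ N := by simp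
  rw [h3] at h2
  refine h2.congr (fun x y hxy => ⟨?_, ?_⟩)
  · rintro ⟨π, hb, hp, x', y', hne, hp', hR⟩
    refine ⟨hb, hg (β x) x' y' x y hne hxy (fun i => ?_) hR⟩
    have e1 := congrFun (hp'.trans hp.symm) i
    simp only [pat, G, ← hb, Prod.mk.injEq, decide_eq_decide] at e1
    exact e1
  · rintro ⟨hb, hR⟩
    refine ⟨_, hb, rfl, x, y, hxy, ?_, hR⟩
    funext i
    simp only [pat, G, ← hb]

/-- Conversion to linear orders and a Boolean function. -/
theorem final [Fintype V] {N : ℕ} {R : V → V → Prop} (h : Dec N R) :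
    ∃ (σ : Fin (N + N) → V → ℕ), (∀ i, Function.Injective (σ i)) ∧
      ∃ φ : (Fin (N + N) → Bool) → Bool, ∀ x y : V, x ≠ y →
        (R x y ↔ φ (fun i => decide (σ i x < σ i y)) = true) := by
  classical
  obtain ⟨g, hg⟩ := h
  let e : V → ℤ := fun v => ((Fintype.equivFin V v : ℕ) : ℤ)
  have he : ∀ x y, x ≠ y → e x ≠ e y := by
    intro x y h
    simpa [e, Fin.val_inj] using h
  have key : ∀ (k : V → ℤ) (e' : V → ℤ), ∃ σ : V → ℕ,
      ∀ x y, σ x < σ y ↔ (k x < k y ∨ (k x = k y ∧ e' x < e' y)) := by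
    intro k e'
    obtain ⟨n, hn, hn0, -⟩ := exists_rank (fun v => toLex (k v, e' v))
    refine ⟨fun v => (n v).toNat, fun x y => ?_⟩
    have := hn x y
    rw [Prod.Lex.toLex_lt_toLex] at this
    have h0 := hn0 x
    have h1 := hn0 y
    simp only at this ⊢
    rw [← this]
    omega
  choose s1 hs1 using fun i => key (g i) e
  choose s2 hs2 using fun i => key (g i) (fun v => - e v)
  refine ⟨Fin.append s1 s2, ?_, fun π => decide (∃ x y, x ≠ y ∧
    (fun i => decide (Fin.append s1 s2 i x < Fin.append s1 s2 i y)) = π ∧ R x y), ?_⟩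
  · intro i
    refine Fin.addCases (fun i => ?_) (fun i => ?_) i
    · rw [Fin.append_left]
      intro x y hxy
      by_contra hne
      have a := hs1 i x y
      have b := hs1 i y x
      have c := he x y hne
      omega
    · rw [Fin.append_right]
      intro x y hxy
      by_contra hne
      have a := hs2 i x y
      have b := hs2 i y x
      have c := he x y hne
      omega
  · intro x y hxy
    simp only [decide_eq_true_eq]
    refine ⟨fun hR => ⟨x, y, hxy, rfl, hR⟩, ?_⟩
    rintro ⟨x', y', hne, hp, hR⟩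
    refine hg x' y' x y hne hxy (fun i => ?_) hR
    have e1 := congrFun hp (Fin.castAdd N i)
    have e2 := congrFun hp (Fin.natAdd N i)
    simp only [Fin.append_left, Fin.append_right, decide_eq_decide, hs1, hs2] at e1 e2
    have c := he x y hxy
    have c' := he x' y' hne
    omega

end Dec

namespace BDec

variable {A B : Type}

theorem of_fintype {ι : Type} [Fintype ι] {R : A → B → Prop} (f : ι → A → ℤ) (g : ι → B → ℤ)
    (h : ∀ a b a' b', (∀ i, f i a < g i b ↔ f i a' < g i b') → R a b → R a' b') :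
    BDec (Fintype.card ι) R := by
  refine ⟨fun j => f ((Fintype.equivFin ι).symm j), fun j => g ((Fintype.equivFin ι).symm j),
    fun a b a' b' h3 => h a b a' b' ?_⟩
  intro i
  simpa using h3 (Fintype.equivFin ι i)

theorem mono {N M : ℕ} {R : A → B → Prop} (h : BDec N R) (hNM : N ≤ M) : BDec M R := by
  obtain ⟨f, g, hg⟩ := h
  refine ⟨fun j => if hj : j.val < N then f ⟨j, hj⟩ else fun _ => 0,
    fun j => if hj : j.val < N then g ⟨j, hj⟩ else fun _ => 0,
    fun a b a' b' h3 => hg a b a' b' fun i => ?_⟩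
  simpa using h3 ⟨i, lt_of_lt_of_le i.2 hNM⟩

theorem congr {N : ℕ} {R R' : A → B → Prop} (h : BDec N R) (hR : ∀ x y, R x y ↔ R' x y) :
    BDec N R' := by
  obtain ⟨f, g, hg⟩ := h
  exact ⟨f, g, fun a b a' b' h3 h4 => (hR a' b').1 (hg a b a' b' h3 ((hR a b).2 h4))⟩

theorem not {N : ℕ} {R : A → B → Prop} (h : BDec N R) : BDec N (fun x y => ¬ R x y) := by
  obtain ⟨f, g, hg⟩ := h
  exact ⟨f, g, fun a b a' b' h3 h4 h5 => h4 (hg a' b' a b (fun i => (h3 i).symm) h5)⟩

theorem and {N M : ℕ} {R R' : A → B → Prop} (h : BDec N R) (h' : BDec M R') :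
    BDec (N + M) (fun x y => R x y ∧ R' x y) := by
  obtain ⟨f, g, hg⟩ := h
  obtain ⟨f', g', hg'⟩ := h'
  have := of_fintype (ι := Fin N ⊕ Fin M) (R := fun x y => R x y ∧ R' x y) (Sum.elim f f')
    (Sum.elim g g')
    (fun a b a' b' h3 h4 => ⟨hg a b a' b' (fun i => h3 (Sum.inl i)) h4.1,
      hg' a b a' b' (fun i => h3 (Sum.inr i)) h4.2⟩)
  simpa using this

theorem or {N M : ℕ} {R R' : A → B → Prop} (h : BDec N R) (h' : BDec M R') :
    BDec (N + M) (fun x y => R x y ∨ R' x y) :=
  (h.not.and h'.not).not.congr (fun _ _ => by tauto)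

theorem ex {ι : Type} [Fintype ι] {N : ℕ} {R : ι → A → B → Prop} (h : ∀ i, BDec N (R i)) :
    BDec (Fintype.card ι * N) (fun x y => ∃ i, R i x y) := by
  choose f g hg using h
  have := of_fintype (ι := ι × Fin N) (R := fun x y => ∃ i, R i x y) (fun q => f q.1 q.2)
    (fun q => g q.1 q.2)
    (fun a b a' b' h3 ⟨i, h4⟩ => ⟨i, hg i a b a' b' (fun j => h3 (i, j)) h4⟩)
  simpa using this

theorem exFin {K N : ℕ} {R : Fin K → A → B → Prop} (h : ∀ i, BDec N (R i)) :
    BDec (K * N) (fun x y => ∃ i, R i x y) := by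
  simpa using ex h

theorem lt [Fintype A] [Fintype B] {α : Type} [LinearOrder α] (f : A → α) (g : B → α) :
    BDec 1 (fun a b => f a < g b) := by
  obtain ⟨n, hn, -⟩ := exists_rank (Sum.elim f g)
  refine ⟨fun _ a => n (Sum.inl a), fun _ b => n (Sum.inr b), fun a b a' b' h3 h4 => ?_⟩
  exact (hn (Sum.inl a') (Sum.inr b')).1 ((h3 0).1 ((hn (Sum.inl a) (Sum.inr b)).2 h4))

theorem gt [Fintype A] [Fintype B] {α : Type} [LinearOrder α] (f : A → α) (g : B → α) :
    BDec 1 (fun a b => g b < f a) :=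
  lt (α := αᵒᵈ) f g

theorem le [Fintype A] [Fintype B] {α : Type} [LinearOrder α] (f : A → α) (g : B → α) :
    BDec 1 (fun a b => f a ≤ g b) :=
  (gt f g).not.congr (fun _ _ => not_lt)

theorem ge [Fintype A] [Fintype B] {α : Type} [LinearOrder α] (f : A → α) (g : B → α) :
    BDec 1 (fun a b => g b ≤ f a) :=
  (lt f g).not.congr (fun _ _ => not_lt)

/-- A bipartite relation between two disjoint sets of points. -/
theorem toDec {V : Type} [Fintype V] {N : ℕ} (PA PB : V → Prop) (hd : ∀ v, PA v → ¬ PB v)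
    {R : {v // PA v} → {v // PB v} → Prop} (h : BDec N R) :
    Dec (3 + (3 + N)) (fun x y => ∃ (hx : PA x) (hy : PB y), R ⟨x, hx⟩ ⟨y, hy⟩) := by
  classical
  obtain ⟨f, g, hg⟩ := h
  let G : Fin N → V → ℤ := fun i v =>
    if h : PA v then f i ⟨v, h⟩ else if h : PB v then g i ⟨v, h⟩ else 0
  have h1 : Dec N (fun x y => ∃ a b, R a b ∧ ∀ i, f i a < g i b ↔ G i x < G i y) :=
    ⟨G, fun x y x' y' _ _ h3 ⟨a, b, h4, h5⟩ => ⟨a, b, h4, fun i => (h5 i).trans (h3 i).1⟩⟩
  refine ((Dec.left PA).and ((Dec.right PB).and h1)).congr (fun x y _ => ⟨?_, ?_⟩)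
  · rintro ⟨hx, hy, a, b, h4, h5⟩
    refine ⟨hx, hy, hg a b _ _ (fun i => ?_) h4⟩
    have hy' : ¬ PA y := fun h => hd y h hy
    simpa only [G, dif_pos hx, dif_neg hy', dif_pos hy] using h5 i
  · rintro ⟨hx, hy, h4⟩
    have hy' : ¬ PA y := fun h => hd y h hy
    refine ⟨hx, hy, _, _, h4, fun i => ?_⟩
    simp only [G, dif_pos hx, dif_neg hy', dif_pos hy]

end BDec

end Pool.Agent.MP_a17da5_co
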