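import Mathlib

/-!
Definitions and interface statements for the proof that planar posets have bounded
Boolean dimension.
-/

set_option autoImplicit false

namespace Pool.Agent.MP_a17da5_co

/-- `R` is decided, on pairs of distinct points, by the comparisons in `N` weak orders. -/
def Dec {V : Type} (N : ℕ) (R : V → V → Prop) : Prop :=
  ∃ g : Fin N → V → ℤ, ∀ x y x' y', x ≠ y → x' ≠ y' →
    (∀ i, (g i x < g i y ↔ g i x' < g i y') ∧ (g i y < g i x ↔ g i y' < g i x')) →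
    R x y → R x' y'

/-- Bipartite version: `R a b` is decided by `N` threshold tests `f i a < g i b`. -/
def BDec {A B : Type} (N : ℕ) (R : A → B → Prop) : Prop :=
  ∃ (f : Fin N → A → ℤ) (g : Fin N → B → ℤ), ∀ a b a' b',
    (∀ i, f i a < g i b ↔ f i a' < g i b') → R a b → R a' b'

/-- The interlock graph of arms has bounded chromatic number. -/
def ColoringStmt : Prop :=
  ∃ N : ℕ, ∀ (Z : Type) [Fintype Z] (pos L J R : Z → ℤ),
    Function.Injective pos → (∀ z, L z ≤ pos z) → (∀ z, J z ≤ pos z) → (∀ z, pos z ≤ R z) →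
    (∀ u u', ¬ (L u < L u' ∧ L u' < pos u ∧ pos u < pos u')) →
    (∀ u u', ¬ (J u < J u' ∧ J u' < pos u ∧ pos u < pos u')) →
    (∀ z z', ¬ (J z < J z' ∧ J z' < R z ∧ R z < R z')) →
    (∀ z z2, J z2 < pos z → pos z < pos z2 → R z ≤ R z2) →
    ∃ col : Z → Fin N, ∀ v u, pos v ≤ L u → L u < R v → R v ≤ pos u → col v ≠ col u

/-- Opposite arms. -/
def QStmt : Prop :=
  ∃ N : ℕ, ∀ (A B Z : Type) [Fintype A] [Fintype B] [Fintype Z]
    (x : A → ℤ) (p : B → ℤ) (pos L R : Z → ℤ),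
    Function.Injective pos → (∀ c, L c < pos c) → (∀ c, pos c < R c) →
    (∀ c c', pos c < pos c' → L c' < pos c → L c' ≤ L c) →
    (∀ c c', pos c < pos c' → pos c' < R c → R c' ≤ R c) →
    BDec N (fun a b => ∃ c, L c < x a ∧ x a ≤ pos c ∧ pos c ≤ p b ∧ p b < R c)

/-- Laminar left blocks and semi-laminar right arms. -/
def PStmt : Prop :=
  ∃ N : ℕ, ∀ (A B Z : Type) [Fintype A] [Fintype B] [Fintype Z]
    (y : A → ℤ) (p : B → ℤ) (pos n J d : Z → ℤ),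
    Function.Injective pos → (∀ z, n z < pos z) → (∀ z, J z ≤ n z) → (∀ z, pos z < d z) →
    (∀ u u', pos u < pos u' → n u' < pos u → n u' ≤ n u) →
    (∀ u u', pos u < pos u' → J u' < pos u → J u' ≤ J u) →
    (∀ z z', ¬ (J z < J z' ∧ J z' < d z ∧ d z < d z')) →
    (∀ z z2, J z2 < pos z → pos z < pos z2 → d z ≤ d z2) →
    BDec N (fun a b => ∃ z, n z < p b ∧ p b ≤ pos z ∧ pos z < y a ∧ y a < d z)

/-- The line lemma. -/
def LineStmt : Prop :=
  ∃ N : ℕ, ∀ (A B C : Type) [Fintype A] [Fintype B] [Fintype C]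
    (pos r : C → ℤ) (p : B → ℤ) (Reach : A → C → Prop) (lam rho : A → C) (h : A → ℤ),
    Function.Injective pos → (∀ b c, p b ≠ pos c) → (∀ c, pos c ≤ r c) →
    (∀ c c', pos c < pos c' → pos c' ≤ r c → r c' ≤ r c) →
    (∀ a, Reach a (lam a)) → (∀ a, Reach a (rho a)) → (∀ a, pos (lam a) ≤ pos (rho a)) →
    (∀ a a' y, Reach a y → pos (lam a') ≤ pos y → pos y ≤ pos (rho a') → ¬ Reach a' y →
      pos (lam a') ≤ pos (lam a) ∧ pos (rho a) ≤ pos (rho a') ∧ h a < h a') →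
    (∀ a a' c1 c2 c3, pos (lam a) ≤ pos c1 → pos c1 < pos c2 → pos c2 < pos c3 →
      pos c3 ≤ pos (rho a) → Reach a c1 → Reach a c2 → Reach a c3 → Reach a' c2 → h a < h a' →
      Reach a' c1 ∨ Reach a' c3) →
    (∀ c, ∃ a, Reach a c) →
    BDec N (fun a b => ∃ c, Reach a c ∧ pos (lam a) ≤ pos c ∧ pos c ≤ pos (rho a) ∧
      pos c < p b ∧ p b ≤ r c)

/-- Combinatorial upward planar drawing: vertices at distinct integer heights `τ`, and a
left-to-right relation `lt` on edges that are alive at a common gap. -/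
structure UP (V E : Type) where
  tail : E → V
  head : E → V
  τ : V → ℤ
  lt : E → E → Prop
  τ_inj : Function.Injective τ
  τ_lt : ∀ e, τ (tail e) < τ (head e)
  irrefl : ∀ e, ¬ lt e e
  trans : ∀ (g : ℤ) e₁ e₂ e₃, τ (tail e₁) ≤ g → g < τ (head e₁) → τ (tail e₂) ≤ g →
    g < τ (head e₂) → τ (tail e₃) ≤ g → g < τ (head e₃) → lt e₁ e₂ → lt e₂ e₃ → lt e₁ e₃
  total : ∀ (g : ℤ) e₁ e₂, τ (tail e₁) ≤ g → g < τ (head e₁) → τ (tail e₂) ≤ g →
    g < τ (head e₂) → e₁ ≠ e₂ → lt e₁ e₂ ∨ lt e₂ e₁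
  span : ∀ v e e₁ e₂, τ (tail e) < τ v → τ v < τ (head e) → (tail e₁ = v ∨ head e₁ = v) →
    (tail e₂ = v ∨ head e₂ = v) → lt e e₁ → lt e e₂

namespace UP

variable {V E : Type} (S : UP V E)

def adj (a b : V) : Prop := ∃ e, S.tail e = a ∧ S.head e = b

/-- Reachability along directed edges. -/
def le (a b : V) : Prop := Relation.ReflTransGen S.adj a b

theorem span' (v : V) (e e₁ e₂ : E) (h1 : S.τ (S.tail e) < S.τ v) (h2 : S.τ v < S.τ (S.head e))
    (i1 : S.tail e₁ = v ∨ S.head e₁ = v) (i2 : S.tail e₂ = v ∨ S.head e₂ = v)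
    (h : S.lt e₁ e) : S.lt e₂ e := by
  have key : ∀ e', (S.tail e' = v ∨ S.head e' = v) → ∃ g : ℤ, S.τ (S.tail e) ≤ g ∧
      g < S.τ (S.head e) ∧ S.τ (S.tail e') ≤ g ∧ g < S.τ (S.head e') := by
    intro e' i
    have := S.τ_lt e'
    rcases i with i | i
    · exact ⟨S.τ v, by omega, by omega, by rw [i], by rw [i] at this; exact this⟩
    · exact ⟨S.τ v - 1, by omega, by omega, by rw [i] at this; omega, by rw [i]; omega⟩
  obtain ⟨g, a1, a2, a3, a4⟩ := key e₂ i2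
  have hne : e ≠ e₂ := by
    rintro rfl
    rcases i2 with i | i
    · rw [i] at h1; omega
    · rw [i] at h2; omega
  rcases S.total g e e₂ a1 a2 a3 a4 hne with h' | h'
  · obtain ⟨g', b1, b2, b3, b4⟩ := key e₁ i1
    exact absurd (S.trans g' e e₁ e b1 b2 b3 b4 b1 b2 (S.span v e e₂ e₁ h1 h2 i2 i1 h') h)
      (S.irrefl e)
  · exact h'

end UP

/-- Unfolding into layers, for an abstract notion `Good` of blob. -/
def LayersStmt : Prop :=
  ∀ N : ℕ, ∃ N' : ℕ, ∀ (V : Type) [Fintype V] (A : V → V → Prop) (τ : V → ℤ),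
    (∀ a b, A a b → τ a < τ b) →
    ∀ (Good : (V → V → Prop) → Set V → Prop),
      (∀ x₀, (∀ a, ¬ A a x₀) → Good A {x₀}) →
      (∀ A' K, Good A' K → Good (flip A') {v | ∃ k ∈ K, Relation.ReflTransGen A' k v}) →
      (∀ A' K, Good A' K → Dec N (fun a b => a ∉ K ∧ (∃ k ∈ K, Relation.ReflTransGen A' k b) ∧
        b ∉ K ∧ Relation.ReflTransGen A' a b)) →
      Dec N' (Relation.ReflTransGen A)

def MainStmt : Prop :=
  ∃ N : ℕ, ∀ (V E : Type) [Fintype V] [Fintype E] (S : UP V E), Dec N S.le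

def DrawingStmt : Prop :=
  ∀ (P : Type) [Fintype P] [PartialOrder P],
    (∃ (f : P → ℝ × ℝ) (γ : P → P → ℝ → ℝ × ℝ),
      Function.Injective f ∧
      (∀ a b : P, a ⋖ b →
        ContinuousOn (γ a b) (Set.Icc (0:ℝ) 1) ∧ γ a b 0 = f a ∧ γ a b 1 = f b ∧
        StrictMonoOn (fun t => (γ a b t).2) (Set.Icc (0:ℝ) 1)) ∧
      (∀ a b e : P, a ⋖ b → ∀ s ∈ Set.Ioo (0:ℝ) 1, γ a b s ≠ f e) ∧
      (∀ a b c d : P, a ⋖ b → c ⋖ d → (a ≠ c ∨ b ≠ d) →
        ∀ s ∈ Set.Ioo (0:ℝ) 1, ∀ t ∈ Set.Icc (0:ℝ) 1, γ a b s ≠ γ c d t)) →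
    ∃ (E : Type) (_ : Fintype E) (S : UP P E), ∀ x y, S.le x y ↔ x ≤ y

end Pool.Agent.MP_a17da5_co
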