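import Pool.Agent.MP_a17da5_co.Defs

set_option autoImplicit false

namespace Pool.Agent.MP_a17da5_co

open Set

namespace Drw

/-- Reparametrisation of a rising curve by its height. -/
lemma param (c : ℝ → ℝ × ℝ) (hc : ContinuousOn c (Icc 0 1))
    (hm : StrictMonoOn (fun t => (c t).2) (Icc 0 1)) :
    ∃ T : ℝ → ℝ, ContinuousOn T (Icc (c 0).2 (c 1).2) ∧
      ∀ h ∈ Icc (c 0).2 (c 1).2, T h ∈ Icc (0 : ℝ) 1 ∧ (c (T h)).2 = h := by
  have h1 : ∀ h : ℝ, ∃ t : ℝ, h ∈ Icc (c 0).2 (c 1).2 → t ∈ Icc (0 : ℝ) 1 ∧ (c t).2 = h := by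
    intro h
    by_cases hh : h ∈ Icc (c 0).2 (c 1).2
    · obtain ⟨t, ht, e⟩ := intermediate_value_Icc zero_le_one hc.snd hh
      exact ⟨t, fun _ => ⟨ht, e⟩⟩
    · exact ⟨0, fun h => absurd h hh⟩
  choose T hT using h1
  refine ⟨T, ?_, hT⟩
  rw [continuousOn_iff_isClosed]
  intro t ht
  refine ⟨(fun t => (c t).2) '' (t ∩ Icc 0 1), ?_, ?_⟩
  · exact ((isCompact_Icc.inter_left ht).image_of_continuousOn
      (hc.snd.mono inter_subset_right)).isClosed
  · ext h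
    constructor
    · rintro ⟨h2, h3⟩
      exact ⟨⟨T h, ⟨h2, (hT h h3).1⟩, (hT h h3).2⟩, h3⟩
    · rintro ⟨⟨s, ⟨h2, h3⟩, h4⟩, h5⟩
      have : T h = s := hm.injOn (hT h h5).1 h3 ((hT h h5).2.trans h4.symm)
      exact ⟨by rw [mem_preimage, this]; exact h2, h5⟩

lemma rank {V α : Type} [Fintype V] [LinearOrder α] (k : V → α) :
    ∃ τ : V → ℤ, ∀ u v, τ u < τ v ↔ k u < k v := by
  classical
  have h : ∀ u v, k u < k v → (Finset.univ.filter fun w => k w < k u).card <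
      (Finset.univ.filter fun w => k w < k v).card := by
    intro u v h
    apply Finset.card_lt_card
    rw [Finset.ssubset_iff_of_subset]
    · exact ⟨u, by simp [h], by simp⟩
    · intro w hw
      simp only [Finset.mem_filter, Finset.mem_univ, true_and] at hw ⊢
      exact hw.trans h
  refine ⟨fun v => ((Finset.univ.filter fun w => k w < k v).card : ℤ), fun u v => ⟨?_, ?_⟩⟩
  · intro h1
    by_contra h2
    rcases (not_lt.1 h2).eq_or_lt with h3 | h3
    · simp [h3] at h1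
    · have := h v u h3
      simp only at h1
      omega
  · intro h1
    have := h u v h1
    simp only
    omega

/-- Edges as graphs of functions of the height. -/
structure Gr (V E : Type) where
  x : V → ℝ
  y : V → ℝ
  tail : E → V
  head : E → V
  X : E → ℝ → ℝ
  inj : ∀ u v, x u = x v → y u = y v → u = v
  up : ∀ e, y (tail e) < y (head e)
  cont : ∀ e, ContinuousOn (X e) (Icc (y (tail e)) (y (head e)))
  lo : ∀ e, X e (y (tail e)) = x (tail e)
  hi : ∀ e, X e (y (head e)) = x (head e)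
  avoid : ∀ e v, y v ∈ Ioo (y (tail e)) (y (head e)) → X e (y v) ≠ x v
  disj : ∀ e e' h, e ≠ e' → h ∈ Ioo (y (tail e)) (y (head e)) →
    h ∈ Icc (y (tail e')) (y (head e')) → X e h ≠ X e' h

namespace Gr

variable {V E : Type} (G : Gr V E)

def I (e : E) : Set ℝ := Icc (G.y (G.tail e)) (G.y (G.head e))

def lt (e e' : E) : Prop := ∃ h, h ∈ G.I e ∧ h ∈ G.I e' ∧ G.X e h < G.X e' h

lemma irrefl (e : E) : ¬ G.lt e e := fun ⟨_, _, _, h⟩ => lt_irrefl _ h

lemma key {e e' : E} (hl : G.lt e e') {k : ℝ} (h1 : k ∈ G.I e) (h2 : k ∈ G.I e') :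
    G.X e k ≤ G.X e' k := by
  have hne : e ≠ e' := by rintro rfl; exact G.irrefl e hl
  obtain ⟨h, h3, h4, h5⟩ := hl
  by_contra h6
  rw [not_le] at h6
  have s1 : uIcc h k ⊆ G.I e := uIcc_subset_Icc h3 h1
  have s2 : uIcc h k ⊆ G.I e' := uIcc_subset_Icc h4 h2
  have hc : ContinuousOn (fun t => G.X e' t - G.X e t) (uIcc h k) :=
    ((G.cont e').mono s2).sub ((G.cont e).mono s1)
  have h0 : (0 : ℝ) ∈ uIcc (G.X e' h - G.X e h) (G.X e' k - G.X e k) :=
    mem_uIcc.2 (Or.inr ⟨by linarith, by linarith⟩)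
  obtain ⟨m, hm, e0⟩ := intermediate_value_uIcc hc h0
  simp only at e0
  have n1 : m ≠ h := by rintro rfl; linarith
  have n2 : m ≠ k := by rintro rfl; linarith
  refine G.disj e e' m hne ?_ (s2 hm) (by linarith)
  obtain ⟨a1, a2⟩ := h3
  obtain ⟨b1, b2⟩ := h1
  rcases mem_uIcc.1 hm with ⟨c1, c2⟩ | ⟨c1, c2⟩
  · exact ⟨lt_of_le_of_lt a1 (lt_of_le_of_ne c1 n1.symm), lt_of_lt_of_le (lt_of_le_of_ne c2 n2) b2⟩
  · exact ⟨lt_of_le_of_lt b1 (lt_of_le_of_ne c1 n2.symm), lt_of_lt_of_le (lt_of_le_of_ne c2 n1) a2⟩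

/-- The lexicographic position of a vertex. -/
def pos (v : V) : ℝ ×ₗ ℝ := toLex (G.y v, G.x v)

lemma y_le {u v : V} (h : G.pos u < G.pos v) : G.y u ≤ G.y v := by
  rcases Prod.Lex.toLex_lt_toLex.1 h with h | h
  · exact h.le
  · exact h.1.le

lemma common {ι : Type} [Finite ι] [Nonempty ι] (e : ι → E)
    (h : ∀ i j, G.pos (G.tail (e i)) < G.pos (G.head (e j))) :
    ∃ m, (∀ i, m ∈ G.I (e i)) ∧ ((∀ i j, G.X (e i) m = G.X (e j) m) → ∀ i j, e i = e j) := by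
  obtain ⟨a, ha⟩ := Finite.exists_max fun i => G.y (G.tail (e i))
  obtain ⟨b, hb⟩ := Finite.exists_min fun i => G.y (G.head (e i))
  rcases (G.y_le (h a b)).eq_or_lt with h1 | h1
  · refine ⟨G.y (G.tail (e a)), fun i => ⟨ha i, h1.le.trans (hb i)⟩, fun h2 => ?_⟩
    have h3 := h2 a b
    rw [G.lo, h1, G.hi] at h3
    have h4 := h a b
    rw [G.inj _ _ h3 h1] at h4
    exact absurd h4 (lt_irrefl _)
  · have h2 : ∀ i, (G.y (G.tail (e a)) + G.y (G.head (e b))) / 2 ∈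
        Ioo (G.y (G.tail (e i))) (G.y (G.head (e i))) := fun i =>
      ⟨by linarith [ha i], by linarith [hb i]⟩
    refine ⟨_, fun i => Ioo_subset_Icc_self (h2 i), fun h3 i j => ?_⟩
    by_contra h4
    exact G.disj _ _ _ h4 (h2 i) (Ioo_subset_Icc_self (h2 j)) (h3 i j)

lemma at_end {v : V} {e : E} (h : G.tail e = v ∨ G.head e = v) :
    G.y v ∈ G.I e ∧ G.X e (G.y v) = G.x v := by
  rcases h with rfl | rfl
  · exact ⟨⟨le_rfl, (G.up e).le⟩, G.lo e⟩
  · exact ⟨⟨(G.up e).le, le_rfl⟩, G.hi e⟩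

lemma exists_up [Fintype V] : ∃ S : UP V E, S.tail = G.tail ∧ S.head = G.head := by
  obtain ⟨τ, hτ⟩ := rank G.pos
  refine ⟨⟨G.tail, G.head, τ, G.lt, ?_, ?_, G.irrefl, ?_, ?_, ?_⟩, rfl, rfl⟩
  · intro u v h
    rcases lt_trichotomy (G.pos u) (G.pos v) with h1 | h1 | h1
    · have := (hτ u v).2 h1; omega
    · have h2 : (G.y u, G.x u) = (G.y v, G.x v) := toLex.injective h1
      exact G.inj u v (congrArg Prod.snd h2) (congrArg Prod.fst h2)
    · have := (hτ v u).2 h1; omega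
  · intro e
    exact (hτ _ _).2 (Prod.Lex.toLex_lt_toLex.2 (Or.inl (G.up e)))
  · intro g e₁ e₂ e₃ a1 a2 b1 b2 c1 c2 l1 l2
    obtain ⟨m, h1, h2⟩ := G.common ![e₁, e₂, e₃] (by
      intro i j
      rw [← hτ]
      fin_cases i <;> fin_cases j <;> simp <;> omega)
    have m1 : m ∈ G.I e₁ := h1 0
    have m2 : m ∈ G.I e₂ := h1 1
    have m3 : m ∈ G.I e₃ := h1 2
    have k1 := G.key l1 m1 m2
    have k2 := G.key l2 m2 m3
    refine ⟨m, m1, m3, lt_of_le_of_ne (k1.trans k2) fun h => ?_⟩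
    have k3 : G.X e₂ m = G.X e₃ m := by linarith
    have : e₁ = e₂ := h2 (by
      intro i j
      fin_cases i <;> fin_cases j <;> simp [h, k3]) 0 1
    exact G.irrefl e₂ (this ▸ l1)
  · intro g e₁ e₂ a1 a2 b1 b2 hne
    obtain ⟨m, h1, h2⟩ := G.common ![e₁, e₂] (by
      intro i j
      rw [← hτ]
      fin_cases i <;> fin_cases j <;> simp <;> omega)
    have m1 : m ∈ G.I e₁ := h1 0
    have m2 : m ∈ G.I e₂ := h1 1
    rcases lt_trichotomy (G.X e₁ m) (G.X e₂ m) with h | h | h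
    · exact Or.inl ⟨m, m1, m2, h⟩
    · exact absurd (h2 (by
        intro i j
        fin_cases i <;> fin_cases j <;> simp [h]) 0 1) hne
    · exact Or.inr ⟨m, m2, m1, h⟩
  · intro v e e₁ e₂ a1 a2 i1 i2 l
    rw [hτ] at a1 a2
    have m : G.y v ∈ G.I e := ⟨G.y_le a1, G.y_le a2⟩
    obtain ⟨p1, q1⟩ := G.at_end i1
    obtain ⟨p2, q2⟩ := G.at_end i2
    refine ⟨G.y v, m, p2, ?_⟩
    have k := G.key l m p1
    rw [q1] at k
    rw [q2]
    refine lt_of_le_of_ne k fun h => ?_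
    rcases m.1.eq_or_lt with h1 | h1
    · rw [← h1, G.lo] at h
      rw [G.inj _ _ h h1] at a1
      exact lt_irrefl _ a1
    rcases m.2.eq_or_lt with h2 | h2
    · rw [h2, G.hi] at h
      rw [G.inj _ _ h h2.symm] at a2
      exact lt_irrefl _ a2
    exact G.avoid e v ⟨h1, h2⟩ h

end Gr

end Drw

theorem drawing : DrawingStmt := by
  classical
  intro P _ _ ⟨f, γ, hf, h2, h3, h4⟩
  let E := {p : P × P // p.1 ⋖ p.2}
  have hT := fun e : E => Drw.param (γ e.1.1 e.1.2) (h2 _ _ e.2).1 (h2 _ _ e.2).2.2.2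
  choose T hT1 hT2 using hT
  have e0 : ∀ e : E, γ e.1.1 e.1.2 0 = f e.1.1 := fun e => (h2 _ _ e.2).2.1
  have e1 : ∀ e : E, γ e.1.1 e.1.2 1 = f e.1.2 := fun e => (h2 _ _ e.2).2.2.1
  have hm : ∀ e : E, StrictMonoOn (fun t => (γ e.1.1 e.1.2 t).2) (Icc 0 1) :=
    fun e => (h2 _ _ e.2).2.2.2
  simp only [e0, e1] at hT1 hT2
  have z0 : (0 : ℝ) ∈ Icc (0 : ℝ) 1 := ⟨le_rfl, zero_le_one⟩
  have z1 : (1 : ℝ) ∈ Icc (0 : ℝ) 1 := ⟨zero_le_one, le_rfl⟩
  have up : ∀ e : E, (f e.1.1).2 < (f e.1.2).2 := fun e => by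
    have := hm e z0 z1 zero_lt_one
    simpa only [e0, e1] using this
  have inner : ∀ (e : E) h, h ∈ Ioo (f e.1.1).2 (f e.1.2).2 → T e h ∈ Ioo (0 : ℝ) 1 := by
    intro e h hh
    obtain ⟨a, b⟩ := hT2 e h (Ioo_subset_Icc_self hh)
    refine ⟨lt_of_le_of_ne a.1 fun c => ?_, lt_of_le_of_ne a.2 fun c => ?_⟩
    · rw [← c, e0] at b
      exact hh.1.ne b
    · rw [c, e1] at b
      exact hh.2.ne' b
  let G : Drw.Gr P E :=
    { x := fun v => (f v).1
      y := fun v => (f v).2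
      tail := fun e => e.1.1
      head := fun e => e.1.2
      X := fun e h => (γ e.1.1 e.1.2 (T e h)).1
      inj := fun u v a b => hf (Prod.ext a b)
      up := up
      cont := fun e => ((h2 _ _ e.2).1.comp (hT1 e) fun h hh => (hT2 e h hh).1).fst
      lo := fun e => by
        obtain ⟨a, b⟩ := hT2 e _ ⟨le_rfl, (up e).le⟩
        have : T e (f e.1.1).2 = 0 := (hm e).injOn a z0 (by simp only [b, e0])
        simp only [this, e0]
      hi := fun e => by
        obtain ⟨a, b⟩ := hT2 e _ ⟨(up e).le, le_rfl⟩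
        have : T e (f e.1.2).2 = 1 := (hm e).injOn a z1 (by simp only [b, e1])
        simp only [this, e1]
      avoid := fun e v hv h =>
        h3 _ _ v e.2 _ (inner e _ hv) (Prod.ext h (hT2 e _ (Ioo_subset_Icc_self hv)).2)
      disj := fun e e' h hne a b c => by
        refine h4 _ _ _ _ e.2 e'.2 ?_ _ (inner e h a) _ (hT2 e' h b).1 (Prod.ext c ?_)
        · by_contra h5
          push Not at h5
          exact hne (Subtype.ext (Prod.ext h5.1 h5.2))
        · rw [(hT2 e h (Ioo_subset_Icc_self a)).2, (hT2 e' h b).2] }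
  obtain ⟨S, s1, s2⟩ := G.exists_up
  refine ⟨E, inferInstance, S, fun x y => ?_⟩
  let _ : LocallyFiniteOrder P := Fintype.toLocallyFiniteOrder
  have : S.adj = (· ⋖ ·) := by
    funext a b
    apply propext
    rw [UP.adj, s1, s2]
    constructor
    · rintro ⟨e, rfl, rfl⟩
      exact e.2
    · intro h
      exact ⟨⟨(a, b), h⟩, rfl, rfl⟩
  rw [UP.le, this, le_iff_reflTransGen_covBy]

end Pool.Agent.MP_a17da5_co
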