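import Pool.Agent.MP_a17da5_co.RS

/-!
Contraction of the green part of a rooted structure along a spanning forest.
-/

set_option autoImplicit false

namespace Pool.Agent.MP_a17da5_co

namespace ExtAux

variable {V E : Type} [Fintype V] [Fintype E] {R : RS V E} (T : R.Tree)

/-- The tree path to `v` leaves the tree path to `u` to the left. -/
def Lf (v u : V) : Prop :=
  ∃ e f, T.On v e ∧ T.On u f ∧ R.src e = R.src f ∧ R.ork e < R.ork f

/-- The key of a token at `v`. -/
noncomputable def K (v : V) (i j : ℤ) : List (ℤ ×ₗ ℤ) :=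
  T.F.key (fun v => toLex (2, R.ork (T.par v))) (some v) (toLex (i, j))

variable {T}

theorem antisymm {v u : V} (h : T.Anc v u) (h' : T.Anc u v) : v = u :=
  R.τ_inj (le_antisymm h.le.τ_le h'.le.τ_le)

theorem Lf.not_anc {v u : V} (h : Lf T v u) (hu : R.green u) : ¬ T.Anc v u := by
  obtain ⟨e, f, h1, h2, h3, h4⟩ := h
  intro ha
  rw [(h1.trans ha).eq_of_src hu h2 h3] at h4
  omega

theorem Lf.not_anc' {v u : V} (h : Lf T v u) (hv : R.green v) : ¬ T.Anc u v := by
  obtain ⟨e, f, h1, h2, h3, h4⟩ := h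
  intro ha
  rw [h1.eq_of_src hv (h2.trans ha) h3] at h4
  omega

theorem trich {v u : V} (hv : R.green v) (hu : R.green u) :
    T.Anc v u ∨ T.Anc u v ∨ Lf T v u ∨ Lf T u v := by
  rcases RS.Tree.diverge (T := T) hv hu with h | ⟨e, h1, h2, h3 | ⟨f, h3, h4⟩⟩
  · exact Or.inl h
  · exact Or.inr (Or.inl (h1.anc_src hv h3))
  · rcases lt_trichotomy (R.ork e) (R.ork f) with h5 | h5 | h5
    · exact Or.inr (Or.inr (Or.inl ⟨e, f, h1, h3, h4.symm, h5⟩))
    · have := R.ork_inj e f h4.symm h5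
      subst this
      exact absurd h3.2 (h2 _ (T.anc_refl _))
    · exact Or.inr (Or.inr (Or.inr ⟨f, e, h3, h1, h4, h5⟩))

theorem pass_on {v : V} (hv : R.green v) (ρ : ℤ ×ₗ ℤ) {e : E} (h : T.On v e) :
    T.F.Pass (fun v => toLex (2, R.ork (T.par v))) (some v) ρ (R.src e) (toLex (2, R.ork e)) :=
  Or.inr ⟨R.hd e, v, rfl, h.2, h.up hv, by simp only [h.1]⟩

theorem K_lt_of {v u : V} (hv : R.green v) (hu : R.green u) {i j i' j' : ℤ}
    (h : (v = u ∧ (i < i' ∨ (i = i' ∧ j < j'))) ∨ (T.Anc v u ∧ v ≠ u ∧ i < 2) ∨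
      (T.Anc u v ∧ v ≠ u ∧ 2 < i') ∨ Lf T v u) : K T v i j < K T u i' j' := by
  rcases h with ⟨rfl, h⟩ | ⟨h1, h2, h3⟩ | ⟨h1, h2, h3⟩ | ⟨e, f, h1, h2, h3, h4⟩
  · exact T.F.key_lt_of_pass (Or.inl ⟨rfl, rfl⟩) (Or.inl ⟨rfl, rfl⟩)
      (Prod.Lex.toLex_lt_toLex.2 h)
  · obtain ⟨e, he, hs⟩ := h1.exists_out hu h2
    exact T.F.key_lt_of_pass (Or.inl ⟨hs, rfl⟩) (pass_on hu _ he)
      (Prod.Lex.toLex_lt_toLex.2 (Or.inl h3))
  · obtain ⟨e, he, hs⟩ := h1.exists_out hv (Ne.symm h2)
    exact T.F.key_lt_of_pass (pass_on hv _ he) (Or.inl ⟨hs, rfl⟩)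
      (Prod.Lex.toLex_lt_toLex.2 (Or.inl h3))
  · have h5 := pass_on hu (toLex (i', j')) h2
    rw [← h3] at h5
    exact T.F.key_lt_of_pass (pass_on hv _ h1) h5
      (Prod.Lex.toLex_lt_toLex.2 (Or.inr ⟨rfl, h4⟩))

theorem K_lt {v u : V} (hv : R.green v) (hu : R.green u) {i j i' j' : ℤ} (hi : i ≠ 2)
    (hi' : i' ≠ 2) : K T v i j < K T u i' j' ↔
      ((v = u ∧ (i < i' ∨ (i = i' ∧ j < j'))) ∨ (T.Anc v u ∧ v ≠ u ∧ i < 2) ∨
      (T.Anc u v ∧ v ≠ u ∧ 2 < i') ∨ Lf T v u) := by
  refine ⟨fun h => ?_, K_lt_of hv hu⟩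
  by_contra hc
  by_cases he : v = u ∧ i = i' ∧ j = j'
  · obtain ⟨rfl, rfl, rfl⟩ := he
    exact lt_irrefl _ h
  refine lt_asymm h (K_lt_of hu hv ?_)
  by_cases hvu : v = u
  · refine Or.inl ⟨hvu.symm, ?_⟩
    simp only [hvu, true_and, not_or] at hc he
    omega
  · rcases trich (T := T) hv hu with h1 | h1 | h1 | h1
    · refine Or.inr (Or.inr (Or.inl ⟨h1, Ne.symm hvu, ?_⟩))
      by_contra h2
      exact hc (Or.inr (Or.inl ⟨h1, hvu, by omega⟩))
    · refine Or.inr (Or.inl ⟨h1, Ne.symm hvu, ?_⟩)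
      by_contra h2
      exact hc (Or.inr (Or.inr (Or.inl ⟨h1, hvu, by omega⟩)))
    · exact absurd (Or.inr (Or.inr (Or.inr h1))) hc
    · exact Or.inr (Or.inr (Or.inr h1))

theorem K_eq {v u : V} (hv : R.green v) (hu : R.green u) {i j i' j' : ℤ} (hi : i ≠ 2)
    (hi' : i' ≠ 2) (h1 : ¬ K T v i j < K T u i' j') (h2 : ¬ K T u i' j' < K T v i j) :
    v = u ∧ i = i' ∧ j = j' := by
  rw [K_lt hv hu hi hi'] at h1
  rw [K_lt hu hv hi' hi] at h2
  by_cases hvu : v = u
  · simp only [hvu, true_and, not_or] at h1 h2 ⊢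
    omega
  · exfalso
    rcases trich (T := T) hv hu with h | h | h | h
    · by_cases h3 : i < 2
      · exact h1 (Or.inr (Or.inl ⟨h, hvu, h3⟩))
      · exact h2 (Or.inr (Or.inr (Or.inl ⟨h, Ne.symm hvu, by omega⟩)))
    · by_cases h3 : i' < 2
      · exact h2 (Or.inr (Or.inl ⟨h, Ne.symm hvu, h3⟩))
      · exact h1 (Or.inr (Or.inr (Or.inl ⟨h, hvu, by omega⟩)))
    · exact h1 (Or.inr (Or.inr (Or.inr h)))
    · exact h2 (Or.inr (Or.inr (Or.inr h)))

theorem anc_iff {x v : V} (hv : R.green v) :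
    T.Anc x v ↔ x = v ∨ ∃ u, R.src (T.par v) = some u ∧ T.Anc x u := by
  constructor
  · intro h
    rcases Forest.Anc.cases_tail h with h1 | ⟨c, h1, h2⟩
    · exact Or.inl h1
    · exact Or.inr ⟨c, by rw [← T.up_eq hv, h1], h2⟩
  · rintro (rfl | ⟨u, h1, h2⟩)
    · exact T.anc_refl _
    · exact h2.trans (((T.anc_refl v).on hv).anc_src hv h1)

theorem on_iff {v : V} (hv : R.green v) {f : E} :
    T.On v f ↔ f = T.par v ∨ ∃ u, R.src (T.par v) = some u ∧ T.On u f := by
  constructor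
  · rintro ⟨h1, h2⟩
    rcases (anc_iff hv).1 h2 with h | ⟨u, h3, h4⟩
    · exact Or.inl (by rw [← h1, h])
    · exact Or.inr ⟨u, h3, h1, h4⟩
  · rintro (rfl | ⟨u, h1, h2⟩)
    · exact (T.anc_refl v).on hv
    · exact h2.trans (((T.anc_refl v).on hv).anc_src hv h1)

theorem Lf_iff {x v : V} (hv : R.green v) :
    Lf T x v ↔ (∃ f, T.On x f ∧ R.src f = R.src (T.par v) ∧ R.ork f < R.ork (T.par v)) ∨
      ∃ u, R.src (T.par v) = some u ∧ Lf T x u := by
  constructor
  · rintro ⟨e, f, h1, h2, h3, h4⟩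
    rcases (on_iff hv).1 h2 with rfl | ⟨u, h5, h6⟩
    · exact Or.inl ⟨e, h1, h3, h4⟩
    · exact Or.inr ⟨u, h5, e, f, h1, h6, h3, h4⟩
  · rintro (⟨f, h1, h2, h3⟩ | ⟨u, h1, e, f, h2, h3, h4, h5⟩)
    · exact ⟨f, _, h1, (T.anc_refl v).on hv, h2, h3⟩
    · exact ⟨e, f, h2, (on_iff hv).2 (Or.inr ⟨u, h1, h3⟩), h4, h5⟩

omit [Fintype V] in
theorem not_gsrc {e : E} (h : R.red e) : ¬ R.gsrc e := by
  obtain ⟨v, h1, h2⟩ := h
  exact fun h3 => h2 (h3 v h1)

omit [Fintype V] in
theorem red_of_not_green {e : E} (h : ¬ R.green (R.hd e)) : R.red e := by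
  by_contra hc
  refine h (RS.gsrc.green_hd (fun v hv => ?_))
  by_contra h2
  exact hc ⟨v, hv, h2⟩

omit [Fintype V] in
theorem irk_ne {c : E} (h : R.red c) (hg : R.green (R.hd c)) :
    R.irk c ≠ R.irk (T.par (R.hd c)) := by
  intro he
  have := R.irk_inj c _ (T.hd_par _ hg).symm he
  exact not_gsrc h (this ▸ T.gsrc_par _ hg)

theorem z2_move {x y z : ZMod 2} (h : x = y + z) : y = x + z := by revert x y z; decide

variable (T) in
/-- The side function along the contour of the forest. -/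
theorem contour (Y1 : E → ZMod 2) (hY : ∀ e, Y1 e ≠ 0 → R.red e)
    (H1 : ∀ v, sumOn Y1 (fun e => R.src e = some v) =
      sumOn Y1 (fun e => ¬ R.green (R.hd e) ∧ R.hd e = v))
    (H2 : sumOn Y1 (fun e => R.green (R.hd e)) = 0) :
    ∃ (s : E → ZMod 2) (w : V → ZMod 2),
      (∀ c0, R.red c0 → R.green (R.hd c0) → s c0 = sumOn Y1 (fun c => R.green (R.hd c) ∧
        K T (R.hd c) (if R.irk c < R.irk (T.par (R.hd c)) then 0 else 3) (- R.irk c) <
        K T (R.hd c0) (if R.irk c0 < R.irk (T.par (R.hd c0)) then 0 else 3) (- R.irk c0))) ∧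
      (∀ e, ¬ R.green (R.hd e) → s e = w (R.hd e) +
        sumOn Y1 (fun f => R.hd f = R.hd e ∧ - R.irk f < - R.irk e)) ∧
      (∀ e v, R.src e = some v → ¬ R.green v → s e = w v +
        sumOn Y1 (fun f => R.src f = R.src e ∧ - R.ork f < - R.ork e)) := by
  obtain ⟨YT, hYT⟩ : ∃ YT : E → ZMod 2,
      YT = fun e => sumOn Y1 (fun c => R.green (R.hd c) ∧ T.On (R.hd c) e) := ⟨_, rfl⟩
  have t0 : ∀ e, R.red e → YT e = 0 := by
    intro e he
    rw [hYT]
    refine sumOn_eq_zero (fun c hc => ?_)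
    exact absurd (hc.2.gsrc hc.1) (not_gsrc he)
  have ts : ∀ (o : Option V) (Q : E → Prop), sumOn YT (fun e => R.src e = o ∧ Q e) =
      sumOn Y1 (fun c => R.green (R.hd c) ∧ ∃ f, T.On (R.hd c) f ∧ R.src f = o ∧ Q f) := by
    intro o Q
    rw [hYT, sumOn_swap Y1 (fun c e => R.green (R.hd c) ∧ T.On (R.hd c) e) _
      (fun c e e' a b a' b' => a.2.eq_of_src a.1 a'.2 (b.1.trans b'.1.symm))]
    exact sumOn_congr (fun c _ => ⟨fun ⟨f, a, b⟩ => ⟨a.1, f, a.2, b⟩,
      fun ⟨a, f, a', b⟩ => ⟨f, ⟨a, a'⟩, b⟩⟩)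
  have th : ∀ (v : V) (Q : E → Prop), sumOn YT (fun e => R.hd e = v ∧ Q e) =
      sumOn Y1 (fun c => R.green (R.hd c) ∧ ∃ f, T.On (R.hd c) f ∧ R.hd f = v ∧ Q f) := by
    intro v Q
    rw [hYT, sumOn_swap Y1 (fun c e => R.green (R.hd c) ∧ T.On (R.hd c) e) _
      (fun c e e' a b a' b' => a.2.eq_of_hd a'.2 (b.1.trans b'.1.symm))]
    exact sumOn_congr (fun c _ => ⟨fun ⟨f, a, b⟩ => ⟨a.1, f, a.2, b⟩,
      fun ⟨a, f, a', b⟩ => ⟨f, ⟨a, a'⟩, b⟩⟩)
  have ts' : ∀ o : Option V, sumOn YT (fun e => R.src e = o) =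
      sumOn Y1 (fun c => R.green (R.hd c) ∧ ∃ f, T.On (R.hd c) f ∧ R.src f = o) :=
    fun o => by simpa using ts o (fun _ => True)
  have th' : ∀ v : V, sumOn YT (fun e => R.hd e = v) =
      sumOn Y1 (fun c => R.green (R.hd c) ∧ ∃ f, T.On (R.hd c) f ∧ R.hd f = v) :=
    fun v => by simpa using th v (fun _ => True)
  have hev : ∀ v, sumOn (fun e => Y1 e + YT e) (fun e => R.hd e = v) =
      sumOn (fun e => Y1 e + YT e) (fun e => R.src e = some v) := by
    intro v
    rw [sumOn_add, sumOn_add, ts', th', H1, sumOn_xor, sumOn_xor]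
    refine sumOn_congr (fun c _ => ?_)
    by_cases hg : R.green (R.hd c)
    · rw [RS.Tree.even_on hg, @eq_comm _ v]
      generalize (∃ f, T.On (R.hd c) f ∧ R.hd f = v) = p
      tauto
    · tauto
  have hroot : sumOn (fun e => Y1 e + YT e) (fun e => R.src e = none) = 0 := by
    rw [sumOn_add, ts', sumOn_xor, ← H2]
    refine sumOn_congr (fun c hc => ?_)
    obtain ⟨v, h1, -⟩ := hY c hc
    by_cases hg : R.green (R.hd c)
    · have := T.exists_root hg
      simp [h1, hg, this]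
    · simp [h1, hg]
  obtain ⟨s, w, h0, ho, hi⟩ := R.jordan _ hev hroot
  have hw : ∀ u, R.green u → w (some u) = s (T.par u) +
      sumOn Y1 (fun c => R.hd c = u ∧ R.irk c < R.irk (T.par u)) := by
    intro u hu
    have h1 := hi (T.par u)
    rw [T.hd_par u hu, sumOn_add, th] at h1
    rw [sumOn_eq_zero (Y := Y1) (P := fun c => R.green (R.hd c) ∧ ∃ f, T.On (R.hd c) f ∧
      R.hd f = u ∧ R.irk f < R.irk (T.par u)), add_zero] at h1
    · exact z2_move h1
    · rintro c ⟨-, f, a1, a2, a3⟩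
      rw [← a2, a1.1] at a3
      omega
  have S0 : ∀ v, R.green v → s (T.par v) = sumOn Y1 (fun c => R.green (R.hd c) ∧
      ((T.Anc (R.hd c) v ∧ R.hd c ≠ v ∧ R.irk c < R.irk (T.par (R.hd c))) ∨
        Lf T (R.hd c) v)) := by
    intro v
    induction v using T.F.wf.induction with
    | _ v ih =>
      intro hv
      have h1 := ho (T.par v)
      rw [sumOn_add, ts, sumOn_eq_zero (Y := Y1) (P := fun f => R.src f = R.src (T.par v) ∧
        R.ork f < R.ork (T.par v)), zero_add] at h1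
      swap
      · intro f hf
        by_contra hc
        obtain ⟨u, a1, a2⟩ := hY f hc
        exact a2 (T.gsrc_par v hv u (hf.1 ▸ a1))
      cases hs : R.src (T.par v) with
      | none =>
        rw [h1, hs, h0, zero_add]
        refine sumOn_congr (fun c _ => ?_)
        rw [Lf_iff hv, anc_iff hv, hs]
        simp only [reduceCtorEq, false_and, exists_false, or_false]
        tauto
      | some u =>
        have hu : R.green u := T.gsrc_par v hv u hs
        have hlt : R.τ u < R.τ v := by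
          have := R.τ_lt _ _ hs
          rwa [T.hd_par v hv] at this
        rw [h1, hs, hw u hu, ih u (by rw [T.up_eq hv, hs]) hu, sumOn_xor, sumOn_xor]
        refine sumOn_congr (fun c _ => ?_)
        rw [Lf_iff hv, anc_iff hv, hs]
        simp only [Option.some.injEq, exists_eq_left']
        by_cases hg : R.green (R.hd c)
        swap
        · have : R.hd c ≠ u := fun h => hg (h ▸ hu)
          tauto
        have a1 : (∃ f, T.On (R.hd c) f ∧ R.src f = some u ∧ R.ork f < R.ork (T.par v)) →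
            T.Anc u (R.hd c) ∧ R.hd c ≠ u := by
          rintro ⟨f, b1, b2, -⟩
          exact ⟨b1.anc_src hg b2, fun h => b1.src_ne (by rw [b2, h])⟩
        have a2 : T.Anc (R.hd c) u → T.Anc u (R.hd c) → R.hd c = u := antisymm
        have a3 : Lf T (R.hd c) u → ¬ T.Anc (R.hd c) u := fun h => h.not_anc hu
        have a4 : Lf T (R.hd c) u → ¬ T.Anc u (R.hd c) := fun h => h.not_anc' hg
        have a5 : T.Anc (R.hd c) u → R.hd c ≠ v := by
          intro h h'
          have := h.le.τ_le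
          rw [h'] at this
          omega
        by_cases hx : R.hd c = u
        · have a6 : T.Anc (R.hd c) u := hx ▸ T.anc_refl _
          have a7 : R.irk c < R.irk (T.par u) ↔ R.irk c < R.irk (T.par (R.hd c)) := by rw [hx]
          rw [a7]
          generalize (∃ f, T.On (R.hd c) f ∧ R.src f = some u ∧ R.ork f < R.ork (T.par v)) = p
            at a1 ⊢
          tauto
        · generalize (∃ f, T.On (R.hd c) f ∧ R.src f = some u ∧ R.ork f < R.ork (T.par v)) = p
            at a1 ⊢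
          tauto
  have cut : ∀ P : E → Prop, (∀ f, P f → R.red f) →
      sumOn (fun e => Y1 e + YT e) P = sumOn Y1 P := fun P hP =>
    sumOn_congr_fun (fun f hf => by rw [t0 f (hP f hf), add_zero])
  refine ⟨fun e => s e + Y1 e,
    fun v => w (some v) + sumOn (fun e => Y1 e + YT e) (fun e => R.hd e = v), ?_, ?_, ?_⟩
  · intro c0 r0 g0
    beta_reduce
    rw [hi c0, hw _ g0, S0 _ g0, sumOn_add, th, ← sumOn_single Y1 c0, sumOn_xor, sumOn_xor,
      sumOn_xor, sumOn_xor]
    refine sumOn_congr (fun c hc => ?_)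
    have n0 := irk_ne (T := T) r0 g0
    by_cases hg : R.green (R.hd c)
    swap
    · have b1 : R.hd c ≠ R.hd c0 := fun h => hg (h ▸ g0)
      have b2 : c ≠ c0 := fun h => b1 (by rw [h])
      tauto
    have n1 := irk_ne (T := T) (hY c hc) hg
    have a0 : (∃ f, T.On (R.hd c) f ∧ R.hd f = R.hd c0 ∧ R.irk f < R.irk c0) ↔
        (T.Anc (R.hd c0) (R.hd c) ∧ R.irk (T.par (R.hd c0)) < R.irk c0) := by
      constructor
      · rintro ⟨f, b1, b2, b3⟩
        rw [← b2, b1.1]
        exact ⟨b1.2, b3⟩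
      · rintro ⟨b1, b2⟩
        exact ⟨_, b1.on hg, T.hd_par _ g0, b2⟩
    rw [a0, K_lt hg g0 (by split_ifs <;> omega) (by split_ifs <;> omega)]
    clear a0
    by_cases hx : R.hd c = R.hd c0
    · have a1 : ¬ Lf T (R.hd c0) (R.hd c0) := fun h => h.not_anc g0 (T.anc_refl _)
      have a2 : c = c0 ↔ R.irk c = R.irk c0 := ⟨fun h => by rw [h], R.irk_inj c c0 hx⟩
      rw [hx] at n1
      rw [a2, hx]
      simp only [g0, a1, T.anc_refl, ne_eq, not_true_eq_false, false_and, and_false, or_false,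
        true_and, false_iff, not_not]
      split_ifs <;> omega
    · have b2 : c ≠ c0 := fun h => hx (by rw [h])
      have a2 : T.Anc (R.hd c) (R.hd c0) → ¬ T.Anc (R.hd c0) (R.hd c) :=
        fun h h' => hx (antisymm h h')
      have a4 : Lf T (R.hd c) (R.hd c0) → ¬ T.Anc (R.hd c0) (R.hd c) := fun h => h.not_anc' hg
      have a5 : (if R.irk c < R.irk (T.par (R.hd c)) then (0 : ℤ) else 3) < 2 ↔
          R.irk c < R.irk (T.par (R.hd c)) := by split_ifs <;> omega
      have a6 : 2 < (if R.irk c0 < R.irk (T.par (R.hd c0)) then (0 : ℤ) else 3) ↔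
          R.irk (T.par (R.hd c0)) < R.irk c0 := by split_ifs <;> omega
      rw [a5, a6]
      simp only [hx, b2, hg, false_and, false_or, true_and, iff_false, not_not, false_iff,
        ne_eq, not_false_eq_true]
      tauto
  · intro e he
    beta_reduce
    have h1 := RS.mirror_aux (fun e => Y1 e + YT e) R.hd R.irk R.irk_inj e
    beta_reduce at h1
    rw [t0 e (red_of_not_green he), add_zero,
      cut (fun f => R.hd f = R.hd e ∧ - R.irk f < - R.irk e)
        (fun f hf => red_of_not_green (hf.1 ▸ he))] at h1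
    rw [hi e, add_assoc, h1, add_assoc]
  · intro e v hv hg
    beta_reduce
    have h1 := RS.mirror_aux (fun e => Y1 e + YT e) R.src R.ork R.ork_inj e
    beta_reduce at h1
    rw [t0 e ⟨v, hv, hg⟩, add_zero,
      cut (fun f => R.src f = R.src e ∧ - R.ork f < - R.ork e)
        (fun f hf => ⟨v, hf.1.trans hv, hg⟩)] at h1
    rw [ho e, add_assoc, h1, add_assoc, hev, hv]

end ExtAux

open ExtAux in
theorem ext : ExtStmt := by
  classical
  intro V E _ _ R T _
  choose tl tl1 tl2 using fun e : {e // R.red e} => e.2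
  obtain ⟨fi, hfi⟩ : ∃ fi : E → ℤ,
    ∀ c, fi c = if R.irk c < R.irk (T.par (R.hd c)) then 0 else 3 := ⟨_, fun _ => rfl⟩
  have fi2 : ∀ c, fi c ≠ 2 := fun c => by rw [hfi]; split_ifs <;> omega
  obtain ⟨num, hnum, -⟩ := exists_rank (V := E ⊕ V ⊕ V) (Sum.elim
    (fun c => K T (R.hd c) (fi c) (- R.irk c))
    (Sum.elim (fun b => K T b 1 0) (fun v => K T v 4 0)))
  obtain ⟨src2, s1, s2⟩ : ∃ src2 : {e // R.red e} → Option V,
      (∀ e, R.green (R.hd e.1) → src2 e = none) ∧
      ∀ e, ¬ R.green (R.hd e.1) → src2 e = some (R.hd e.1) :=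
    ⟨fun e => if R.green (R.hd e.1) then none else some (R.hd e.1),
      fun e h => if_pos h, fun e h => if_neg h⟩
  obtain ⟨ork2, o1, o2⟩ : ∃ ork2 : {e // R.red e} → ℤ,
      (∀ e, R.green (R.hd e.1) → ork2 e = num (Sum.inl e.1)) ∧
      ∀ e, ¬ R.green (R.hd e.1) → ork2 e = - R.irk e.1 :=
    ⟨fun e => if R.green (R.hd e.1) then num (Sum.inl e.1) else - R.irk e.1,
      fun e h => if_pos h, fun e h => if_neg h⟩
  have s3 : ∀ e, src2 e = none → R.green (R.hd e.1) := by
    intro e h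
    by_contra hc
    rw [s2 e hc] at h
    cases h
  have s4 : ∀ e v, src2 e = some v → ¬ R.green (R.hd e.1) ∧ R.hd e.1 = v := by
    intro e v h
    by_cases hc : R.green (R.hd e.1)
    · rw [s1 e hc] at h
      cases h
    · rw [s2 e hc] at h
      exact ⟨hc, Option.some.inj h⟩
  have tl3 : ∀ e e', tl e = tl e' ↔ R.src e.1 = R.src e'.1 := by
    intro e e'
    rw [tl1, tl1, Option.some.injEq]
  let R' : RS V {e // R.red e} :=
    { src := src2
      hd := tl
      τ := fun v => - R.τ v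
      ork := ork2
      irk := fun e => - R.ork e.1
      lt := fun q l => R.lt l.1 q.1
      τ_inj := fun a b h => R.τ_inj (neg_injective h)
      τ_lt := by
        intro e v h
        have := R.τ_lt _ _ (tl1 e)
        rw [(s4 e v h).2] at this
        omega
      ork_inj := by
        intro e e' h h'
        apply Subtype.ext
        cases hs : src2 e with
        | none =>
          have g := s3 e hs
          have g' := s3 e' (h ▸ hs)
          rw [o1 e g, o1 e' g'] at h'
          have a := hnum (Sum.inl e.1) (Sum.inl e'.1)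
          have b := hnum (Sum.inl e'.1) (Sum.inl e.1)
          obtain ⟨c1, -, c2⟩ := K_eq g g' (fi2 _) (fi2 _) (fun c => by
            have := a.2 c
            omega) (fun c => by
            have := b.2 c
            omega)
          exact R.irk_inj _ _ c1 (neg_injective c2)
        | some v =>
          obtain ⟨g, c⟩ := s4 e v hs
          obtain ⟨g', c'⟩ := s4 e' v (h ▸ hs)
          rw [o2 e g, o2 e' g'] at h'
          exact R.irk_inj _ _ (c.trans c'.symm) (neg_injective h')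
      irk_inj := fun e e' h h' =>
        Subtype.ext (R.ork_inj _ _ ((tl3 e e').1 h) (neg_injective h'))
      lt_out := by
        intro q l v h h'
        obtain ⟨g, c⟩ := s4 q v h
        obtain ⟨g', c'⟩ := s4 l v h'
        rw [o2 q g, o2 l g', R.lt_in l.1 q.1 _ _ (tl1 l) (tl1 q) (c'.trans c.symm)]
        omega
      lt_in := by
        intro q l a c _ _ h
        rw [R.lt_out l.1 q.1 _ (tl1 l) (by rw [tl1 q, h])]
        omega
      up1 := fun q l q' h1 h2 h3 => R.dn2 l.1 q.1 q'.1 _ _ _ h1 (tl1 l) (tl1 q) (by omega)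
        (s4 _ _ h3).2 (tl1 q')
      up2 := fun q l l' h1 h2 h3 => R.dn1 l.1 q.1 l'.1 _ _ _ h1 (tl1 l) (tl1 q) (by omega)
        (s4 _ _ h3).2 (tl1 l')
      dn1 := by
        intro q l q' a c a' h1 h2 h3 h4 h5 _
        have b2 := (s4 _ _ h2).2
        have b3 := (s4 _ _ h3).2
        exact R.up2 l.1 q.1 q'.1 h1 (by rw [b2, b3]; omega) (by rw [tl1, h5, b2])
      dn2 := by
        intro q l l' a c c' h1 h2 h3 h4 h5 _
        have b2 := (s4 _ _ h2).2
        have b3 := (s4 _ _ h3).2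
        exact R.up1 l.1 q.1 l'.1 h1 (by rw [b2, b3]; omega) (by rw [tl1, h5, b3])
      jordan := by
        intro Y2 J1 J2
        obtain ⟨Y1, hY1⟩ : ∃ Y1 : E → ZMod 2,
          Y1 = fun e => if h : R.red e then Y2 ⟨e, h⟩ else 0 := ⟨_, rfl⟩
        have hY : ∀ e, Y1 e ≠ 0 → R.red e := by
          intro e he
          by_contra hc
          exact he (by rw [hY1]; exact dif_neg hc)
        have tr : ∀ (P : {e // R.red e} → Prop) (Q : E → Prop), (∀ e, P e ↔ Q e.1) →
            sumOn Y2 P = sumOn Y1 Q := by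
          intro P Q h
          rw [sumOn_subtype]
          have : (fun e => if h : R.red e then Y2 ⟨e, h⟩ else 0) = Y1 := hY1.symm
          convert (sumOn_congr (Y := Y1) (P := fun e => ∃ h, P ⟨e, h⟩) (Q := Q)
            (fun e he => ⟨fun ⟨h1, h2⟩ => (h _).1 h2,
              fun h2 => ⟨hY e he, (h ⟨e, hY e he⟩).2 h2⟩⟩))
        obtain ⟨s, w, c1, c2, c3⟩ := contour T Y1 hY (by
          intro v
          rw [← tr (fun e => tl e = v) _ (fun e => by rw [tl1, Option.some.injEq]), J1]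
          refine tr _ _ (fun e => ⟨s4 e v, fun h => ?_⟩)
          rw [s2 e h.1, h.2]) (by
          rw [← J2]
          exact (tr _ _ (fun e => ⟨s3 e, s1 e⟩)).symm)
        refine ⟨fun e => s e.1, fun o => o.elim 0 w, rfl, fun e => ?_, fun e => ?_⟩
        · beta_reduce
          by_cases g : R.green (R.hd e.1)
          · rw [s1 e g, c1 e.1 e.2 g, Option.elim_none, zero_add]
            refine (tr _ _ (fun f => ?_)).symm
            rw [← hfi, ← hfi, o1 e g]
            have a := hnum (Sum.inl f.1) (Sum.inl e.1)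
            simp only [Sum.elim_inl] at a
            constructor
            · rintro ⟨b1, b2⟩
              rw [o1 f (s3 f b1)] at b2
              exact ⟨s3 f b1, a.1 b2⟩
            · rintro ⟨b1, b2⟩
              rw [o1 f b1]
              exact ⟨s1 f b1, a.2 b2⟩
          · rw [s2 e g, c2 e.1 g, Option.elim_some]
            congr 1
            refine (tr _ _ (fun f => ?_)).symm
            rw [o2 e g]
            constructor
            · rintro ⟨b1, b2⟩
              rw [o2 f (s4 f _ b1).1] at b2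
              exact ⟨(s4 f _ b1).2, b2⟩
            · rintro ⟨b1, b2⟩
              have g' : ¬ R.green (R.hd f.1) := b1 ▸ g
              rw [o2 f g', s2 f g', b1]
              exact ⟨rfl, b2⟩
        · beta_reduce
          rw [c3 e.1 _ (tl1 e) (tl2 e), Option.elim_some]
          congr 1
          exact (tr _ _ (fun f => by rw [tl3])).symm }
  obtain ⟨r, r1, r2⟩ : ∃ r : {e // R.red e} → ℤ,
      (∀ c, R.irk c.1 < R.irk (T.par (R.hd c.1)) → r c = num (Sum.inr (Sum.inr (R.hd c.1)))) ∧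
      ∀ c, ¬ R.irk c.1 < R.irk (T.par (R.hd c.1)) → r c = ork2 c :=
    ⟨fun c => if R.irk c.1 < R.irk (T.par (R.hd c.1)) then num (Sum.inr (Sum.inr (R.hd c.1)))
      else ork2 c, fun e h => if_pos h, fun e h => if_neg h⟩
  have fi0 : ∀ c, R.irk c < R.irk (T.par (R.hd c)) → fi c = 0 := fun c h => by
    rw [hfi, if_pos h]
  -- a token after a left dart at `v` and not after the end of `v` lies above `v`
  have mid : ∀ v u j i' j', R.green v → R.green u → i' < 2 → K T v 0 j < K T u i' j' →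
      ¬ K T v 4 0 < K T u i' j' → T.Anc v u := by
    intro v u j i' j' hv hu hi h1 h2
    rcases (K_lt hv hu (by omega) (by omega)).1 h1 with h | h | h | h
    · exact h.1 ▸ T.anc_refl _
    · exact h.1
    · omega
    · exact absurd (K_lt_of hv hu (Or.inr (Or.inr (Or.inr h)))) h2
  have fin : ∀ v u i' j', R.green v → R.green u → i' ≠ 2 → (i' < 4 ∨ (i' = 4 ∧ j' = 0)) →
      T.Anc v u → ¬ K T v 4 0 < K T u i' j' := by
    intro v u i' j' hv hu hi hi' ha h1
    rcases (K_lt hv hu (by omega) hi).1 h1 with h | h | h | h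
    · omega
    · omega
    · exact h.2.1 (antisymm ha h.1)
    · exact h.not_anc hu ha
  refine ⟨R', r, fun b => num (Sum.inr (Sum.inl b)), s1, s2, tl1, ?_, ?_, ?_, ?_⟩
  · intro b c hb hc h
    have g := s3 c hc
    change num (Sum.inr (Sum.inl b)) = ork2 c at h
    rw [o1 c g] at h
    have a := hnum (Sum.inl c.1) (Sum.inr (Sum.inl b))
    have a' := hnum (Sum.inr (Sum.inl b)) (Sum.inl c.1)
    obtain ⟨-, c1, -⟩ := K_eq (i' := 1) g hb (fi2 _) (by omega) (fun c => by
      have := a.2 c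
      omega) (fun c => by
      have := a'.2 c
      omega)
    rw [hfi] at c1
    split_ifs at c1 <;> omega
  · intro c hc
    have g := s3 c hc
    change ork2 c ≤ r c
    by_cases hl : R.irk c.1 < R.irk (T.par (R.hd c.1))
    · rw [r1 c hl, o1 c g]
      refine le_of_lt ((hnum _ _).2 ?_)
      simp only [Sum.elim_inl, Sum.elim_inr, fi0 _ hl]
      exact K_lt_of g g (Or.inl ⟨rfl, by omega⟩)
    · rw [r2 c hl]
  · intro c c' hc hc' h1 h2
    have g := s3 c hc
    have g' := s3 c' hc'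
    change ork2 c < ork2 c' at h1
    change ork2 c' ≤ r c at h2
    by_cases hl : R.irk c.1 < R.irk (T.par (R.hd c.1))
    swap
    · rw [r2 c hl] at h2
      omega
    by_cases hl' : R.irk c'.1 < R.irk (T.par (R.hd c'.1))
    swap
    · rw [r2 c' hl']
      exact h2
    rw [r1 c hl, o1 c' g', ← not_lt, hnum] at h2
    rw [o1 c g, o1 c' g', hnum] at h1
    rw [r1 c hl, r1 c' hl', ← not_lt, hnum]
    simp only [Sum.elim_inl, Sum.elim_inr, fi0 _ hl, fi0 _ hl'] at h1 h2 ⊢
    exact fin _ _ _ _ g g' (by omega) (by omega) (mid _ _ _ _ _ g g' (by omega) h1 h2)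
  · intro b c hb hc
    have g := s3 c hc
    change (ork2 c < num (Sum.inr (Sum.inl b)) ∧ num (Sum.inr (Sum.inl b)) ≤ r c) ↔ _
    by_cases hl : R.irk c.1 < R.irk (T.par (R.hd c.1))
    swap
    · rw [r2 c hl]
      constructor
      · intro h
        omega
      · intro h
        exact absurd h.1 hl
    rw [r1 c hl, o1 c g, ← not_lt, hnum, hnum]
    simp only [Sum.elim_inl, Sum.elim_inr, fi0 _ hl]
    constructor
    · rintro ⟨h1, h2⟩
      exact ⟨hl, mid _ _ _ _ _ g hb (by omega) h1 h2⟩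
    · rintro ⟨-, h⟩
      refine ⟨K_lt_of g hb ?_, fin _ _ _ _ g hb (by omega) (by omega) h⟩
      by_cases he : R.hd c.1 = b
      · exact Or.inl ⟨he, by omega⟩
      · exact Or.inr (Or.inl ⟨h, he, by omega⟩)

end Pool.Agent.MP_a17da5_co
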