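import Pool.Agent.MP_a17da5_co.RS

/-!
Extremal trees and the region between the leftmost down path and the lexicographically
rightmost exit path.
-/

set_option autoImplicit false

namespace Pool.Agent.MP_a17da5_co

theorem exists_min_on {α : Type} [Finite α] (P : α → Prop) (f : α → ℤ) (h : ∃ a, P a) :
    ∃ a, P a ∧ ∀ b, P b → f a ≤ f b :=
  Set.exists_min_image {a | P a} f (Set.toFinite _) h

theorem exists_max_on {α : Type} [Finite α] (P : α → Prop) (f : α → ℤ) (h : ∃ a, P a) :
    ∃ a, P a ∧ ∀ b, P b → f b ≤ f a :=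
  Set.exists_max_image {a | P a} f (Set.toFinite _) h

namespace RS

variable {V E : Type} [Fintype V] [Fintype E] {R : RS V E}

/-- Every tree edge is the leftmost entering edge coming from the root or a green vertex. -/
def Tree.IsLeft (T : R.Tree) : Prop :=
  ∀ e, R.gsrc e → R.irk (T.par (R.hd e)) ≤ R.irk e

/-- Every tree path is lexicographically rightmost. -/
def Tree.IsLex (T : R.Tree) : Prop :=
  ∀ b f e, R.green b → T.On b f → R.src e = R.src f → R.le (R.hd e) b → R.ork e ≤ R.ork f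

variable (R) in
theorem exists_left [Nonempty E] : ∃ T : R.Tree, T.IsLeft := by
  have : ∀ v, ∃ e, R.green v → (R.hd e = v ∧ R.gsrc e) ∧
      ∀ e', (R.hd e' = v ∧ R.gsrc e') → R.irk e ≤ R.irk e' := by
    intro v
    by_cases hv : R.green v
    · obtain ⟨e, h1, h2⟩ := exists_min_on (fun e => R.hd e = v ∧ R.gsrc e) R.irk hv.exists_in
      exact ⟨e, fun _ => ⟨h1, h2⟩⟩
    · exact ⟨Classical.arbitrary E, fun h => absurd h hv⟩
  choose par hpar using this
  exact ⟨⟨par, fun v hv => (hpar v hv).1.1, fun v hv => (hpar v hv).1.2⟩,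
    fun e he => (hpar _ he.green_hd).2 e ⟨rfl, he⟩⟩

variable (R) in
def GoodE (b : V) (e : E) : Prop :=
  R.le (R.hd e) b ∧ ∀ e', R.src e' = R.src e → R.le (R.hd e') b → R.ork e' ≤ R.ork e

variable (R) in
def LexE (b : V) (e : E) : Prop :=
  ∃ e0, R.src e0 = none ∧ R.GoodE b e0 ∧
    Relation.ReflTransGen (fun f f' => R.src f' = some (R.hd f) ∧ R.GoodE b f') e0 e

theorem GoodE.unique {b : V} {e e' : E} (h : R.GoodE b e) (h' : R.GoodE b e')
    (hs : R.src e = R.src e') : e = e' :=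
  R.ork_inj _ _ hs (le_antisymm (h'.2 e hs h.1) (h.2 e' hs.symm h'.1))

theorem LexE.good {b : V} {e : E} (h : R.LexE b e) : R.GoodE b e ∧ R.gsrc e := by
  obtain ⟨e0, h1, h2, h3⟩ := h
  induction h3 with
  | refl => exact ⟨h2, gsrc_of_none h1⟩
  | tail _ h5 ih => exact ⟨h5.2, gsrc_of_some h5.1 ih.2.green_hd⟩

theorem LexE.unique {b : V} {e e' : E} (h : R.LexE b e) (h' : R.LexE b e')
    (hh : R.hd e = R.hd e') : e = e' := by
  obtain ⟨e0, h1, h2, h3⟩ := h
  obtain ⟨e0', h1', h2', h3'⟩ := h'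
  obtain rfl : e0 = e0' := h2.unique h2' (h1.trans h1'.symm)
  have key : ∀ f f', Relation.ReflTransGen
      (fun f f' => R.src f' = some (R.hd f) ∧ R.GoodE b f') f f' →
      f = f' ∨ R.τ (R.hd f) < R.τ (R.hd f') := by
    intro f f' h
    induction h with
    | refl => exact Or.inl rfl
    | tail _ h5 ih =>
      have := R.τ_lt _ _ h5.1
      rcases ih with rfl | ih
      · exact Or.inr this
      · exact Or.inr (ih.trans this)
  have hu : Relator.RightUnique (fun f f' => R.src f' = some (R.hd f) ∧ R.GoodE b f') :=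
    fun _ _ _ a c => a.2.unique c.2 (a.1.trans c.1.symm)
  rcases Relation.ReflTransGen.total_of_right_unique hu h3 h3' with h | h
  · rcases key _ _ h with h | h
    · exact h
    · rw [hh] at h; exact absurd h (lt_irrefl _)
  · rcases key _ _ h with h | h
    · exact h.symm
    · rw [hh] at h; exact absurd h (lt_irrefl _)

theorem exists_goodE {b : V} {e : E} (h : R.le (R.hd e) b) :
    ∃ f, R.src f = R.src e ∧ R.GoodE b f := by
  obtain ⟨f, h1, h2⟩ := exists_max_on (fun f => R.src f = R.src e ∧ R.le (R.hd f) b) R.ork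
    ⟨e, rfl, h⟩
  exact ⟨f, h1.1, h1.2, fun e' a c => h2 e' ⟨a.trans h1.1, c⟩⟩

theorem exists_lexE {b : V} (hb : R.green b) : ∃ e, R.LexE b e ∧ R.hd e = b := by
  obtain ⟨e, h1, h2⟩ := hb
  obtain ⟨f, h3, h4⟩ := exists_goodE h2
  refine R.ind_top b (P := fun e => R.LexE b e → ∃ e, R.LexE b e ∧ R.hd e = b) ?_ f h4.1
    ⟨f, h3.trans h1, h4, Relation.ReflTransGen.refl⟩
  intro e he ih hl
  rcases he.cases_head with h | ⟨e', h5, h6⟩
  · exact ⟨e, hl, h⟩
  · obtain ⟨f', h7, h8⟩ := exists_goodE h6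
    obtain ⟨e0, a1, a2, a3⟩ := hl
    exact ih f' (h7.trans h5) h8.1 ⟨e0, a1, a2, a3.tail ⟨h7.trans h5, h8⟩⟩

theorem LexE.restrict {b u : V} {e : E} (h : R.LexE b e) (h1 : R.le (R.hd e) u) (h2 : R.le u b) :
    R.LexE u e := by
  obtain ⟨e0, a1, a2, a3⟩ := h
  have hg : ∀ f, R.GoodE b f → R.le (R.hd f) u → R.GoodE u f :=
    fun f a c => ⟨c, fun e' x y => a.2 e' x (y.trans h2)⟩
  induction a3 with
  | refl => exact ⟨e0, a1, hg _ a2 h1, Relation.ReflTransGen.refl⟩
  | tail _ h5 ih =>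
    obtain ⟨e1, b1, b2, b3⟩ := ih ((le_hd h5.1).trans h1)
    exact ⟨e1, b1, b2, b3.tail ⟨h5.1, hg _ h5.2 h1⟩⟩

variable (R) in
theorem exists_lex [Nonempty E] : ∃ T : R.Tree, T.IsLex := by
  have : ∀ v, ∃ e, R.green v → R.LexE v e ∧ R.hd e = v := by
    intro v
    by_cases hv : R.green v
    · obtain ⟨e, h⟩ := exists_lexE hv
      exact ⟨e, fun _ => h⟩
    · exact ⟨Classical.arbitrary E, fun h => absurd h hv⟩
  choose par hpar using this
  let T : R.Tree := ⟨par, fun v hv => (hpar v hv).2, fun v hv => (hpar v hv).1.good.2⟩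
  refine ⟨T, fun b f e hb hf h1 h2 => ?_⟩
  have key : ∀ v, T.Anc v b → R.LexE b (par v) := by
    intro v hv
    refine T.F.anc_induction (P := fun v => R.LexE b (par v)) (hpar b hb).1 ?_ hv
    intro c u hc hl hu
    have hcg := T.green_of_up hu
    have hub : T.Anc u b := Forest.Anc.up hc hu
    rw [T.up_eq hcg] at hu
    obtain ⟨e0, a1, a2, a3⟩ := hl
    rcases a3.cases_tail with h | ⟨e1, h3, h4, -⟩
    · have : R.src (par c) = none := by rw [h, a1]
      exact absurd (this.symm.trans hu) (by simp)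
    · have h5 : R.hd e1 = u := Option.some_injective _ (h4.symm.trans hu)
      have h6 : R.LexE b e1 := ⟨e0, a1, a2, h3⟩
      have h7 := hpar u (hub.green hb)
      have := (h6.restrict (u := u) (h5 ▸ R.le_refl _) hub.le).unique h7.1 (h5.trans h7.2.symm)
      rw [← this]; exact h6
  have := (key _ hf.2).good.1
  have h3 : par (R.hd f) = f := hf.1
  rw [h3] at this
  exact this.2 e h1 h2

/-- A tree all of whose paths to vertices above an exit start with this exit. -/
theorem exists_tree_from (c : E) (hc : R.src c = none) :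
    ∃ T : R.Tree, ∀ a, R.le (R.hd c) a → T.On a c ∧ ∀ t, T.Anc t a → R.le (R.hd c) t := by
  have : ∀ v, ∃ e, (R.green v → R.hd e = v ∧ R.gsrc e) ∧ (v = R.hd c → e = c) ∧
      (R.le (R.hd c) v → v ≠ R.hd c → ∃ u, R.src e = some u ∧ R.le (R.hd c) u) := by
    intro v
    by_cases h1 : v = R.hd c
    · exact ⟨c, fun _ => ⟨h1.symm, gsrc_of_none hc⟩, fun _ => rfl, fun _ h => absurd h1 h⟩
    · by_cases h2 : R.le (R.hd c) v
      · rcases h2.cases_tail with h3 | ⟨e, u, h3, h4, h5⟩
        · exact absurd h3.symm h1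
        · exact ⟨e, fun _ => ⟨h4, gsrc_of_some h3 ⟨c, hc, h5⟩⟩, fun h => absurd h h1,
            fun _ _ => ⟨u, h3, h5⟩⟩
      · by_cases hv : R.green v
        · obtain ⟨e, h⟩ := hv.exists_in
          exact ⟨e, fun _ => h, fun h => absurd h h1, fun h => absurd h h2⟩
        · exact ⟨c, fun h => absurd h hv, fun h => absurd h h1, fun h => absurd h h2⟩
  choose par h1 h2 h3 using this
  let T : R.Tree := ⟨par, fun v hv => (h1 v hv).1, fun v hv => (h1 v hv).2⟩
  refine ⟨T, fun a ha => ?_⟩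
  have hag : R.green a := ⟨c, hc, ha⟩
  have key : ∀ t, T.Anc t a → R.le (R.hd c) t := by
    intro t ht
    refine T.F.anc_induction (P := fun t => R.le (R.hd c) t) ha ?_ ht
    intro v u _ hv hu
    rw [T.up_eq (T.green_of_up hu)] at hu
    by_cases h4 : v = R.hd c
    · have : R.src (par v) = none := by rw [h2 v h4, hc]
      exact absurd (this.symm.trans hu) (by simp)
    · obtain ⟨u', h5, h6⟩ := h3 v hv h4
      obtain rfl : u' = u := Option.some_injective _ (h5.symm.trans hu)
      exact h6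
  refine ⟨?_, key⟩
  obtain ⟨f, hf, hs⟩ := T.exists_root hag
  have : f = c := by
    by_cases h4 : R.hd f = R.hd c
    · rw [← hf.1]; exact h2 _ h4
    · obtain ⟨u, h5, -⟩ := h3 _ (key _ hf.2) h4
      have h6 : par (R.hd f) = f := hf.1
      rw [h6, hs] at h5
      cases h5
  rwa [← this]

/-! ### Local rules -/

namespace Tree

variable (T : R.Tree)

def oL (b : V) (e : E) : Prop := ∃ f, T.On b f ∧ R.src f = R.src e ∧ R.ork f < R.ork e

def iL (b : V) (e : E) : Prop := ∃ f, T.On b f ∧ R.hd f = R.hd e ∧ R.irk f < R.irk e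

variable {T} {b : V} {e : E}

theorem oL_iff (hb : R.green b) {f : E} (hf : T.On b f) (hs : R.src f = R.src e) :
    T.oL b e ↔ R.ork f < R.ork e := by
  refine ⟨?_, fun h => ⟨f, hf, hs, h⟩⟩
  rintro ⟨f', h1, h2, h3⟩
  rwa [hf.eq_of_src hb h1 (hs.trans h2.symm)]

theorem not_oL (hb : R.green b) {u : V} (hs : R.src e = some u) (hu : ¬ T.Anc u b) :
    ¬ T.oL b e := by
  rintro ⟨f, h1, h2, -⟩
  exact hu (h1.anc_src hb (h2.trans hs))

theorem not_oL_top (hs : R.src e = some b) : ¬ T.oL b e := by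
  rintro ⟨f, h1, h2, -⟩
  exact h1.src_ne (h2.trans hs)

theorem iL_iff (hb : R.green b) (h : T.Anc (R.hd e) b) :
    T.iL b e ↔ R.irk (T.par (R.hd e)) < R.irk e := by
  refine ⟨?_, fun h' => ⟨_, h.on hb, T.hd_par _ (h.green hb), h'⟩⟩
  rintro ⟨f, h1, h2, h3⟩
  rwa [← h2, h1.1]

theorem not_iL (h : ¬ T.Anc (R.hd e) b) : ¬ T.iL b e := by
  rintro ⟨f, h1, h2, -⟩
  exact h (h2 ▸ h1.2)

theorem not_oL_self (hb : R.green b) (h : T.On b e) : ¬ T.oL b e := by
  rw [oL_iff hb h rfl]; exact lt_irrefl _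

theorem not_iL_self (hb : R.green b) (h : T.On b e) : ¬ T.iL b e := by
  rw [iL_iff hb h.2, h.1]; exact lt_irrefl _

/-- At a region of the path other than the top there is an edge of the path leaving it. -/
theorem exists_out' (hb : R.green b) {f : E} {T' : R.Tree} (hf : T'.On b f)
    (h : ∀ u, R.src f = some u → T.Anc u b) : ∃ f', T.On b f' ∧ R.src f' = R.src f := by
  cases hs : R.src f with
  | none => exact T.exists_root hb
  | some u => exact (h u hs).exists_out hb (by rintro rfl; exact hf.src_ne hs)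

end Tree

namespace Sides

variable {T1 T2 : R.Tree} {b : V} {s : E → Prop} {w : Option V → Prop}

theorem out' (h : R.Sides T1 T2 b s w) (e : E) :
    s e ↔ ¬ (w (R.src e) ↔ ¬ (T1.oL b e ↔ T2.oL b e)) := h.out e

theorem inn' (h : R.Sides T1 T2 b s w) (e : E) :
    s e ↔ ¬ (w (some (R.hd e)) ↔ ¬ (T1.iL b e ↔ T2.iL b e)) := h.inn e

theorem s_hd (h : R.Sides T1 T2 b s w) {e : E} (h1 : ¬ T1.Anc (R.hd e) b)
    (h2 : ¬ T2.Anc (R.hd e) b) : s e ↔ w (some (R.hd e)) := by
  have := h.inn' e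
  simpa [Tree.not_iL h1, Tree.not_iL h2] using this

theorem s_src (h : R.Sides T1 T2 b s w) (hb : R.green b) {e : E} {u : V} (hs : R.src e = some u)
    (h1 : ¬ T1.Anc u b) (h2 : ¬ T2.Anc u b) : s e ↔ w (some u) := by
  have := h.out' e
  simpa [Tree.not_oL hb hs h1, Tree.not_oL hb hs h2, hs] using this

/-- The side is constant along a path avoiding the two tree paths. -/
theorem persist (h : R.Sides T1 T2 b s w) (hb : R.green b) {u v : V} (huv : R.le u v)
    (hav : ∀ t, R.le u t → R.le t v → ¬ T1.Anc t b ∧ ¬ T2.Anc t b) :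
    w (some u) ↔ w (some v) := by
  induction huv with
  | refl => exact Iff.rfl
  | @tail c v h1 h2 ih =>
    obtain ⟨e, h3, rfl⟩ := h2
    have a1 := hav c h1 (le_hd h3)
    have a2 := hav _ (le.trans h1 (le_hd h3)) (R.le_refl _)
    rw [ih (fun t x y => hav t x (y.trans (le_hd h3))), ← h.s_src hb h3 a1.1 a1.2,
      h.s_hd a2.1 a2.2]

theorem trap (h : R.Sides T1 T2 b s w) (hb : R.green b) {u v : V} (huv : R.le u v)
    (hu : ¬ R.le u b) : (w (some u) ↔ w (some v)) ∧ ¬ T1.Anc v b ∧ ¬ T2.Anc v b :=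
  ⟨h.persist hb huv (fun _ x _ => ⟨fun y => hu (x.trans y.le), fun y => hu (x.trans y.le)⟩),
    fun y => hu (huv.trans y.le), fun y => hu (huv.trans y.le)⟩

end Sides

/-! ### The west lemma -/

theorem west_aux {T : R.Tree} (hT : T.IsLeft) {b : V} (hb : R.green b) (n : ℕ) :
    ∀ q l a c, (R.τ b - R.τ (R.hd q)) + (R.τ b - R.τ (R.hd l)) ≤ n → R.lt q l → T.On b l →
      R.src l = some c → R.src q = some a → R.green a → R.le (R.hd q) b → False := by
  induction n using Nat.strong_induction_on with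
  | _ n ih =>
    intro q l a c hn hlt hl hc ha hag hq
    have t1 := hq.τ_le
    have t2 := hl.le.τ_le
    rcases lt_trichotomy (R.τ (R.hd q)) (R.τ (R.hd l)) with h | h | h
    · rcases hq.cases_head with h1 | ⟨q', h1, h2⟩
      · rw [h1] at h; omega
      · have t3 := R.τ_lt _ _ h1
        have t4 := h2.τ_le
        exact ih (n - 1) (by omega) q' l _ c (by omega) (R.up1 q l q' hlt h h1) hl hc h1
          (gsrc_of_some ha hag).green_hd h2
    · have h1 := R.τ_inj h
      have h2 := (R.lt_in q l a c ha hc h1).1 hlt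
      have h3 := hT q (gsrc_of_some ha hag)
      rw [h1, hl.1] at h3
      omega
    · obtain ⟨l', h1, h2⟩ := hl.2.exists_out hb (by intro h1; rw [h1] at h; omega)
      have t3 := R.τ_lt _ _ h2
      have t4 := h1.le.τ_le
      exact ih (n - 1) (by omega) q l' a _ (by omega) (R.up2 q l l' hlt h h2) h1 h2 ha hag hq

/-- No path to `b` leaves the leftmost path to the left. -/
theorem west {T : R.Tree} (hT : T.IsLeft) {b v : V} (hb : R.green b) {f e : E} (hf : T.On b f)
    (h1 : R.src f = some v) (h2 : R.src e = some v) (h3 : R.le (R.hd e) b) :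
    R.ork f ≤ R.ork e := by
  by_contra hc
  exact west_aux hT hb _ e f v v (Int.self_le_toNat _)
    ((R.lt_out e f v h2 h1).2 (by omega)) hf h1 h2 (hf.gsrc hb v h1) h3

end RS

end Pool.Agent.MP_a17da5_co
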