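import Pool.Agent.MP_a17da5_co.Core

/-!
Reachability towards green vertices of a rooted structure is decided by boundedly many orders.
-/

set_option autoImplicit false

namespace Pool.Agent.MP_a17da5_co

theorem Dec.false {V : Type} (N : ℕ) : Dec N (fun _ _ : V => False) :=
  ⟨fun _ _ => 0, fun _ _ _ _ _ _ _ h => h⟩

namespace RS

variable {V E : Type} [Fintype V] [Fintype E] {R : RS V E}

/-- A red path from `a` hits the tree path to `b` from the left. -/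
def Tree.Hit (T : R.Tree) (a b : V) : Prop :=
  R.green b ∧ ∃ e v, R.src e = some v ∧ ¬ R.green v ∧ R.le a v ∧ T.Anc (R.hd e) b ∧
    R.irk e < R.irk (T.par (R.hd e))

end RS

section Direct

variable {V E : Type} [Fintype E] {R : RS V E} [Fintype {e // R.red e}]
  {R' : RS V {e // R.red e}}

theorem ext_adj (h1 : ∀ e, R.green (R.hd e.1) → R'.src e = none)
    (h2 : ∀ e, ¬ R.green (R.hd e.1) → R'.src e = some (R.hd e.1))
    (h3 : ∀ e, R.src e.1 = some (R'.hd e)) (a b : V) :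
    R'.adj a b ↔ ¬ R.green a ∧ R.adj b a := by
  constructor
  · rintro ⟨e, x1, rfl⟩
    by_cases hg : R.green (R.hd e.1)
    · rw [h1 e hg] at x1; cases x1
    · rw [h2 e hg] at x1
      cases x1
      exact ⟨hg, e.1, h3 e, rfl⟩
  · rintro ⟨x1, e, x2, rfl⟩
    have hr : R.red e := ⟨b, x2, fun hb => x1 (hb.le (RS.le_hd x2))⟩
    exact ⟨⟨e, hr⟩, h2 ⟨e, hr⟩ x1, Option.some_injective _ ((h3 ⟨e, hr⟩).symm.trans x2)⟩

theorem ext_le (h1 : ∀ e, R.green (R.hd e.1) → R'.src e = none)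
    (h2 : ∀ e, ¬ R.green (R.hd e.1) → R'.src e = some (R.hd e.1))
    (h3 : ∀ e, R.src e.1 = some (R'.hd e)) {a b : V} (ha : ¬ R.green a) :
    R'.le a b ↔ R.le b a := by
  constructor
  · intro h
    induction h with
    | refl => exact R.le_refl _
    | tail _ x2 ih =>
      exact RS.le.trans (Relation.ReflTransGen.single ((ext_adj h1 h2 h3 _ _).1 x2).2) ih
  · intro h
    induction h using Relation.ReflTransGen.head_induction_on with
    | refl => exact R'.le_refl _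
    | head x1 x2 ih =>
      exact Relation.ReflTransGen.tail ih
        ((ext_adj h1 h2 h3 _ _).2 ⟨fun hg => ha (hg.le x2), x1⟩)

theorem ext_red (h3 : ∀ e, R.src e.1 = some (R'.hd e)) (e : {e // R.red e}) :
    ¬ R.green (R'.hd e) := by
  obtain ⟨v, x1, x2⟩ := e.2
  rwa [Option.some_injective _ ((h3 e).symm.trans x1)]

end Direct

def DirectStmt : Prop :=
  ∃ N : ℕ, ∀ (V E : Type) [Fintype V] [Fintype E] (R : RS V E) (T : R.Tree), Dec N T.Hit

theorem direct (hline : LineStmt) (hext : ExtStmt) : DirectStmt := by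
  obtain ⟨N, hN⟩ := hline
  refine ⟨3 + (3 + (N + N)), fun V E _ _ R T => ?_⟩
  classical
  obtain ⟨R', r, p, h1, h2, h3, h4, h5, h6, h7⟩ := hext V E R T
  have hle := fun {a b : V} => ext_le (a := a) (b := b) h1 h2 h3
  have hred := ext_red h3
  have hsrc : ∀ c, R'.src c = none ↔ R.green (R.hd c.1) := by
    intro c
    refine ⟨fun h => ?_, h1 c⟩
    by_contra hc
    rw [h2 c hc] at h
    cases h
  rcases isEmpty_or_nonempty {e // R.red e} with hE | hE
  · refine (Dec.false _).congr (fun a b _ => ⟨False.elim, ?_⟩)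
    rintro ⟨_, e, v, x1, x2, -⟩
    exact hE.elim ⟨e, v, x1, x2⟩
  obtain ⟨lam, rho, h, lam', rho', h', S1, S2, hcov⟩ := R'.exists_sys2
  have line : ∀ lam rho h, R'.Sys lam rho h → BDec N
      (fun (a : {a // R'.green a}) (b : {b // R.green b}) => ∃ c : {c // R'.src c = none},
        R'.le (R'.hd c.1) a.1 ∧ R'.ork (lam a).1 ≤ R'.ork c.1 ∧ R'.ork c.1 ≤ R'.ork (rho a).1 ∧
          R'.ork c.1 < p b.1 ∧ p b.1 ≤ r c.1) := by
    intro lam rho h S
    exact hN {a // R'.green a} {b // R.green b} {c // R'.src c = none} (fun c => R'.ork c.1)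
      (fun c => r c.1) (fun b => p b.1) (fun a c => R'.le (R'.hd c.1) a.1) lam rho h
      (fun c c' x => Subtype.ext (R'.ork_inj _ _ (c.2.trans c'.2.symm) x))
      (fun b c => h4 b.1 c.1 b.2 c.2) (fun c => h5 c.1 c.2)
      (fun c c' => h6 c.1 c'.1 c.2 c'.2) S.lam_le S.rho_le S.lam_rho S.nest S.sep
      (fun c => ⟨⟨R'.hd c.1, c.1, c.2, R'.le_refl _⟩, R'.le_refl _⟩)
  have hdisj : ∀ v, R'.green v → ¬ R.green v := by
    rintro v ⟨c, _, x2⟩ hv
    exact hred c (hv.le ((hle (hred c)).1 x2))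
  refine (((line _ _ _ S1).or (line _ _ _ S2)).toDec R'.green R.green hdisj).congr
    (fun a b _ => ⟨?_, ?_⟩)
  · rintro ⟨ha, hb, x⟩
    obtain ⟨c, x1, x2, x3⟩ : ∃ c : {c // R'.src c = none}, R'.le (R'.hd c.1) a ∧
        R'.ork c.1 < p b ∧ p b ≤ r c.1 := by
      rcases x with ⟨c, x1, -, -, x2⟩ | ⟨c, x1, -, -, x2⟩ <;> exact ⟨c, x1, x2⟩
    obtain ⟨y1, y2⟩ := (h7 b c.1 hb c.2).1 ⟨x2, x3⟩
    exact ⟨hb, c.1.1, _, h3 c.1, hred c.1, (hle (hred c.1)).1 x1, y2, y1⟩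
  · rintro ⟨hb, e, v, x1, x2, x3, x4, x5⟩
    let c : {e // R.red e} := ⟨e, v, x1, x2⟩
    have hc : R'.src c = none := h1 c (x4.green hb)
    have hv : R'.hd c = v := Option.some_injective _ ((h3 c).symm.trans x1)
    have y1 : R'.le (R'.hd c) a := (hle (hred c)).2 (hv ▸ x3)
    have ha : R'.green a := ⟨c, hc, y1⟩
    obtain ⟨y2, y3⟩ := (h7 b c hb hc).2 ⟨x5, x4⟩
    refine ⟨ha, hb, ?_⟩
    rcases hcov ⟨a, ha⟩ ⟨c, hc⟩ y1 with y | y
    · exact Or.inl ⟨⟨c, hc⟩, y1, y.1, y.2, y2, y3⟩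
    · exact Or.inr ⟨⟨c, hc⟩, y1, y.1, y.2, y2, y3⟩

namespace RS

variable {V E : Type} [Fintype V] [Fintype E] {R : RS V E}

omit [Fintype V] in
theorem first_green {a b : V} (h : R.le a b) (hb : R.green b) : R.green a ∨
    ∃ e v, R.src e = some v ∧ ¬ R.green v ∧ R.le a v ∧ R.green (R.hd e) ∧ R.le (R.hd e) b := by
  induction h using Relation.ReflTransGen.head_induction_on with
  | refl => exact Or.inl hb
  | @head a c x1 x2 ih =>
    by_cases ha : R.green a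
    · exact Or.inl ha
    obtain ⟨e, y1, rfl⟩ := x1
    rcases ih with ih | ⟨e', v, z1, z2, z3, z4⟩
    · exact Or.inr ⟨e, a, y1, ha, R.le_refl _, ih, x2⟩
    · exact Or.inr ⟨e', v, z1, z2, (le_hd y1).trans z3, z4⟩

theorem Tree.Hit.le {T : R.Tree} {a b : V} (h : T.Hit a b) : R.le a b := by
  obtain ⟨_, e, v, x1, _, x3, x4, _⟩ := h
  exact x3.trans ((le_hd x1).trans x4.le)

theorem half {N : ℕ} {L W : R.Tree} (hL : L.IsLeft) (hW : W.IsLex) (d1 : Dec N L.Hit)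
    (d2 : Dec N W.mirror.Hit) : ∃ H : V → V → Prop,
      Dec (3 + (3 + (1 + (1 + 1))) + (N + N)) H ∧ (∀ a b, H a b → R.green b ∧ R.le a b) ∧
      ∀ b lam k c, R.green b → L.On b lam → R.src lam = none → R.src k = none →
        R.ork lam ≤ R.ork k → R.le (R.hd k) c → R.le c b →
        H c b ∧ ∀ a e v, R.src e = some v → ¬ R.green v → R.le a v → R.hd e = c → H a b := by
  have e0 : ∀ a, ∃ c, (R.green a → c = a) ∧ ((∃ g, R.green g ∧ R.le a g) → R.green c ∧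
      (c = a ∨ ∃ e v, R.src e = some v ∧ ¬ R.green v ∧ R.le a v ∧ R.hd e = c)) := by
    intro a
    by_cases ha : R.green a
    · exact ⟨a, fun _ => rfl, fun _ => ⟨ha, Or.inl rfl⟩⟩
    by_cases hg : ∃ g, R.green g ∧ R.le a g
    · obtain ⟨g, x1, x2⟩ := hg
      obtain ⟨e, v, y1, y2, y3, y4, -⟩ := (first_green x2 x1).resolve_left ha
      exact ⟨R.hd e, fun h => absurd h ha, fun _ => ⟨y4, Or.inr ⟨e, v, y1, y2, y3, rfl⟩⟩⟩
    · exact ⟨a, fun _ => rfl, fun h => absurd h hg⟩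
  choose c0 hc0 hc0' using e0
  have e1 : ∀ a, ∃ m, (∃ g, R.green g ∧ R.le a g) → (R.green m ∧ R.le a m) ∧
      ∀ g, R.green g ∧ R.le a g → L.post m ≤ L.post g := by
    intro a
    by_cases hg : ∃ g, R.green g ∧ R.le a g
    · obtain ⟨m, x⟩ := Set.exists_min_image {g | R.green g ∧ R.le a g} L.post (Set.toFinite _) hg
      exact ⟨m, fun _ => x⟩
    · exact ⟨a, fun h => absurd h hg⟩
  choose m hm using e1
  have hc0le : ∀ a, (∃ g, R.green g ∧ R.le a g) → R.le a (c0 a) := by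
    intro a ha
    rcases (hc0' a ha).2 with x | ⟨e, v, x1, _, x3, x4⟩
    · rw [x]; exact R.le_refl _
    · exact x3.trans (x4 ▸ le_hd x1)
  let I : V → V → Prop := fun a b => R.green b ∧ (∃ g, R.green g ∧ R.le a g) ∧
    L.post (c0 b) ≤ L.post (c0 a) ∧ W.pre (c0 a) ≤ W.pre (c0 b) ∧ L.post (m a) ≤ L.post (m b)
  have dI : Dec (3 + (3 + (1 + (1 + 1)))) I :=
    (Dec.right R.green).and ((Dec.left (fun a => ∃ g, R.green g ∧ R.le a g)).and
      ((Dec.le (fun v => L.post (c0 v))).flip.and ((Dec.le (fun v => W.pre (c0 v))).and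
        (Dec.le (fun v => L.post (m v))))))
  refine ⟨fun a b => I a b ∨ (L.Hit a b ∨ W.mirror.Hit a b), dI.or (d1.or d2), ?_, ?_⟩
  · rintro a b (⟨hb, ha, x1, x2, x3⟩ | x | x)
    · refine ⟨hb, ?_⟩
      by_contra hn
      obtain ⟨s, w, hs⟩ := exists_sides L W hb
      have hr : Reg L W b s w := ⟨hL, hW, hb, hs⟩
      rw [hc0 b hb] at x1 x2
      have y1 := hr.cl_of_tests (hc0' a ha).1 x1 x2
      obtain ⟨y2, y3, y4⟩ := hs.trap hb (hc0le a ha) hn
      have y5 : w (some a) := y2.2 ((y1.resolve_left y3).resolve_left y4)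
      obtain ⟨⟨z1, z2⟩, -⟩ := hm a ha
      have z3 := hr.post_lt z1 (fun h => hn (h ▸ z2))
        (Or.inr (Or.inr ((hs.trap hb z2 hn).1.1 y5)))
      have z4 := (hm b ⟨b, hb, R.le_refl b⟩).2 b ⟨hb, R.le_refl b⟩
      exact absurd (x3.trans z4) (not_le.2 z3)
    · exact ⟨x.1, x.le⟩
    · exact ⟨x.1, x.le⟩
  · intro b lam k c hb x1 x2 x3 x4 x5 x6
    obtain ⟨s, w, hs⟩ := exists_sides L W hb
    have hr : Reg L W b s w := ⟨hL, hW, hb, hs⟩
    have hcl := hr.cl_of_exit x1 x2 x3 x4 x5 x6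
    have hcg : R.green c := ⟨k, x3, x5⟩
    have tests : ∀ a, R.le a b → Reg.Cl L W b w (c0 a) → I a b := by
      intro a y1 y2
      have ha : ∃ g, R.green g ∧ R.le a g := ⟨b, hb, y1⟩
      have y3 := (hc0' a ha).1
      obtain ⟨⟨z1, z2⟩, -⟩ := hm b ⟨b, hb, R.le_refl b⟩
      refine ⟨hb, ha, ?_, ?_, (hm a ha).2 _ ⟨z1, y1.trans z2⟩⟩
      · rw [hc0 b hb]; exact hr.post_le y3 y2
      · rw [hc0 b hb]; exact hr.pre_le y3 y2
    refine ⟨Or.inl (tests c x6 (by rw [hc0 c hcg]; exact hcl)), ?_⟩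
    rintro a e v y1 y2 y3 rfl
    have hab : R.le a b := y3.trans ((le_hd y1).trans x6)
    have nred : ∀ {u t : V}, ¬ R.green u → R.le t u → ¬ L.Anc t b ∧ ¬ W.Anc t b :=
      fun z1 z2 => ⟨fun z => z1 ((z.green hb).le z2), fun z => z1 ((z.green hb).le z2)⟩
    have side : ∀ e v, R.src e = some v → ¬ R.green v → R.le a v → (s e ↔ w (some a)) := by
      intro e v z1 z2 z3
      rw [hs.s_src hb z1 (nred z2 (R.le_refl _)).1 (nred z2 (R.le_refl _)).2,
        hs.persist hb z3 (fun t _ z => nred z2 z)]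
    by_cases hse : s e
    · refine Or.inl (tests a hab ?_)
      obtain ⟨z0, z | ⟨e', v', z1, z2, z3, z4⟩⟩ := hc0' a ⟨b, hb, hab⟩
      · exact absurd ((z ▸ z0).le y3) y2
      · rw [← z4]
        by_contra hc
        have z5 := (side e' v' z1 z2 z3).2 ((side e v y1 y2 y3).1 hse)
        rw [hs.s_hd (fun z => hc (Or.inl z)) (fun z => hc (Or.inr (Or.inl z)))] at z5
        exact hc (Or.inr (Or.inr z5))
    · have z1 : L.Anc (R.hd e) b ∨ W.Anc (R.hd e) b := by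
        by_contra hc
        push Not at hc
        rw [hs.s_hd hc.1 hc.2] at hse
        exact hse ((hcl.resolve_left hc.1).resolve_left hc.2)
      rcases hr.class_in z1 hse (fun z => y2 (z v y1)) with z | z
      · exact Or.inr (Or.inl ⟨hb, e, v, y1, y2, y3, z.1, z.2⟩)
      · exact Or.inr (Or.inr ⟨hb, e, v, y1, y2, y3, z.1, neg_lt_neg z.2⟩)

end RS

def RSStmt : Prop :=
  ∃ N : ℕ, ∀ (V E : Type) [Fintype V] [Fintype E] (R : RS V E),
    Dec N (fun a b => R.green b ∧ R.le a b)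

theorem rs_of_direct (hd : DirectStmt) : RSStmt := by
  obtain ⟨N, hN⟩ := hd
  refine ⟨(3 + (3 + (1 + (1 + 1))) + (N + N)) + (3 + (3 + (1 + (1 + 1))) + (N + N)),
    fun V E _ _ R => ?_⟩
  rcases isEmpty_or_nonempty E with hE | hE
  · refine (Dec.false _).congr (fun a b _ => ⟨False.elim, ?_⟩)
    rintro ⟨⟨e, -⟩, -⟩
    exact hE.elim e
  obtain ⟨L, hL⟩ := R.exists_left
  obtain ⟨W, hW⟩ := R.exists_lex
  obtain ⟨L', hL'⟩ := R.mirror.exists_left
  obtain ⟨W', hW'⟩ := R.mirror.exists_lex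
  obtain ⟨H, d, s1, c1⟩ := RS.half hL hW (hN _ _ _ _) (hN _ _ _ _)
  obtain ⟨H', d', s2, c2⟩ := RS.half hL' hW' (hN _ _ _ _) (hN _ _ _ _)
  refine (d.or d').congr (fun a b _ => ⟨fun h => h.elim (s1 a b) (s2 a b), ?_⟩)
  rintro ⟨hb, hab⟩
  obtain ⟨lam, x1, x2⟩ := L.exists_root hb
  obtain ⟨lam', x3, x4⟩ := L'.exists_root hb
  have key : ∀ c, R.green c → R.le c b →
      (H c b ∧ ∀ a e v, R.src e = some v → ¬ R.green v → R.le a v → R.hd e = c → H a b) ∨
      (H' c b ∧ ∀ a e v, R.src e = some v → ¬ R.green v → R.le a v → R.hd e = c → H' a b) := by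
    rintro c ⟨k, y1, y2⟩ y3
    by_cases z1 : R.ork lam ≤ R.ork k
    · exact Or.inl (c1 b lam k c hb x1 x2 y1 z1 y2 y3)
    · by_cases z2 : R.ork k ≤ R.ork lam'
      · exact Or.inr (c2 b lam' k c hb x3 x4 y1 (neg_le_neg z2) y2 y3)
      · exact (RS.core (R := R) (L' := ⟨L'.par, L'.hd_par, L'.gsrc_par⟩) hL hL' hb x1 x2 x3 x4 y1
          (not_le.1 z2) (not_le.1 z1) (y2.trans y3)).elim
  rcases RS.first_green hab hb with ha | ⟨e, v, y1, y2, y3, y4, y5⟩
  · exact (key a ha hab).imp (·.1) (·.1)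
  · exact (key _ y4 y5).imp (fun h => h.2 a e v y1 y2 y3 rfl) (fun h => h.2 a e v y1 y2 y3 rfl)

end Pool.Agent.MP_a17da5_co
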