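import Pool.Agent.MP_a17da5_co.Dec

/-!
Unfolding a finite acyclic relation into layers.
-/

set_option autoImplicit false

namespace Pool.Agent.MP_a17da5_co

namespace Layers

variable {V : Type}

/-- The relation used at step `i`: alternately `A` and its converse. -/
def rel (A : V → V → Prop) : ℕ → V → V → Prop
  | 0 => A
  | i + 1 => flip (rel A i)

/-- The blob after `i` unfolding steps from `x₀`. -/
def blob (A : V → V → Prop) (x₀ : V) : ℕ → Set V
  | 0 => {x₀}
  | i + 1 => {v | ∃ k ∈ blob A x₀ i, Relation.ReflTransGen (rel A i) k v}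

theorem rel_even (A : V → V → Prop) (t : ℕ) : rel A (2 * t) = A := by
  induction t with
  | zero => rfl
  | succ t ih =>
    have : rel A (2 * (t + 1)) = flip (flip (rel A (2 * t))) := rfl
    rw [this, ih]
    rfl

theorem rel_odd (A : V → V → Prop) (t : ℕ) : rel A (2 * t + 1) = flip A := by
  have : rel A (2 * t + 1) = flip (rel A (2 * t)) := rfl
  rw [this, rel_even]

theorem rtg_flip {A : V → V → Prop} {a b : V} :
    Relation.ReflTransGen (flip A) a b ↔ Relation.ReflTransGen A b a :=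
  Relation.reflTransGen_swap (r := A)

theorem blob_succ (A : V → V → Prop) (x₀ : V) (i : ℕ) : blob A x₀ i ⊆ blob A x₀ (i + 1) :=
  fun v hv => ⟨v, hv, Relation.ReflTransGen.refl⟩

theorem blob_mono (A : V → V → Prop) (x₀ : V) {i j : ℕ} (h : i ≤ j) :
    blob A x₀ i ⊆ blob A x₀ j := by
  induction h with
  | refl => exact subset_rfl
  | step _ ih => exact ih.trans (blob_succ A x₀ _)

theorem blob_up {A : V → V → Prop} {x₀ x y : V} {t : ℕ} (hx : x ∈ blob A x₀ (2 * t + 1))
    (h : Relation.ReflTransGen A x y) : y ∈ blob A x₀ (2 * t + 1) := by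
  obtain ⟨k, hk, hkx⟩ := hx
  refine ⟨k, hk, hkx.trans ?_⟩
  rw [rel_even]
  exact h

theorem blob_down {A : V → V → Prop} {x₀ x y : V} {t : ℕ} (hy : y ∈ blob A x₀ (2 * t + 1 + 1))
    (h : Relation.ReflTransGen A x y) : x ∈ blob A x₀ (2 * t + 1 + 1) := by
  obtain ⟨k, hk, hky⟩ := hy
  refine ⟨k, hk, hky.trans ?_⟩
  rw [rel_odd]
  exact rtg_flip.2 h

theorem blob_down' {A : V → V → Prop} {x₀ x y : V} (hs : ∀ a, ¬ A a x₀) {t : ℕ}
    (hy : y ∈ blob A x₀ (2 * t)) (h : Relation.ReflTransGen A x y) : x ∈ blob A x₀ (2 * t) := by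
  cases t with
  | zero =>
    have hy' : y = x₀ := hy
    subst hy'
    rcases h.cases_tail with h | ⟨c, -, hc⟩
    · exact h.symm
    · exact absurd hc (hs c)
  | succ t => exact blob_down (t := t) hy h

/-- `x₀` is a source whose unfolding reaches `v`. -/
def Conn (A : V → V → Prop) (v x₀ : V) : Prop := (∀ a, ¬ A a x₀) ∧ ∃ i, v ∈ blob A x₀ i

theorem conn_congr {A : V → V → Prop} {x y : V} (h : Relation.ReflTransGen A x y) :
    Conn A x = Conn A y := by
  funext x₀
  refine propext ⟨?_, ?_⟩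
  · rintro ⟨hs, i, hi⟩
    exact ⟨hs, 2 * i + 1, blob_up (blob_mono A x₀ (by omega) hi) h⟩
  · rintro ⟨hs, i, hi⟩
    exact ⟨hs, 2 * i, blob_down' hs (blob_mono A x₀ (by omega) hi) h⟩

theorem exists_conn [Fintype V] {A : V → V → Prop} {τ : V → ℤ} (hτ : ∀ a b, A a b → τ a < τ b)
    (v : V) : ∃ x₀, Conn A v x₀ := by
  classical
  obtain ⟨x₀, hx, hmin⟩ := Finset.exists_min_image
    (Finset.univ.filter (fun u => Relation.ReflTransGen A u v)) τ
    ⟨v, by simp [Relation.ReflTransGen.refl]⟩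
  simp only [Finset.mem_filter, Finset.mem_univ, true_and] at hx hmin
  refine ⟨x₀, fun a ha => ?_, 1, x₀, rfl, hx⟩
  have h1 := hmin a (Relation.ReflTransGen.head ha hx)
  have h2 := hτ a x₀ ha
  omega

theorem exists_root [Fintype V] {A : V → V → Prop} {τ : V → ℤ} (hτ : ∀ a b, A a b → τ a < τ b) :
    ∃ (root : V → V) (lev : V → ℕ), (∀ v a, ¬ A a (root v)) ∧
      (∀ x y, Relation.ReflTransGen A x y → root x = root y) ∧
      (∀ v i, v ∈ blob A (root v) i ↔ lev v ≤ i) := by
  classical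
  let root : V → V := fun v => @Classical.epsilon V ⟨v⟩ (Conn A v)
  have hroot : ∀ v, Conn A v (root v) := fun v => Classical.epsilon_spec (exists_conn hτ v)
  refine ⟨root, fun v => Nat.find (hroot v).2, fun v => (hroot v).1, fun x y h => ?_,
    fun v i => ⟨fun h => Nat.find_min' _ h, fun h => blob_mono A _ h (Nat.find_spec (hroot v).2)⟩⟩
  simp only [root, conn_congr h]

end Layers

open Layers in
theorem layers : LayersStmt := by
  intro N
  refine ⟨4 ^ N * (1 + (N + 3)) + (4 ^ N * (1 + (N + 3)) + (3 + (3 + 1))), ?_⟩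
  intro V _ A τ hτ Good h0 hstep hdec
  obtain ⟨root, lev, hsrc, hroot, hlev⟩ := exists_root hτ
  have hgood : ∀ x₀, (∀ a, ¬ A a x₀) → ∀ i, Good (rel A i) (blob A x₀ i) := by
    intro x₀ hs i
    induction i with
    | zero => exact h0 x₀ hs
    | succ i ih => exact hstep _ _ ih
  let R : V → ℕ → V → V → Prop := fun x₀ i a b => (∀ a, ¬ A a x₀) ∧
    (a ∉ blob A x₀ i ∧ b ∈ blob A x₀ (i + 1) ∧ b ∉ blob A x₀ i ∧
      Relation.ReflTransGen (rel A i) a b)
  have hR : ∀ x₀ i, Dec N (R x₀ i) := by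
    intro x₀ i
    by_cases hs : ∀ a, ¬ A a x₀
    · exact (hdec _ _ (hgood x₀ hs i)).congr (fun x y _ => ⟨fun h => ⟨hs, h⟩, fun h => h.2⟩)
    · exact ⟨fun _ _ => 0, fun x y x' y' _ _ _ h => absurd h.1 hs⟩
  have h1 := Dec.block (fun v => (root v, (lev v + 1) / 2))
    (R := fun q x y => R q.1 (2 * (q.2 - 1)) x y) (fun q => hR _ _)
  have h2 := Dec.block (fun v => (root v, lev v / 2))
    (R := fun q x y => R q.1 (2 * (q.2 - 1) + 1) y x) (fun q => (hR _ _).flip)
  have h3 := (Dec.left (fun v => lev v = 0)).and ((Dec.right (fun v => lev v = 1)).and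
    (Dec.eq root))
  refine (h1.or (h2.or h3)).congr (fun x y hxy => ⟨?_, ?_⟩)
  · rintro (⟨-, -, -, -, -, h⟩ | ⟨-, -, -, -, -, h⟩ | ⟨hx, hy, hr⟩)
    · rwa [rel_even] at h
    · rw [rel_odd] at h
      exact rtg_flip.1 h
    · have a1 : x = root x := (hlev x 0).2 hx.le
      obtain ⟨k, hk, hky⟩ := (hlev y 1).2 hy.le
      have a2 : k = root y := hk
      rw [a1, hr, ← a2]
      exact hky
  · intro h
    have hr := hroot x y h
    have hly : ∀ i, y ∈ blob A (root x) i ↔ lev y ≤ i := fun i => by rw [hr]; exact hlev y i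
    have hup : ∀ t, lev x ≤ 2 * t + 1 → lev y ≤ 2 * t + 1 := fun t ht =>
      (hly _).1 (blob_up ((hlev x _).2 ht) h)
    have hdown : ∀ t, lev y ≤ 2 * t → lev x ≤ 2 * t := fun t ht =>
      (hlev x _).1 (blob_down' (hsrc x) ((hly _).2 ht) h)
    have hy0 : lev y ≠ 0 := by
      intro hy
      have a1 : y = root x := (hly 0).2 hy.le
      have a2 : x = root x := (hlev x 0).2 (hdown 0 hy.le)
      exact hxy (a2.trans a1.symm)
    by_cases hx0 : lev x = 0
    · have := hup 0 (by omega)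
      exact Or.inr (Or.inr ⟨hx0, by omega, hr⟩)
    obtain ⟨t, ht⟩ : ∃ t, lev x = 2 * t + 1 ∨ lev x = 2 * t + 2 := ⟨(lev x - 1) / 2, by omega⟩
    have b1 : 2 * t + 1 ≤ lev y := by
      by_contra hc
      have := hdown t (by omega)
      omega
    by_cases hj : lev y = 2 * t + 1
    · refine Or.inl ⟨Prod.ext hr (by simp only; omega), hsrc x, ?_⟩
      have e : (lev x + 1) / 2 - 1 = t := by omega
      simp only [e, hlev, hly, rel_even]
      exact ⟨by omega, by omega, by omega, h⟩
    · have b2 : lev x = 2 * t + 2 := by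
        rcases ht with ht | ht
        · have := hup t ht.le
          omega
        · exact ht
      have b3 := hup (t + 1) (by omega)
      refine Or.inr (Or.inl ⟨Prod.ext hr (by simp only; omega), hsrc x, ?_⟩)
      have e : lev x / 2 - 1 = t := by omega
      simp only [e, hlev, hly, rel_odd]
      exact ⟨by omega, by omega, by omega, rtg_flip.2 h⟩

end Pool.Agent.MP_a17da5_co
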