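import Pool.Agent.MP_a17da5_co.Dec

/-!
The line lemma, deduced from the two arm lemmas.
-/

set_option autoImplicit false

namespace Pool.Agent.MP_a17da5_co

namespace LineAux

theorem exists_max {ι : Type} [Fintype ι] (P : ι → Prop) (v : ι → ℤ) (d : ℤ) :
    ∃ m, d ≤ m ∧ (∀ i, P i → v i ≤ m) ∧ (m = d ∨ ∃ i, P i ∧ v i = m) := by
  classical
  let s : Finset ℤ := insert d ((Finset.univ.filter P).image v)
  have hs : s.Nonempty := Finset.insert_nonempty _ _
  refine ⟨s.max' hs, Finset.le_max' _ _ (Finset.mem_insert_self _ _), fun i hi => ?_, ?_⟩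
  · exact Finset.le_max' _ _ (Finset.mem_insert_of_mem
      (Finset.mem_image.2 ⟨i, by simpa using hi, rfl⟩))
  · rcases Finset.mem_insert.1 (s.max'_mem hs) with h | h
    · exact Or.inl h
    · obtain ⟨i, hi, he⟩ := Finset.mem_image.1 h
      exact Or.inr ⟨i, by simpa using hi, he⟩

theorem exists_min {ι : Type} [Fintype ι] (P : ι → Prop) (v : ι → ℤ) (d : ℤ) :
    ∃ m, m ≤ d ∧ (∀ i, P i → m ≤ v i) ∧ (m = d ∨ ∃ i, P i ∧ v i = m) := by
  obtain ⟨m, h1, h2, h3⟩ := exists_max P (fun i => - v i) (-d)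
  refine ⟨-m, by omega, fun i hi => ?_, ?_⟩
  · have := h2 i hi
    omega
  · rcases h3 with h | ⟨i, hi, he⟩
    · left; omega
    · right; exact ⟨i, hi, by omega⟩

theorem exists_lb {ι κ : Type} [Fintype ι] [Fintype κ] (v : ι → ℤ) (w : κ → ℤ) :
    ∃ d, (∀ i, d < v i) ∧ ∀ j, d < w j := by
  obtain ⟨m, -, h2, -⟩ := exists_min (fun _ : ι ⊕ κ => True) (Sum.elim v w) 0
  refine ⟨m - 1, fun i => ?_, fun j => ?_⟩
  · have := h2 (Sum.inl i) trivial
    simp only [Sum.elim_inl] at this
    omega
  · have := h2 (Sum.inr j) trivial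
    simp only [Sum.elim_inr] at this
    omega

theorem exists_ub {ι κ : Type} [Fintype ι] [Fintype κ] (v : ι → ℤ) (w : κ → ℤ) :
    ∃ d, (∀ i, v i < d) ∧ ∀ j, w j < d := by
  obtain ⟨d, h1, h2⟩ := exists_lb (fun i => - v i) (fun j => - w j)
  refine ⟨-d, fun i => ?_, fun j => ?_⟩
  · have := h1 i
    omega
  · have := h2 j
    omega

theorem exists_scale (M : ℤ) (hM : 0 < M) : ∃ sc : ℤ → ℤ,
    (∀ u v, u < v → sc u + M ≤ sc v) ∧ ∀ u v, u ≤ v → sc u ≤ sc v := by
  refine ⟨fun u => M * u, fun u v h => ?_, fun u v h => ?_⟩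
  · have : u + 1 ≤ v := h
    show M * u + M ≤ M * v
    nlinarith
  · show M * u ≤ M * v
    nlinarith

theorem thr_ge {A B C : Type} [Fintype A] [Fintype B] [Fintype C] (P : A → C → Prop)
    (p : B → ℤ) (v : C → ℤ) : BDec 1 (fun a b => ∃ c, P a c ∧ p b ≤ v c) := by
  obtain ⟨d, hd, -⟩ := exists_lb p p
  choose m h1 h2 h3 using fun a => exists_max (P a) v d
  refine (BDec.ge m p).congr (fun a b => ⟨fun h => ?_, ?_⟩)
  · rcases h3 a with e | ⟨c, hc, e⟩
    · have := hd b
      omega
    · exact ⟨c, hc, by omega⟩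
  · rintro ⟨c, hc, h⟩
    exact le_trans h (h2 a c hc)

theorem thr_le {A B C : Type} [Fintype A] [Fintype B] [Fintype C] (P : A → C → Prop)
    (p : B → ℤ) (v : C → ℤ) : BDec 1 (fun a b => ∃ c, P a c ∧ v c ≤ p b) :=
  (thr_ge P (fun b => - p b) (fun c => - v c)).congr (fun _ _ =>
    ⟨fun ⟨c, h1, h2⟩ => ⟨c, h1, by omega⟩, fun ⟨c, h1, h2⟩ => ⟨c, h1, by omega⟩⟩)

/-- The data used by the two one-sided lemmas. -/
structure Good {A C : Type} (pos : C → ℤ) (Reach : A → C → Prop) (rho : A → C) (h : A → ℤ)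
    (f : C → ℤ) (g : A → ℤ) : Prop where
  inj : Function.Injective pos
  a1 : ∀ a c, Reach a c → h a ≤ f c
  a2 : ∀ a c, g a < pos c → pos c ≤ pos (rho a) → h a ≤ f c → Reach a c
  dd : ∀ a t c, g a < pos t → pos t ≤ pos c → pos c ≤ pos (rho a) → Reach a c → f t ≤ f c
  ee : ∀ a, ∃ t, g a ≤ pos t ∧ pos t ≤ g a + 1 ∧ h a ≤ f t
  rr : ∀ a, Reach a (rho a)
  h1 : ∀ a a' z, Reach a z → g a' < pos z → pos z ≤ pos (rho a') → ¬ Reach a' z →
    pos (rho a) ≤ pos (rho a') ∧ h a < h a'

theorem right (hQ : QStmt) : ∃ N : ℕ, ∀ (A B C : Type) [Fintype A] [Fintype B] [Fintype C]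
    (pos r : C → ℤ) (p : B → ℤ) (Reach : A → C → Prop) (rho : A → C) (h : A → ℤ)
    (f : C → ℤ) (g : A → ℤ), Good pos Reach rho h f g →
    (∀ b c, p b ≠ pos c) → (∀ c, pos c ≤ r c) →
    (∀ c c', pos c < pos c' → pos c' ≤ r c → r c' ≤ r c) →
    BDec N (fun a b => ∃ c, (Reach a c ∧ g a < pos c ∧ pos c ≤ pos (rho a)) ∧
      pos c < p b ∧ p b ≤ r c) := by
  obtain ⟨N, hN⟩ := hQ
  refine ⟨(1 + 1) + (1 + N), ?_⟩
  intro A B C _ _ _ pos r p Reach rho h f g G np hr lr
  obtain ⟨rk, rk1, rk2, rk3⟩ := exists_rank (fun a => - h a)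
  obtain ⟨sc, s1, s2⟩ := exists_scale ((Fintype.card A : ℤ) + 2) (by positivity)
  have hc0 : (0 : ℤ) ≤ Fintype.card A := by positivity
  obtain ⟨x, hx⟩ : ∃ x : A → ℤ, ∀ a, x a = sc (g a) + 1 + rk a := ⟨_, fun _ => rfl⟩
  obtain ⟨d0, d1, d2⟩ := exists_lb (fun c => sc (pos c)) x
  choose L L1 L2 L3 using fun c => exists_max
    (fun i : C ⊕ A => Sum.elim (fun y => pos y < pos c ∧ f c < f y)
      (fun a => x a < sc (pos c) ∧ f c < h a) i) (Sum.elim (fun y => sc (pos y)) x) d0
  have L2a : ∀ c y, pos y < pos c → f c < f y → sc (pos y) ≤ L c :=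
    fun c y u v => L2 c (Sum.inl y) ⟨u, v⟩
  have L2b : ∀ c a, x a < sc (pos c) → f c < h a → x a ≤ L c :=
    fun c a u v => L2 c (Sum.inr a) ⟨u, v⟩
  have L3' : ∀ c, L c = d0 ∨ (∃ y, pos y < pos c ∧ f c < f y ∧ sc (pos y) = L c) ∨
      ∃ a, x a < sc (pos c) ∧ f c < h a ∧ x a = L c := by
    intro c
    rcases L3 c with e | ⟨y | a, u, e⟩
    · exact Or.inl e
    · exact Or.inr (Or.inl ⟨y, u.1, u.2, e⟩)
    · exact Or.inr (Or.inr ⟨a, u.1, u.2, e⟩)
  have hB := hN A B C x (fun b => sc (p b)) (fun c => sc (pos c)) L (fun c => sc (r c) + 1)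
    (by
      intro c c' e
      apply G.inj
      have := s1 (pos c) (pos c')
      have := s1 (pos c') (pos c)
      simp only at e
      omega)
    (by
      intro c
      have := d1 c
      rcases L3' c with e | ⟨y, u, -, e⟩ | ⟨a, u, -, e⟩
      · omega
      · have := s1 _ _ u
        omega
      · omega)
    (by
      intro c
      have := s2 _ _ (hr c)
      omega)
    (by
      intro c c' u v
      have u' : pos c < pos c' := by
        have := s2 (pos c') (pos c)
        omega
      have hf : f c ≤ f c' := by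
        by_contra hf
        have := L2a c' c u' (by omega)
        omega
      rcases L3' c' with e | ⟨y, -, w, e⟩ | ⟨a, -, w, e⟩
      · have := L1 c
        omega
      · have := s2 (pos c) (pos y)
        have := L2a c y (by omega) (by omega)
        omega
      · have := L2b c a (by omega) (by omega)
        omega)
    (by
      intro c c' u v
      have := s2 (pos c') (pos c)
      have := s1 (r c) (pos c')
      have := s2 _ _ (lr c c' (by omega) (by omega))
      omega)
  have key : ∀ a c, pos c ≤ pos (rho a) →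
      ((Reach a c ∧ g a < pos c) ↔ (L c < x a ∧ x a ≤ sc (pos c))) := by
    intro a c hc
    have e0 := hx a
    have r2 := rk2 a
    have r3 := rk3 a
    constructor
    · rintro ⟨u, v⟩
      have := s1 _ _ v
      refine ⟨?_, by omega⟩
      have ha := G.a1 a c u
      rcases L3' c with e | ⟨y, w1, w2, e⟩ | ⟨a2, w1, w2, e⟩
      · have := d2 a
        omega
      · have := s2 (pos y) (g a)
        by_contra hcon
        have h5 : g a < pos y := by omega
        have := G.dd a y c h5 (by omega) hc u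
        omega
      · by_contra hcon
        have e2 := hx a2
        have r2' := rk2 a2
        have r3' := rk3 a2
        have h5 : g a ≤ g a2 := by
          have := s1 (g a2) (g a)
          omega
        have h6 : g a2 < pos c := by
          have := s2 (pos c) (g a2)
          omega
        rcases lt_or_eq_of_le h5 with h7 | h7
        · obtain ⟨t, t1, t2, t3⟩ := G.ee a2
          have := G.dd a t c (by omega) (by omega) hc u
          omega
        · have := (rk1 a2 a).2 (by omega)
          rw [h7] at e0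
          omega
    · rintro ⟨u, v⟩
      have h5 : g a < pos c := by
        have := s2 (pos c) (g a)
        omega
      refine ⟨?_, h5⟩
      by_contra hcon
      have h6 : f c < h a := by
        by_contra h6
        exact hcon (G.a2 a c h5 hc (by omega))
      have := s1 _ _ h5
      have := L2b c a (by omega) h6
      omega
  refine (((BDec.lt (fun a => pos (rho a)) p).and (thr_ge
    (fun a c => Reach a c ∧ g a < pos c ∧ pos c ≤ pos (rho a)) p r)).or
    ((BDec.ge (fun a => pos (rho a)) p).and hB)).congr (fun a b => ⟨?_, ?_⟩)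
  · rintro (⟨u, c, v, w⟩ | ⟨u, c, v1, v2, v3, v4⟩)
    · exact ⟨c, v, by omega, w⟩
    · have h5 : pos c ≤ p b := by
        have := s1 (p b) (pos c)
        omega
      have h6 := np b c
      have h7 : p b ≤ r c := by
        have := s1 (r c) (p b)
        omega
      have h8 := (key a c (by omega)).2 ⟨v1, v2⟩
      exact ⟨c, ⟨h8.1, h8.2, by omega⟩, by omega, h7⟩
  · rintro ⟨c, v, w1, w2⟩
    by_cases u : pos (rho a) < p b
    · exact Or.inl ⟨u, c, v, w2⟩
    · have h8 := (key a c v.2.2).1 ⟨v.1, v.2.1⟩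
      refine Or.inr ⟨by omega, c, h8.1, h8.2, s2 _ _ w1.le, ?_⟩
      have := s2 _ _ w2
      omega

theorem left (hP : PStmt) : ∃ N : ℕ, ∀ (A B C : Type) [Fintype A] [Fintype B] [Fintype C]
    (pos l : C → ℤ) (p : B → ℤ) (Reach : A → C → Prop) (rho : A → C) (h : A → ℤ)
    (f : C → ℤ) (g : A → ℤ), Good pos Reach rho h f g →
    (∀ b c, p b ≠ pos c) → (∀ c, l c ≤ pos c) →
    (∀ c c', pos c < pos c' → l c' ≤ pos c → l c' ≤ l c) →
    BDec N (fun a b => ∃ c, (Reach a c ∧ g a < pos c ∧ pos c ≤ pos (rho a)) ∧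
      p b < pos c ∧ l c ≤ p b) := by
  obtain ⟨N, hN⟩ := hP
  refine ⟨(1 + 1) + (1 + N), ?_⟩
  intro A B C _ _ _ pos l p Reach rho h f g G np hl ll
  obtain ⟨rk, rk1, rk2, rk3⟩ := exists_rank h
  obtain ⟨sc, s1, s2⟩ := exists_scale ((Fintype.card A : ℤ) + 2) (by positivity)
  have hc0 : (0 : ℤ) ≤ Fintype.card A := by positivity
  obtain ⟨y, hy⟩ : ∃ y : A → ℤ, ∀ a, y a = sc (pos (rho a)) + 1 + rk a := ⟨_, fun _ => rfl⟩
  obtain ⟨big, b1, b2⟩ := exists_ub (fun c => sc (pos c)) y
  obtain ⟨k0, k01, k02⟩ := exists_lb pos p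
  choose d d1 d2 d3 using fun z => exists_min
    (fun a => g a < pos z ∧ pos z ≤ pos (rho a) ∧ ¬ Reach a z) y big
  choose k k1 k2 k3 using fun z => exists_max (fun t => pos t < pos z ∧ f z < f t) pos k0
  have klt : ∀ z, k z < pos z := by
    intro z
    rcases k3 z with e | ⟨t, u, e⟩
    · have := k01 z
      omega
    · omega
  obtain ⟨J, hJ⟩ : ∃ J : C → ℤ, ∀ z, J z = sc (k z) + (Fintype.card A : ℤ) + 1 :=
    ⟨_, fun _ => rfl⟩
  have blk : ∀ a z, g a < pos z → pos z ≤ pos (rho a) → ¬ Reach a z → f z < h a ∧ g a ≤ k z := by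
    intro a z u v w
    have h6 : f z < h a := by
      by_contra h6
      exact w (G.a2 a z u v (by omega))
    refine ⟨h6, ?_⟩
    obtain ⟨t, t1, t2, t3⟩ := G.ee a
    have hne : pos t ≠ pos z := by
      intro e
      rw [G.inj e] at t3
      omega
    have := k2 z t ⟨by omega, by omega⟩
    omega
  have Jlt : ∀ u u', J u' < sc (pos u) → k u' < pos u := by
    intro u u' v
    have := hJ u'
    have := s2 (pos u) (k u')
    omega
  have fle : ∀ u u', pos u < pos u' → k u' < pos u → f u ≤ f u' := by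
    intro u u' v w
    by_contra hf
    have := k2 u' u ⟨v, by omega⟩
    omega
  have Jlam : ∀ u u', sc (pos u) < sc (pos u') → J u' < sc (pos u) → J u' ≤ J u := by
    intro u u' v w
    have v' : pos u < pos u' := by
      have := s2 (pos u') (pos u)
      omega
    have w' := Jlt u u' w
    have hf := fle u u' v' w'
    have hk : k u' ≤ k u := by
      rcases k3 u' with e | ⟨t, t1, e⟩
      · have := k1 u
        omega
      · have := k2 u t ⟨by omega, by omega⟩
        omega
    have := s2 _ _ hk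
    rw [hJ, hJ]
    omega
  have hB := hN A B C y (fun b => sc (p b)) (fun c => sc (pos c))
    (fun z => max (J z) (sc (l z) - 1)) J d
    (by
      intro c c' e
      apply G.inj
      have := s1 (pos c) (pos c')
      have := s1 (pos c') (pos c)
      simp only at e
      omega)
    (by
      intro z
      have := hJ z
      have := s1 _ _ (klt z)
      have := s2 _ _ (hl z)
      omega)
    (fun z => le_max_left _ _)
    (by
      intro z
      rcases d3 z with e | ⟨a, u, e⟩
      · have := b1 z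
        omega
      · have := hy a
        have := rk2 a
        have := s2 _ _ u.2.1
        omega)
    (by
      intro u u' v w
      have := Jlam u u' v (by omega)
      have := s2 (pos u') (pos u)
      have := s1 (pos u) (l u')
      have := s2 _ _ (ll u u' (by omega) (by omega))
      omega)
    Jlam
    (by
      rintro z z2 ⟨u, v, w⟩
      have e1 := hJ z
      have e2 := hJ z2
      have hk : k z < k z2 := by
        have := s2 (k z2) (k z)
        omega
      have := d1 z2
      rcases d3 z with e | ⟨a, ⟨a1, a2, a3⟩, e⟩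
      · omega
      obtain ⟨f1, g1⟩ := blk a z a1 a2 a3
      have e3 := hy a
      have := rk3 a
      have hk2 : k z2 < pos (rho a) := by
        have := s2 (pos (rho a)) (k z2)
        omega
      rcases k3 z2 with e4 | ⟨t, ⟨t1, t2⟩, e4⟩
      · have := k1 z
        omega
      by_cases c1 : pos (rho a) < pos z2
      · have := fle (rho a) z2 c1 hk2
        have := G.dd a t (rho a) (by omega) (by omega) le_rfl (G.rr a)
        omega
      · by_cases c2 : Reach a z2
        · have := G.dd a t z2 (by omega) (by omega) (by omega) c2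
          omega
        · have := d2 z2 a ⟨by omega, by omega, c2⟩
          omega)
    (by
      intro z z2 u v
      have v' : pos z < pos z2 := by
        have := s2 (pos z2) (pos z)
        omega
      have u' := Jlt z z2 u
      have hf := fle z z2 v' u'
      rcases d3 z2 with e | ⟨a, ⟨a1, a2, a3⟩, e⟩
      · have := d1 z
        omega
      · obtain ⟨f1, g1⟩ := blk a z2 a1 a2 a3
        have := d2 z a ⟨by omega, by omega, fun hR => by
          have := G.a1 a z hR
          omega⟩
        omega)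
  refine (((BDec.ge g p).and (thr_le
    (fun a c => Reach a c ∧ g a < pos c ∧ pos c ≤ pos (rho a)) p l)).or
    ((BDec.lt g p).and hB)).congr (fun a b => ⟨?_, ?_⟩)
  · rintro (⟨u, c, v, w⟩ | ⟨u, c, v1, v2, v3, v4⟩)
    · exact ⟨c, v, by omega, w⟩
    · have e3 := hy a
      have := rk3 a
      have h5 : p b ≤ pos c := by
        have := s1 (pos c) (p b)
        omega
      have h6 := np b c
      have h7 : l c ≤ p b := by
        have := s1 (p b) (l c)
        omega
      have h8 : pos c ≤ pos (rho a) := by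
        have := s1 (pos (rho a)) (pos c)
        omega
      refine ⟨c, ⟨?_, by omega, h8⟩, by omega, h7⟩
      by_contra hcon
      have := d2 c a ⟨by omega, h8, hcon⟩
      omega
  · rintro ⟨c, v, w1, w2⟩
    by_cases u : p b ≤ g a
    · exact Or.inl ⟨u, c, v, w2⟩
    · have e3 := hy a
      have := rk2 a
      refine Or.inr ⟨by omega, c, ?_, s2 _ _ w1.le, ?_, ?_⟩
      · have hk : k c < p b := by
          rcases k3 c with e | ⟨t, ⟨t1, t2⟩, e⟩
          · have := k02 b
            omega
          · by_contra hcon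
            have := G.dd a t c (by omega) (by omega) v.2.2 v.1
            omega
        have := s1 _ _ hk
        have := s2 _ _ w2
        have := hJ c
        omega
      · have := s2 _ _ v.2.2
        omega
      · rcases d3 c with e | ⟨a', ⟨a1, a2, a3⟩, e⟩
        · have := b2 a
          omega
        · obtain ⟨q1, q2⟩ := G.h1 a a' c v.1 a1 a2 a3
          have := s2 _ _ q1
          have := (rk1 a a').2 q2
          have := hy a'
          omega

theorem exists_g {A C : Type} [Fintype C] (pos : C → ℤ) (Reach : A → C → Prop)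
    (lam rho : A → C) (h : A → ℤ) (f : C → ℤ) (inj : Function.Injective pos)
    (hl : ∀ a, Reach a (lam a)) (hr : ∀ a, Reach a (rho a))
    (f1 : ∀ a c, Reach a c → h a ≤ f c) (f2 : ∀ c, ∃ a, Reach a c ∧ h a = f c)
    (h1 : ∀ a a' y, Reach a y → pos (lam a') ≤ pos y → pos y ≤ pos (rho a') → ¬ Reach a' y →
      pos (rho a) ≤ pos (rho a') ∧ h a < h a') :
    ∃ g : A → ℤ, Good pos Reach rho h f g ∧ (∀ a, pos (lam a) ≤ g a + 1) ∧
      ∀ a c, pos (lam a) ≤ pos c → pos c ≤ g a → ∃ z z2, pos c ≤ pos z ∧ pos z < pos z2 ∧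
        pos z2 ≤ pos (rho a) ∧ Reach a z ∧ Reach a z2 ∧ f z2 < f z := by
  choose g g1 g2 g3 using fun a => exists_max (fun z => pos (lam a) ≤ pos z ∧ Reach a z ∧
    ∃ z2, pos z < pos z2 ∧ pos z2 ≤ pos (rho a) ∧ Reach a z2 ∧ f z2 < f z) pos (pos (lam a) - 1)
  have a2 : ∀ a c, g a < pos c → pos c ≤ pos (rho a) → h a ≤ f c → Reach a c := by
    intro a c u v w
    by_contra hcon
    obtain ⟨a0, q1, q2⟩ := f2 c
    have := g1 a
    have := (h1 a0 a c q1 (by omega) v hcon).2
    omega
  refine ⟨g, ⟨inj, f1, a2, ?_, ?_, hr, ?_⟩, ?_, ?_⟩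
  · intro a t c u v w hR
    by_contra hcon
    have hne : pos t ≠ pos c := by
      intro e
      rw [inj e] at hcon
      omega
    have := g1 a
    have := f1 a c hR
    have := g2 a t ⟨by omega, a2 a t u (by omega) (by omega), c, by omega, w, hR, by omega⟩
    omega
  · intro a
    rcases g3 a with e | ⟨t, ⟨-, u, -⟩, e⟩
    · exact ⟨lam a, by omega, by omega, f1 a _ (hl a)⟩
    · exact ⟨t, by omega, by omega, f1 a t u⟩
  · intro a a' z u v w hn
    have := g1 a'
    exact h1 a a' z u (by omega) w hn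
  · intro a
    have := g1 a
    omega
  · intro a c u v
    rcases g3 a with e | ⟨z, ⟨-, q1, z2, q2, q3, q4, q5⟩, e⟩
    · omega
    · exact ⟨z, z2, by omega, q2, q3, q1, q4, q5⟩

end LineAux

open LineAux in
theorem linelemma : QStmt → PStmt → LineStmt := by
  intro hQ hP
  obtain ⟨N1, hR⟩ := LineAux.right hQ
  obtain ⟨N2, hL⟩ := LineAux.left hP
  refine ⟨N1 + N2, ?_⟩
  intro A B C _ _ _ pos r p Reach lam rho h inj np hr lr hlam hrho hlr h1 h2 h3
  have hf : ∀ c, ∃ m, (∀ a, Reach a c → h a ≤ m) ∧ ∃ a, Reach a c ∧ h a = m := by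
    intro c
    obtain ⟨a0, u⟩ := h3 c
    obtain ⟨m, m1, m2, m3⟩ := exists_max (fun a => Reach a c) h (h a0)
    refine ⟨m, m2, ?_⟩
    rcases m3 with e | e
    · exact ⟨a0, u, e.symm⟩
    · exact e
  choose f f1 f2 using hf
  have hB : ∀ a c1 c2 c3, pos (lam a) ≤ pos c1 → pos c1 < pos c2 → pos c2 < pos c3 →
      pos c3 ≤ pos (rho a) → Reach a c1 → Reach a c2 → Reach a c3 →
      f c2 ≤ f c1 ∨ f c2 ≤ f c3 := by
    intro a c1 c2 c3 u1 u2 u3 u4 v1 v2 v3
    obtain ⟨a', w, e⟩ := f2 c2
    by_cases hh : h a < h a'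
    · rcases h2 a a' c1 c2 c3 u1 u2 u3 u4 v1 v2 v3 w hh with q | q
      · have := f1 c1 a' q
        omega
      · have := f1 c3 a' q
        omega
    · have := f1 c1 a v1
      omega
  obtain ⟨g, G, g1, g2⟩ := exists_g pos Reach lam rho h f inj hlam hrho
    (fun a c => f1 c a) f2 (fun a a' y u v w x => (h1 a a' y u v w x).2)
  have inj' : Function.Injective (fun c => - pos c) := by
    intro c c' e
    apply inj
    simp only at e
    omega
  obtain ⟨g', G', g1', g2'⟩ := exists_g (fun c => - pos c) Reach rho lam h f inj' hrho hlam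
    (fun a c => f1 c a) f2 (fun a a' y u v w x => by
      have := h1 a a' y u (by omega) (by omega) x
      omega)
  have B1 := hR A B C pos r p Reach rho h f g G np hr lr
  have B2 := hL A B C (fun c => - pos c) (fun c => - r c) (fun b => - p b) Reach lam h f g' G'
    (fun b c => by
      have := np b c
      omega)
    (fun c => by
      have := hr c
      omega)
    (fun c c' u v => by
      have := lr c' c (by omega) (by omega)
      omega)
  refine (B1.or B2).congr (fun a b => ⟨?_, ?_⟩)
  · rintro (⟨c, ⟨u1, u2, u3⟩, v, w⟩ | ⟨c, ⟨u1, u2, u3⟩, v, w⟩)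
    · have := g1 a
      exact ⟨c, u1, by omega, u3, v, w⟩
    · have := g1' a
      exact ⟨c, u1, by omega, by omega, by omega, by omega⟩
  · rintro ⟨c, u1, u2, u3, v, w⟩
    by_cases c1 : g a < pos c
    · exact Or.inl ⟨c, ⟨u1, c1, u3⟩, v, w⟩
    by_cases c2 : g' a < - pos c
    · exact Or.inr ⟨c, ⟨u1, c2, by omega⟩, by omega, by omega⟩
    exfalso
    obtain ⟨z, z2, q1, q2, q3, q4, q5, q6⟩ := g2 a c u2 (by omega)
    obtain ⟨y, y2, p1, p2, p3, p4, p5, p6⟩ := g2' a c (by omega) (by omega)
    have := hB a y2 y z2 (by omega) (by omega) (by omega) q3 p5 p4 q5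
    have := hB a y2 z z2 (by omega) (by omega) q2 q3 p5 q4 q5
    omega

end Pool.Agent.MP_a17da5_co
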