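import Pool.Agent.MP_a17da5_co.TreeOrder

/-!
Laminar left blocks and semi-laminar right arms: the covering relation is decided by a bounded
number of threshold tests.
-/

set_option autoImplicit false

namespace Pool.Agent.MP_a17da5_co

namespace PLem

/-- `w` is the `pos`-minimal element of `S`, or `none` when `S` is empty. -/
def IsMinOpt {Z : Type} (pos : Z → ℤ) (S : Z → Prop) (w : Option Z) : Prop :=
  (∀ u, w = some u → S u) ∧ ∀ s, S s → ∃ u, w = some u ∧ pos u ≤ pos s

theorem IsMinOpt.unique {Z : Type} {pos : Z → ℤ} (hinj : Function.Injective pos) {S : Z → Prop}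
    {w w' : Option Z} (h : IsMinOpt pos S w) (h' : IsMinOpt pos S w') : w = w' := by
  cases w with
  | none =>
    cases w' with
    | none => rfl
    | some u' =>
      obtain ⟨u, hu, -⟩ := h.2 u' (h'.1 u' rfl)
      cases hu
  | some u =>
    obtain ⟨u', hu', h1⟩ := h'.2 u (h.1 u rfl)
    obtain ⟨u'', hu'', h2⟩ := h.2 u' (h'.1 u' hu')
    cases hu''
    rw [hu', hinj (le_antisymm h2 h1)]

theorem exists_minOpt {Z : Type} [Fintype Z] (pos : Z → ℤ) (S : Z → Prop) :
    ∃ w, IsMinOpt pos S w := by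
  classical
  by_cases h : ∃ z, S z
  · obtain ⟨z, hz⟩ := h
    obtain ⟨u, hu, hm⟩ := Finset.exists_min_image (Finset.univ.filter S) pos ⟨z, by simpa using hz⟩
    refine ⟨some u, fun v hv => ?_, fun s hs => ⟨u, rfl, hm s (by simpa using hs)⟩⟩
    cases hv
    simpa using hu
  · exact ⟨none, fun v hv => (by cases hv), fun s hs => absurd ⟨s, hs⟩ h⟩

/-- Lexicographic quadruples. -/
abbrev Q4 : Type := ℤ ×ₗ ℤ ×ₗ ℤ ×ₗ ℤ

def q4 (a b c d : ℤ) : Q4 := toLex (a, toLex (b, toLex (c, d)))

theorem q4_lt (a b c d a' b' c' d' : ℤ) : q4 a b c d < q4 a' b' c' d' ↔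
    a < a' ∨ (a = a' ∧ (b < b' ∨ (b = b' ∧ (c < c' ∨ (c = c' ∧ d < d'))))) := by
  simp only [q4, Prod.Lex.toLex_lt_toLex]

/-- Longest chain rank for a relation that increases an integer measure. -/
theorem exists_height {Z : Type} [Fintype Z] (s : Z → Z → Prop) (pos : Z → ℤ)
    (hs : ∀ z u, s z u → pos z < pos u) :
    ∃ r : Z → ℕ, (∀ z u, s z u → r u + 1 ≤ r z) ∧ ∀ z, r z = 0 ∨ ∃ u, s z u ∧ r z = r u + 1 := by
  classical
  have wf : WellFounded (fun u z => s z u) := by
    haveI : IsTrans Z (fun u z => pos z < pos u) := ⟨fun _ _ _ h1 h2 => lt_trans h2 h1⟩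
    haveI : Std.Irrefl (fun u z : Z => pos z < pos u) := ⟨fun _ => lt_irrefl _⟩
    exact Subrelation.wf (fun {u z} h' => hs z u h')
      (Finite.wellFounded_of_trans_of_irrefl (fun u z => pos z < pos u))
  let r : Z → ℕ := wf.fix (fun z ih => Finset.univ.sup
    (fun u => if h : s z u then ih u h + 1 else 0))
  have hr : ∀ z, r z = Finset.univ.sup (fun u => if s z u then r u + 1 else 0) := by
    intro z
    show wf.fix _ z = _
    rw [WellFounded.fix_eq]
    rfl
  refine ⟨r, fun z u h => ?_, fun z => ?_⟩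
  · rw [hr z]
    have := Finset.le_sup (f := fun u => if s z u then r u + 1 else 0) (Finset.mem_univ u)
    simpa [h] using this
  · obtain ⟨u, -, hu⟩ := Finset.exists_mem_eq_sup Finset.univ ⟨z, Finset.mem_univ z⟩
      (fun u => if s z u then r u + 1 else 0)
    rw [← hr z] at hu
    by_cases h : s z u
    · exact Or.inr ⟨u, h, by simpa [h] using hu⟩
    · exact Or.inl (by simpa [h] using hu)

/-- The statement for one colour class. -/
theorem core (A B Z : Type) [Fintype A] [Fintype B] [Fintype Z]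
    (y : A → ℤ) (p : B → ℤ) (pos n d : Z → ℤ) (hinj : Function.Injective pos)
    (hn : ∀ z, n z < pos z) (hd : ∀ z, pos z < d z)
    (H1 : ∀ u u', pos u < pos u' → n u' < pos u → n u' ≤ n u)
    (H4 : ∀ z z2, n z2 < pos z → pos z < pos z2 → d z ≤ d z2)
    (c1 : ∀ v u, pos v ≤ n u → n u < d v → d v ≤ pos u → False)
    (c2 : ∀ x z u, pos x < pos z → pos z < d x → d x < d z → pos z < pos u → pos u < d z →
      d z < d u → d x ≤ pos u → False) :
    BDec 3 (fun a b => ∃ z, n z < p b ∧ p b ≤ pos z ∧ pos z < y a ∧ y a < d z) := by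
  classical
  choose up hup using fun z => exists_minOpt pos (fun u => n u < pos z ∧ pos z < pos u)
  choose reg hreg using fun t : ℤ => exists_minOpt pos (fun z => n z < t ∧ t ≤ pos z)
  let F : Forest Z := Forest.ofMeasure up (fun z => - pos z) (fun u v h => by
    have := ((hup u).1 v h).2
    show - pos v < - pos u
    omega)
  have hFup : ∀ z, F.up z = up z := fun _ => rfl
  -- the function `m`
  have hm : ∀ z, ∃ k : ℤ, (∃ x, (x = z ∨ (pos x < pos z ∧ pos z < d x ∧ d x < d z)) ∧ k = d x) ∧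
      ∀ x, (x = z ∨ (pos x < pos z ∧ pos z < d x ∧ d x < d z)) → k ≤ d x := by
    intro z
    obtain ⟨w, hw1, hw2⟩ := exists_minOpt d
      (fun x => x = z ∨ (pos x < pos z ∧ pos z < d x ∧ d x < d z))
    obtain ⟨u, hu, -⟩ := hw2 z (Or.inl rfl)
    refine ⟨d u, ⟨u, hw1 u hu, rfl⟩, fun x hx => ?_⟩
    obtain ⟨u', hu', h⟩ := hw2 x hx
    rw [hu] at hu'
    cases hu'
    exact h
  choose m hm1 hm2 using hm
  have m_lo : ∀ z, pos z < m z := by
    intro z
    obtain ⟨x, hx, hk⟩ := hm1 z
    rcases hx with rfl | hx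
    · rw [hk]; exact hd _
    · rw [hk]; exact hx.2.1
  have m_hi : ∀ z, m z ≤ d z := fun z => hm2 z z (Or.inl rfl)
  have m_D : ∀ z u, pos z < pos u → pos u < d z → d z < d u → m u ≤ m z := by
    intro z u h1 h2 h3
    obtain ⟨x, hx, hk⟩ := hm1 z
    rw [hk]
    rcases hx with rfl | hx
    · exact hm2 u x (Or.inr ⟨h1, h2, h3⟩)
    · have : pos u < d x := by
        by_contra hc
        exact c2 x z u hx.1 hx.2.1 hx.2.2 h1 h2 h3 (by omega)
      exact hm2 u x (Or.inr ⟨by omega, this, by omega⟩)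
  -- chain nodes contain the token
  have chain : ∀ (t : ℤ) v c, reg t = some v → F.Anc c v → n c < t ∧ t ≤ pos c := by
    intro t v c hv hc
    refine F.anc_induction (P := fun c => n c < t ∧ t ≤ pos c) ((hreg t).1 v hv) ?_ hc
    intro c u _ hc hu
    have h1 := (hup c).1 u hu
    have h2 := H1 c u h1.2 h1.1
    exact ⟨by omega, by omega⟩
  let far : Z → Q4 := fun z => q4 0 (- d z) 1 (pos z)
  let near : Z → Q4 := fun z => q4 1 (- m z) (pos z) 0
  have main : ∀ (Y P : ℤ), P < Y →
      ((∃ z, n z < P ∧ P ≤ pos z ∧ pos z < Y ∧ Y < d z) ↔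
        (F.key far (reg P) (q4 1 0 0 0) < F.key far (reg Y) (q4 0 (- Y) 0 0) ∨
          F.key near (reg P) (q4 2 0 0 0) < F.key near (reg Y) (q4 0 0 0 0))) := by
    intro Y P hPY
    obtain ⟨w, hwQ, hw⟩ := F.exists_cut (fun u => Y ≤ pos u) (reg P)
    obtain ⟨w2, hw2Q, hw2⟩ := F.exists_cut (fun u => n u < P) (reg Y)
    have hS1 : IsMinOpt pos (fun s => n s < P ∧ Y ≤ pos s) w := by
      rcases hw with rfl | ⟨z, v, hv, hz, hzw, hzQ, -⟩
      · exact ⟨fun u hu => ⟨((hreg P).1 u hu).1, hwQ u hu⟩,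
          fun s hs => (hreg P).2 s ⟨hs.1, by omega⟩⟩
      · have hc := chain P v z hv hz
        refine ⟨fun u hu => ⟨(chain P v u hv (hz.up (hzw.trans hu))).1, hwQ u hu⟩, fun s hs => ?_⟩
        rw [← hzw]
        exact (hup z).2 s ⟨by omega, by omega⟩
    have hS2 : IsMinOpt pos (fun s => n s < P ∧ Y ≤ pos s) w2 := by
      rcases hw2 with rfl | ⟨u, v, hv, hu, huw, huQ, -⟩
      · exact ⟨fun u hu => ⟨hw2Q u hu, ((hreg Y).1 u hu).2⟩,
          fun s hs => (hreg Y).2 s ⟨by omega, hs.2⟩⟩
      · have hc := chain Y v u hv hu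
        refine ⟨fun u' hu' => ⟨hw2Q u' hu', (chain Y v u' hv (hu.up (huw.trans hu'))).2⟩,
          fun s hs => ?_⟩
        rw [← huw]
        refine (hup u).2 s ⟨by omega, ?_⟩
        rcases lt_trichotomy (pos u) (pos s) with h | h | h
        · exact h
        · rw [hinj h] at huQ
          exact absurd hs.1 huQ
        · have := H1 s u h (by omega)
          omega
    have hww : w2 = w := hS2.unique hinj hS1
    subst hww
    -- passes of Alice
    have passA : ∀ (rk : Z → Q4) (ρ : Q4), (w2 = reg Y → F.Pass rk (reg Y) ρ w2 ρ) ∧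
        ∀ u v, reg Y = some v → F.Anc u v → F.up u = w2 → F.Pass rk (reg Y) ρ w2 (rk u) :=
      fun rk ρ => ⟨fun h => Or.inl ⟨h, rfl⟩, fun u v h1 h2 h3 => Or.inr ⟨u, v, h1, h2, h3, rfl⟩⟩
    have passB : ∀ (rk : Z → Q4) (ρ : Q4), (w2 = reg P → F.Pass rk (reg P) ρ w2 ρ) ∧
        ∀ u v, reg P = some v → F.Anc u v → F.up u = w2 → F.Pass rk (reg P) ρ w2 (rk u) :=
      fun rk ρ => ⟨fun h => Or.inl ⟨h, rfl⟩, fun u v h1 h2 h3 => Or.inr ⟨u, v, h1, h2, h3, rfl⟩⟩
    rcases hw with hB | ⟨z, v, hv, hz, hzw, hzQ, -⟩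
    · -- Bob himself
      have e1 : F.key far (reg Y) (q4 0 (- Y) 0 0) < F.key far (reg P) (q4 1 0 0 0) := by
        rcases hw2 with hA | ⟨u, v', hv', hu, huw, -, -⟩
        · exact F.key_lt_of_pass ((passA _ _).1 hA) ((passB _ _).1 hB) (by rw [q4_lt]; omega)
        · exact F.key_lt_of_pass ((passA _ _).2 u v' hv' hu huw) ((passB _ _).1 hB)
            (by simp only [far]; rw [q4_lt]; omega)
      have e2 : F.key near (reg Y) (q4 0 0 0 0) < F.key near (reg P) (q4 2 0 0 0) := by
        rcases hw2 with hA | ⟨u, v', hv', hu, huw, -, -⟩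
        · exact F.key_lt_of_pass ((passA _ _).1 hA) ((passB _ _).1 hB) (by rw [q4_lt]; omega)
        · exact F.key_lt_of_pass ((passA _ _).2 u v' hv' hu huw) ((passB _ _).1 hB)
            (by simp only [near]; rw [q4_lt]; omega)
      constructor
      · rintro ⟨z, h1, h2, h3, -⟩
        obtain ⟨u, hu, hle⟩ := (hreg P).2 z ⟨h1, h2⟩
        have := hwQ u (hB.trans hu)
        omega
      · rintro (h | h)
        · exact absurd h (lt_asymm e1)
        · exact absurd h (lt_asymm e2)
    · have hc := chain P v z hv hz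
      have hzY : pos z < Y := by omega
      have cov : (∃ z, n z < P ∧ P ≤ pos z ∧ pos z < Y ∧ Y < d z) ↔ Y < d z := by
        refine ⟨?_, fun h => ⟨z, hc.1, hc.2, hzY, h⟩⟩
        rintro ⟨z2, h1, h2, h3, h4⟩
        rcases lt_trichotomy (pos z) (pos z2) with h | h | h
        · obtain ⟨u, hu, hle⟩ := (hup z).2 z2 ⟨by omega, h⟩
          have := hwQ u (hzw.symm.trans hu)
          omega
        · rw [hinj h]; exact h4
        · have := H4 z2 z (by omega) h
          omega
      rw [cov]
      have pBf := (passB far (q4 1 0 0 0)).2 z v hv hz hzw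
      have pBn := (passB near (q4 2 0 0 0)).2 z v hv hz hzw
      rcases hw2 with hA | ⟨u, v', hv', hu, huw, huQ, -⟩
      · have pAf := (passA far (q4 0 (- Y) 0 0)).1 hA
        have pAn := (passA near (q4 0 0 0 0)).1 hA
        constructor
        · intro h
          exact Or.inl (F.key_lt_of_pass pBf pAf (by simp only [far]; rw [q4_lt]; omega))
        · rintro (h | h)
          · by_contra hc'
            exact absurd h (lt_asymm (F.key_lt_of_pass pAf pBf
              (by simp only [far]; rw [q4_lt]; omega)))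
          · exact absurd h (lt_asymm (F.key_lt_of_pass pAn pBn
              (by simp only [near]; rw [q4_lt]; omega)))
      · have pAf := (passA far (q4 0 (- Y) 0 0)).2 u v' hv' hu huw
        have pAn := (passA near (q4 0 0 0 0)).2 u v' hv' hu huw
        have hcu := chain Y v' u hv' hu
        have hzu : pos z ≤ n u := by
          by_contra hc'
          have := H1 z u (by omega) (by omega)
          omega
        have a1 := hd u
        have a2 := m_lo u
        have a3 := m_hi z
        constructor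
        · intro h
          have hud : pos u < d z := by
            by_contra hc'
            exact c1 z u hzu (by omega) (by omega)
          by_cases hdd : d u ≤ d z
          · exact Or.inl (F.key_lt_of_pass pBf pAf (by simp only [far]; rw [q4_lt]; omega))
          · have := m_D z u (by omega) hud (by omega)
            exact Or.inr (F.key_lt_of_pass pBn pAn (by simp only [near]; rw [q4_lt]; omega))
        · rintro (h | h)
          · by_contra hc'
            exact absurd h (lt_asymm (F.key_lt_of_pass pAf pBf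
              (by simp only [far]; rw [q4_lt]; omega)))
          · by_contra hc'
            exact absurd h (lt_asymm (F.key_lt_of_pass pAn pBn
              (by simp only [near]; rw [q4_lt]; omega)))
  have t0 : BDec 1 (fun (a : A) (b : B) => p b < y a) := BDec.gt y p
  have t1 := BDec.gt (fun a : A => F.key far (reg (y a)) (q4 0 (- y a) 0 0))
    (fun b : B => F.key far (reg (p b)) (q4 1 0 0 0))
  have t2 := BDec.gt (fun a : A => F.key near (reg (y a)) (q4 0 0 0 0))
    (fun b : B => F.key near (reg (p b)) (q4 2 0 0 0))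
  refine (t0.and (t1.or t2)).congr (fun a b => ⟨?_, ?_⟩)
  · rintro ⟨h1, h2⟩
    exact (main _ _ h1).2 h2
  · intro h
    have h1 : p b < y a := by
      obtain ⟨z, -, h2, h3, -⟩ := h
      omega
    exact ⟨h1, (main _ _ h1).1 h⟩

end PLem

theorem plemma : ColoringStmt → PStmt := by
  classical
  rintro ⟨N, hN⟩
  refine ⟨N * 3 * 3, fun A B Z _ _ _ y p pos n J d hinj hn hJ hd H1 H2 H3 H4 => ?_⟩
  obtain ⟨col, hcol⟩ := hN Z pos n J d hinj (fun z => (hn z).le)
    (fun z => (hJ z).trans (hn z).le) (fun z => (hd z).le)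
    (fun u u' h => by have := H1 u u' h.2.2 h.2.1; omega)
    (fun u u' h => by have := H2 u u' h.2.2 h.2.1; omega) H3 H4
  obtain ⟨r, hr1, hr2⟩ := PLem.exists_height (fun z u => J u < pos z ∧ d z ≤ pos u) pos
    (fun z u h => by have := hd z; omega)
  have hJD : ∀ z w, pos z < pos w → pos w < d z → d z < d w → J w ≤ J z := by
    intro z w h1 h2 h3
    by_contra hc
    have := hn w
    have := hJ w
    exact H3 z w ⟨by omega, by omega, h3⟩
  have hrD : ∀ z w, pos z < pos w → pos w < d z → d z < d w → r z ≤ r w + 1 := by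
    intro z w h1 h2 h3
    rcases hr2 z with h | ⟨u1, ⟨a1, a2⟩, h⟩
    · omega
    · rcases hr2 u1 with h' | ⟨u2, ⟨b1, b2⟩, h'⟩
      · omega
      · have e1 := hd u1
        have e2 := H2 u1 u2 (by omega) b1
        have e3 := H4 w u1 (by omega) (by omega)
        have := hr1 w u2 ⟨by omega, by omega⟩
        omega
  have key : ∀ q : Fin N × Fin 3, BDec 3 (fun a b => ∃ z : {z // col z = q.1 ∧ r z % 3 = q.2},
      n z < p b ∧ p b ≤ pos z ∧ pos z < y a ∧ y a < d z) := by
    intro q
    refine PLem.core A B {z // col z = q.1 ∧ r z % 3 = q.2} y p (fun z => pos z) (fun z => n z)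
      (fun z => d z) (fun z z' h => Subtype.ext (hinj h)) (fun z => hn z) (fun z => hd z)
      (fun u u' => H1 u u') (fun z z2 h1 h2 => H4 z z2 (by have := hJ z2; omega) h2)
      (fun v u h1 h2 h3 => hcol v u h1 h2 h3 (v.2.1.trans u.2.1.symm)) ?_
    intro x z u h1 h2 h3 h4 h5 h6 h7
    have e1 := hJD x z h1 h2 h3
    have e2 := hJD z u h4 h5 h6
    have e3 := hrD x z h1 h2 h3
    have e4 := hrD z u h4 h5 h6
    have e5 := hn x
    have e6 := hJ x
    have e7 := hr1 x u ⟨by omega, h7⟩
    have e8 := x.2.2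
    have e9 := u.2.2
    omega
  have := BDec.ex key
  simp only [Fintype.card_prod, Fintype.card_fin] at this
  refine this.congr (fun a b => ⟨?_, ?_⟩)
  · rintro ⟨q, z, h⟩
    exact ⟨z, h⟩
  · rintro ⟨z, h⟩
    exact ⟨(col z, ⟨r z % 3, Nat.mod_lt _ (by norm_num)⟩), ⟨z, rfl, rfl⟩, h⟩

end Pool.Agent.MP_a17da5_co
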