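import Pool.Agent.MP_a17da5_co.TreeOrder

/-!
Opposite arms: the relation of being covered by a common node is decided by boundedly many
threshold tests.
-/

set_option autoImplicit false

namespace Pool.Agent.MP_a17da5_co

namespace QLem

variable {C : Type}

/-- `o` is the `pos`-minimal element with property `P`, or `none` when there is none. -/
def IsMin (pos : C → ℤ) (P : C → Prop) (o : Option C) : Prop :=
  (∀ u, o = some u → P u) ∧ ∀ u', P u' → ∃ u, o = some u ∧ pos u ≤ pos u'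

theorem exists_isMin [Fintype C] (pos : C → ℤ) (P : C → Prop) : ∃ o, IsMin pos P o := by
  classical
  by_cases h : ∃ u, P u
  · obtain ⟨u, hu, hm⟩ := Finset.exists_min_image (Finset.univ.filter P) pos
      (by obtain ⟨u, hu⟩ := h; exact ⟨u, by simpa using hu⟩)
    refine ⟨some u, ?_, fun u' hu' => ⟨u, rfl, hm u' (by simpa using hu')⟩⟩
    intro v hv
    cases hv
    simpa using hu
  · exact ⟨none, by simp, fun u' hu' => absurd ⟨u', hu'⟩ h⟩

theorem cut_eq {pos : C → ℤ} (hinj : Function.Injective pos) {o w : Option C}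
    (h1 : ∀ u, o = some u → ∃ w0, w = some w0 ∧ pos w0 ≤ pos u)
    (h2 : ∀ w0, w = some w0 → ∃ u, o = some u ∧ pos u ≤ pos w0) : o = w := by
  cases w with
  | none =>
    cases o with
    | none => rfl
    | some u => obtain ⟨w0, h, -⟩ := h1 u rfl; cases h
  | some w0 =>
    obtain ⟨u, hu, h3⟩ := h2 w0 rfl
    obtain ⟨w1, hw, h4⟩ := h1 u hu
    cases hw
    rw [hu, hinj (le_antisymm h3 h4)]

/-- Rank of a node. -/
def rk (pos R : C → ℤ) (c : C) : ℤ ×ₗ ℤ := toLex (4 * R c - 1, - pos c)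

theorem lex_lt {a b c d : ℤ} (h : a < c ∨ (a = c ∧ b < d)) :
    (toLex (a, b) : ℤ ×ₗ ℤ) < toLex (c, d) := Prod.Lex.toLex_lt_toLex.2 h

section core

variable {pos L R : C → ℤ} (F : Forest C) (hinj : Function.Injective pos)
  (hL : ∀ c, L c < pos c) (hR : ∀ c, pos c < R c)
  (lamL : ∀ c c', pos c < pos c' → L c' < pos c → L c' ≤ L c)
  (lamR : ∀ c c', pos c < pos c' → pos c' < R c → R c' ≤ R c)
  (hup : ∀ c, IsMin pos (fun u => L u < pos c ∧ R c ≤ pos u) (F.up c))
  {x p : ℤ} {ra rb : Option C}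
  (hA : IsMin pos (fun u => L u < x ∧ x ≤ pos u) ra)
  (hB : IsMin pos (fun u => L u ≤ p ∧ p < pos u) rb)

include hR lamL hup hA in
theorem chainA {c v : C} (hv : ra = some v) (h : F.Anc c v) : L c < x ∧ x ≤ pos c := by
  refine F.anc_induction (P := fun c => L c < x ∧ x ≤ pos c) (hA.1 v hv) ?_ h
  intro c u _ hc hu
  obtain ⟨a1, a2⟩ := (hup c).1 u hu
  have a3 := hR c
  have a4 := lamL c u (by omega) a1
  omega

include hR lamL hup hB in
theorem chainB {c v : C} (hv : rb = some v) (h : F.Anc c v) : L c ≤ p ∧ p < pos c := by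
  refine F.anc_induction (P := fun c => L c ≤ p ∧ p < pos c) (hB.1 v hv) ?_ h
  intro c u _ hc hu
  obtain ⟨a1, a2⟩ := (hup c).1 u hu
  have a3 := hR c
  have a4 := lamL c u (by omega) a1
  omega

include hinj hL hR lamL lamR hup hA hB in
theorem uncovered (hxp : x ≤ p) (hunc : ∀ c, L c < x → x ≤ pos c → pos c ≤ p → R c ≤ p) :
    F.key (rk pos R) ra (toLex (4 * x, 0)) < F.key (rk pos R) rb (toLex (4 * p + 2, 0)) := by
  obtain ⟨w, hw, hcut⟩ := F.exists_cut (fun u => L u < x) rb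
  have hitem : ∃ r, F.Pass (rk pos R) rb (toLex (4 * p + 2, 0)) w r ∧
      (toLex (4 * x, 0) : ℤ ×ₗ ℤ) < r ∧ (∀ w0, w = some w0 → p < pos w0) ∧
      ∀ c, L c < x → x ≤ pos c → (∀ w0, w = some w0 → pos c < pos w0) →
        rk pos R c < r ∧ ∀ w0, w = some w0 → R c ≤ pos w0 := by
    rcases hcut with h | ⟨u, v, hv, h1, h2, h3, -⟩
    · have hp : ∀ w0, w = some w0 → p < pos w0 := fun w0 h0 => (hB.1 w0 (h ▸ h0)).2
      refine ⟨_, Or.inl ⟨h, rfl⟩, lex_lt (by omega), hp, fun c c1 c2 c3 => ?_⟩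
      have c4 : pos c ≤ p := by
        by_contra hc
        obtain ⟨u, hu, hu'⟩ := hB.2 c ⟨by omega, by omega⟩
        have := c3 u (h.trans hu)
        omega
      have c5 := hunc c c1 c2 c4
      refine ⟨lex_lt (by omega), fun w0 h0 => ?_⟩
      have := hp w0 h0
      omega
    · obtain ⟨b1, b2⟩ := chainB F hR lamL hup hB hv h1
      have b3 := hL u
      have b4 := hR u
      have hp : ∀ w0, w = some w0 → R u ≤ pos w0 := fun w0 h0 => ((hup u).1 w0 (h2.trans h0)).2
      refine ⟨_, Or.inr ⟨u, v, hv, h1, h2, rfl⟩, lex_lt (by omega),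
        fun w0 h0 => by have := hp w0 h0; omega, fun c c1 c2 c3 => ?_⟩
      have c4 : pos c < R u := by
        by_contra hc
        obtain ⟨u', hu, hu'⟩ := (hup u).2 c ⟨by omega, by omega⟩
        have := c3 u' (h2.symm.trans hu)
        omega
      have c5 : R c < R u ∨ (R c = R u ∧ pos u < pos c) := by
        rcases lt_trichotomy (pos c) (pos u) with h | h | h
        · by_cases h' : pos c ≤ p
          · have := hunc c c1 c2 h'
            omega
          · have := lamL c u h (by omega)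
            omega
        · have := hinj h
          subst this
          omega
        · have := lamR u c h c4
          omega
      refine ⟨lex_lt (by omega), fun w0 h0 => ?_⟩
      have := hp w0 h0
      omega
  obtain ⟨r, hpass, hr1, hp, hr2⟩ := hitem
  obtain ⟨w2, hw2, hcut2⟩ := F.exists_cut (fun u => ∃ w0, w = some w0 ∧ pos w0 ≤ pos u) ra
  rcases hcut2 with h | ⟨c, v, hv, h1, h2, h3, -⟩
  · have e : ra = w := cut_eq hinj (fun u hu => hw2 u (h.trans hu))
      (fun w0 h0 => hA.2 w0 ⟨hw w0 h0, by have := hp w0 h0; omega⟩)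
    exact F.key_lt_of_pass (Or.inl ⟨e.symm, rfl⟩) hpass hr1
  · obtain ⟨a1, a2⟩ := chainA F hR lamL hup hA hv h1
    obtain ⟨a3, a4⟩ := hr2 c a1 a2 (fun w0 h0 => by
      by_contra hc
      exact h3 ⟨w0, h0, by omega⟩)
    have e : F.up c = w := cut_eq hinj (fun u hu => hw2 u (h2.symm.trans hu))
      (fun w0 h0 => (hup c).2 w0 ⟨by have := hw w0 h0; omega, a4 w0 h0⟩)
    exact F.key_lt_of_pass (Or.inr ⟨c, v, hv, h1, e, rfl⟩) hpass a3

include hinj hR lamL lamR hup hA hB in
theorem covered (hind : ∀ v u, pos v ≤ L u → L u < R v → R v ≤ pos u → False)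
    (c0 : C) (c1 : L c0 < x) (c2 : x ≤ pos c0) (c3 : pos c0 ≤ p) (c4 : p < R c0) :
    F.key (rk pos R) rb (toLex (4 * p + 2, 0)) < F.key (rk pos R) ra (toLex (4 * x, 0)) := by
  obtain ⟨w, hw, hcut⟩ := F.exists_cut (fun u => pos c0 < pos u) ra
  rcases hcut with h | ⟨g, v, hv, h1, h2, h3, -⟩
  · obtain ⟨u, hu, hu'⟩ := hA.2 c0 ⟨c1, c2⟩
    have := hw u (h.trans hu)
    omega
  obtain ⟨g1, g2⟩ := chainA F hR lamL hup hA hv h1
  have g3 : p < R g := by
    rcases eq_or_lt_of_le (not_lt.1 h3) with h | h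
    · rw [hinj h]; exact c4
    · have : pos c0 < R g := by
        by_contra hc
        obtain ⟨u, hu, hu'⟩ := (hup g).2 c0 ⟨by omega, by omega⟩
        have := hw u (h2.symm.trans hu)
        omega
      have := lamR g c0 h this
      omega
  have hW : ∀ w0, w = some w0 → L w0 < x ∧ R g ≤ pos w0 := fun w0 h0 =>
    ⟨(chainA F hR lamL hup hA hv (h1.up (h2.trans h0))).1, ((hup g).1 w0 (h2.trans h0)).2⟩
  have hpass : F.Pass (rk pos R) ra (toLex (4 * x, 0)) w (rk pos R g) :=
    Or.inr ⟨g, v, hv, h1, h2, rfl⟩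
  obtain ⟨w2, hw2, hcut2⟩ := F.exists_cut (fun u => ∃ w0, w = some w0 ∧ pos w0 ≤ pos u) rb
  rcases hcut2 with h | ⟨u, v', hv', k1, k2, k3, -⟩
  · have e : rb = w := cut_eq hinj (fun u hu => hw2 u (h.trans hu))
      (fun w0 h0 => hB.2 w0 (by have := hW w0 h0; omega))
    exact F.key_lt_of_pass (Or.inl ⟨e.symm, rfl⟩) hpass (lex_lt (by omega))
  · obtain ⟨b1, b2⟩ := chainB F hR lamL hup hB hv' k1
    by_cases hc : pos u < R g
    · have b3 := lamR g u (by omega) hc
      have e : F.up u = w := cut_eq hinj (fun u' hu => hw2 u' (k2.symm.trans hu))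
        (fun w0 h0 => (hup u).2 w0 (by have := hW w0 h0; omega))
      exact F.key_lt_of_pass (Or.inr ⟨u, v', hv', k1, e, rfl⟩) hpass (lex_lt (by omega))
    · exfalso
      have b3 : pos g ≤ L u := by
        by_contra hc'
        obtain ⟨u', hu, hu'⟩ := (hup g).2 u ⟨by omega, by omega⟩
        exact k3 ⟨u', h2.symm.trans hu, hu'⟩
      exact hind g u b3 (by omega) (by omega)

end core

/-- One colour class. -/
theorem oneClass {A B : Type} [Fintype A] [Fintype B] [Fintype C] (x : A → ℤ) (p : B → ℤ)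
    (pos L R : C → ℤ) (hinj : Function.Injective pos)
    (hL : ∀ c, L c < pos c) (hR : ∀ c, pos c < R c)
    (lamL : ∀ c c', pos c < pos c' → L c' < pos c → L c' ≤ L c)
    (lamR : ∀ c c', pos c < pos c' → pos c' < R c → R c' ≤ R c)
    (hind : ∀ v u, pos v ≤ L u → L u < R v → R v ≤ pos u → False) :
    BDec 2 (fun a b => ∃ c, L c < x a ∧ x a ≤ pos c ∧ pos c ≤ p b ∧ p b < R c) := by
  choose up hup using fun c => exists_isMin pos (fun u => L u < pos c ∧ R c ≤ pos u)
  choose ra hA using fun a => exists_isMin pos (fun u => L u < x a ∧ x a ≤ pos u)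
  choose rb hB using fun b => exists_isMin pos (fun u => L u ≤ p b ∧ p b < pos u)
  let F : Forest C := Forest.ofMeasure up (fun c => - pos c) (fun u v h => by
    have h1 := ((hup u).1 v h).2
    have h2 := hR u
    omega)
  have hupF : ∀ c, IsMin pos (fun u => L u < pos c ∧ R c ≤ pos u) (F.up c) := hup
  refine ((BDec.le x p).and (BDec.gt (fun a => F.key (rk pos R) (ra a) (toLex (4 * x a, 0)))
    (fun b => F.key (rk pos R) (rb b) (toLex (4 * p b + 2, 0))))).congr (fun a b => ⟨?_, ?_⟩)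
  · rintro ⟨h1, h2⟩
    by_contra hc
    have h3 := uncovered F hinj hL hR lamL lamR hupF (hA a) (hB b) h1 (fun c c1 c2 c3 => by
      by_contra hc'
      exact hc ⟨c, c1, c2, c3, by omega⟩)
    exact lt_asymm h2 h3
  · rintro ⟨c, c1, c2, c3, c4⟩
    exact ⟨by omega, covered F hinj hR lamL lamR hupF (hA a) (hB b) hind c c1 c2 c3 c4⟩

end QLem

theorem qlemma : ColoringStmt → QStmt := by
  rintro ⟨K, hK⟩
  refine ⟨K * 2, fun A B Z _ _ _ x p pos L R hinj hL hR lamL lamR => ?_⟩
  classical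
  obtain ⟨col, hcol⟩ := hK Z pos L pos R hinj (fun z => (hL z).le) (fun _ => le_rfl)
    (fun z => (hR z).le)
    (fun u u' ⟨h1, h2, h3⟩ => by have := lamL u u' h3 h2; omega)
    (fun u u' ⟨_, h2, h3⟩ => by omega)
    (fun z z' ⟨h1, h2, h3⟩ => by have := lamR z z' h1 h2; omega)
    (fun z z2 h1 h2 => by omega)
  refine (BDec.exFin (K := K) (fun i => QLem.oneClass (C := {z // col z = i}) x p
    (fun c => pos c.1) (fun c => L c.1) (fun c => R c.1)
    (fun c c' h => Subtype.ext (hinj h)) (fun c => hL c.1) (fun c => hR c.1)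
    (fun c c' => lamL c.1 c'.1) (fun c c' => lamR c.1 c'.1)
    (fun v u h1 h2 h3 => hcol v.1 u.1 h1 h2 h3 (v.2.trans u.2.symm)))).congr
    (fun a b => ⟨?_, ?_⟩)
  · rintro ⟨i, c, h⟩
    exact ⟨c.1, h⟩
  · rintro ⟨c, h⟩
    exact ⟨col c, ⟨c, rfl⟩, h⟩

end Pool.Agent.MP_a17da5_co
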