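import Pool.Agent.MP_a17da5_co.Inst
import Pool.Agent.MP_a17da5_co.Coloring
import Pool.Agent.MP_a17da5_co.QLemma
import Pool.Agent.MP_a17da5_co.PLemma
import Pool.Agent.MP_a17da5_co.Line
import Pool.Agent.MP_a17da5_co.Layers
import Pool.Agent.MP_a17da5_co.Base

/-!
Assembly: reachability in an upward planar digraph is decided by boundedly many orders.
-/

set_option autoImplicit false

namespace Pool.Agent.MP_a17da5_co

section GoodLemmas

variable {V E : Type} [Fintype E] {R : RS V E} {A : V → V → Prop} {K : Set V}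

theorem good_le (hd : ∀ a b, A a b → b ∈ K → a ∈ K) (h1 : ∀ a b, R.adj a b ↔ (a ∉ K ∧ A a b))
    {a b : V} (ha : a ∉ K) : (R.le a b ↔ Relation.ReflTransGen A a b) ∧
      (Relation.ReflTransGen A a b → b ∉ K) := by
  have key : ∀ b, Relation.ReflTransGen A a b → R.le a b ∧ b ∉ K := by
    intro b h
    induction h with
    | refl => exact ⟨R.le_refl _, ha⟩
    | tail _ x ih =>
      exact ⟨Relation.ReflTransGen.tail ih.1 ((h1 _ _).2 ⟨ih.2, x⟩), fun y => ih.2 (hd _ _ x y)⟩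
  refine ⟨⟨fun h => ?_, fun h => (key b h).1⟩, fun h => (key b h).2⟩
  induction h with
  | refl => exact Relation.ReflTransGen.refl
  | tail _ x ih => exact ih.tail ((h1 _ _).1 x).2

theorem good_green (hd : ∀ a b, A a b → b ∈ K → a ∈ K) (h1 : ∀ a b, R.adj a b ↔ (a ∉ K ∧ A a b))
    (h2 : ∀ b, (∃ e, R.src e = none ∧ R.hd e = b) ↔ (b ∉ K ∧ ∃ k ∈ K, A k b)) (b : V) :
    R.green b ↔ (b ∉ K ∧ ∃ k ∈ K, Relation.ReflTransGen A k b) := by
  constructor
  · rintro ⟨e, x1, x2⟩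
    obtain ⟨y1, k, y2, y3⟩ := (h2 _).1 ⟨e, x1, rfl⟩
    have z := (good_le hd h1 (b := b) y1).1.1 x2
    exact ⟨(good_le hd h1 y1).2 z, k, y2, Relation.ReflTransGen.head y3 z⟩
  · rintro ⟨x1, k, x2, x3⟩
    induction x3 with
    | refl => exact absurd x2 x1
    | @tail c b _ y ih =>
      by_cases hc : c ∈ K
      · obtain ⟨e, z1, z2⟩ := (h2 b).2 ⟨x1, c, hc, y⟩
        exact ⟨e, z1, z2 ▸ R.le_refl _⟩
      · exact (ih hc).le (Relation.ReflTransGen.single ((h1 _ _).2 ⟨hc, y⟩))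

end GoodLemmas

theorem good_ext (hext : ExtStmt) {V : Type} [Fintype V] {A : V → V → Prop} {K : Set V}
    (h : Good A K) : Good (flip A) {v | ∃ k ∈ K, Relation.ReflTransGen A k v} := by
  classical
  obtain ⟨hd, E, _, R, h1, h2⟩ := h
  have hg := good_green hd h1 h2
  have hup : ∀ a b, A a b → (∃ k ∈ K, Relation.ReflTransGen A k a) →
      ∃ k ∈ K, Relation.ReflTransGen A k b := fun a b x ⟨k, y1, y2⟩ => ⟨k, y1, y2.tail x⟩
  have hK : ∀ a, a ∈ K → ∃ k ∈ K, Relation.ReflTransGen A k a :=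
    fun a x => ⟨a, x, Relation.ReflTransGen.refl⟩
  refine ⟨fun a b x y => hup b a x y, ?_⟩
  have main : ∀ (R' : RS V {e // R.red e}), (∀ e, R.green (R.hd e.1) → R'.src e = none) →
      (∀ e, ¬ R.green (R.hd e.1) → R'.src e = some (R.hd e.1)) →
      (∀ e, R.src e.1 = some (R'.hd e)) →
      (∀ a b, R'.adj a b ↔ (a ∉ {v | ∃ k ∈ K, Relation.ReflTransGen A k v} ∧ flip A a b)) ∧
      (∀ b, (∃ e, R'.src e = none ∧ R'.hd e = b) ↔
        (b ∉ {v | ∃ k ∈ K, Relation.ReflTransGen A k v} ∧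
          ∃ k ∈ {v | ∃ k ∈ K, Relation.ReflTransGen A k v}, flip A k b)) := by
    intro R' x1 x2 x3
    refine ⟨fun a b => ?_, fun b => ⟨?_, ?_⟩⟩
    · rw [ext_adj x1 x2 x3, h1, hg]
      constructor
      · rintro ⟨y1, y2, y3⟩
        exact ⟨fun y4 => y1 ⟨fun y5 => y2 (hd _ _ y3 y5), y4⟩, y3⟩
      · rintro ⟨y1, y2⟩
        exact ⟨fun y3 => y1 y3.2, fun y3 => y1 (hup _ _ y2 (hK _ y3)), y2⟩
    · rintro ⟨e, y1, rfl⟩
      have y2 : R.green (R.hd e.1) := by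
        by_contra hc
        rw [x2 e hc] at y1
        cases y1
      obtain ⟨y3, y4⟩ := (h1 _ _).1 ⟨e.1, x3 e, rfl⟩
      exact ⟨fun y5 => ext_red x3 e ((hg _).2 ⟨y3, y5⟩), _, ((hg _).1 y2).2, y4⟩
    · rintro ⟨y1, k, y2, y3⟩
      have y4 : b ∉ K := fun y => y1 (hK _ y)
      obtain ⟨e, y5, rfl⟩ := (h1 _ _).2 ⟨y4, y3⟩
      have y6 : R.red e := ⟨b, y5, fun y => y1 ((hg _).1 y).2⟩
      exact ⟨⟨e, y6⟩, x1 _ ((hg _).2 ⟨fun y => y4 (hd _ _ y3 y), y2⟩),
        Option.some_injective _ ((x3 ⟨e, y6⟩).symm.trans y5)⟩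
  rcases isEmpty_or_nonempty E with hE | hE
  · haveI : IsEmpty {e // R.red e} := ⟨fun e => hE.elim e.1⟩
    let R' : RS V {e // R.red e} :=
      { src := isEmptyElim, hd := isEmptyElim, τ := R.τ, ork := isEmptyElim, irk := isEmptyElim,
        lt := isEmptyElim, τ_inj := R.τ_inj, τ_lt := isEmptyElim, ork_inj := isEmptyElim,
        irk_inj := isEmptyElim, lt_out := isEmptyElim, lt_in := isEmptyElim, up1 := isEmptyElim,
        up2 := isEmptyElim, dn1 := isEmptyElim, dn2 := isEmptyElim,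
        jordan := fun _ _ _ => ⟨isEmptyElim, fun _ => 0, rfl, isEmptyElim, isEmptyElim⟩ }
    exact ⟨_, inferInstance, R', main R' isEmptyElim isEmptyElim isEmptyElim⟩
  · obtain ⟨L, -⟩ := R.exists_left
    obtain ⟨R', -, -, x1, x2, x3, -⟩ := hext V E R L
    exact ⟨_, inferInstance, R', main R' x1 x2 x3⟩

theorem main_of_ext (hext : ExtStmt) : MainStmt := by
  obtain ⟨N, hN⟩ := rs_of_direct (direct (linelemma (qlemma coloring) (plemma coloring)) hext)
  obtain ⟨N', hN'⟩ := layers (3 + N)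
  refine ⟨N', fun V E _ _ S => hN' V S.adj S.τ ?_ Good (fun x₀ h => base V E S x₀ h)
    (fun _ _ h => good_ext hext h) ?_⟩
  · rintro a b ⟨e, rfl, rfl⟩
    exact S.τ_lt e
  · rintro A K ⟨hd, E', _, R, h1, h2⟩
    refine ((Dec.left (fun a => a ∉ K)).and (hN V E' R)).congr (fun a b _ => ?_)
    rw [good_green hd h1 h2]
    constructor
    · rintro ⟨x1, ⟨x2, x3⟩, x4⟩
      exact ⟨x1, x3, x2, (good_le hd h1 x1).1.1 x4⟩
    · rintro ⟨x1, x2, x3, x4⟩
      exact ⟨x1, ⟨x3, x2⟩, (good_le hd h1 x1).1.2 x4⟩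

end Pool.Agent.MP_a17da5_co
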