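import Pool.Agent.MP_a17da5_co.TreeOrder

/-!
Rooted structures: an upward planar digraph in which a connected blob has been contracted to a
root (`none`).
-/

set_option autoImplicit false

namespace Pool.Agent.MP_a17da5_co

open Classical in
/-- Indicator of a proposition. -/
noncomputable def chi (p : Prop) : ZMod 2 := if p then 1 else 0

theorem chi_pos {p : Prop} (h : p) : chi p = 1 := by simp [chi, h]

theorem chi_neg {p : Prop} (h : ¬ p) : chi p = 0 := by simp [chi, h]

theorem chi_congr {p q : Prop} (h : p ↔ q) : chi p = chi q := by rw [propext h]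

theorem z2_add_self (x : ZMod 2) : x + x = 0 := by revert x; decide

theorem chi_add (p q : Prop) : chi p + chi q = chi (¬ (p ↔ q)) := by
  by_cases h1 : p <;> by_cases h2 : q <;> simp [chi, h1, h2, z2_add_self]

theorem chi_mul (p q : Prop) : chi p * chi q = chi (p ∧ q) := by
  by_cases h1 : p <;> by_cases h2 : q <;> simp [chi, h1, h2]

theorem chi_eq_one (x : ZMod 2) : chi (x = 1) = x := by
  have : x = 0 ∨ x = 1 := by revert x; decide
  rcases this with rfl | rfl <;> simp [chi]

theorem chi_inj {p q : Prop} (h : chi p = chi q) : p ↔ q := by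
  by_cases h1 : p <;> by_cases h2 : q <;> simp_all [chi]

/-- Sum of `Y` over the edges satisfying `P`. -/
noncomputable def sumOn {E : Type} [Fintype E] (Y : E → ZMod 2) (P : E → Prop) : ZMod 2 :=
  ∑ e, chi (P e) * Y e

section SumOn

variable {E : Type} [Fintype E]

theorem sumOn_congr {Y : E → ZMod 2} {P Q : E → Prop} (h : ∀ e, Y e ≠ 0 → (P e ↔ Q e)) :
    sumOn Y P = sumOn Y Q := by
  unfold sumOn
  refine Finset.sum_congr rfl (fun e _ => ?_)
  by_cases h0 : Y e = 0
  · simp [h0]
  · rw [chi_congr (h e h0)]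

theorem sumOn_congr_fun {Y Y' : E → ZMod 2} {P : E → Prop} (h : ∀ e, P e → Y e = Y' e) :
    sumOn Y P = sumOn Y' P := by
  unfold sumOn
  refine Finset.sum_congr rfl (fun e _ => ?_)
  by_cases h0 : P e
  · rw [h e h0]
  · simp [chi_neg h0]

theorem sumOn_eq_zero {Y : E → ZMod 2} {P : E → Prop} (h : ∀ e, P e → Y e = 0) :
    sumOn Y P = 0 := by
  unfold sumOn
  refine Finset.sum_eq_zero (fun e _ => ?_)
  by_cases h0 : P e
  · simp [h e h0]
  · simp [chi_neg h0]

theorem sumOn_add (Y Y' : E → ZMod 2) (P : E → Prop) :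
    sumOn (fun e => Y e + Y' e) P = sumOn Y P + sumOn Y' P := by
  unfold sumOn
  rw [← Finset.sum_add_distrib]
  exact Finset.sum_congr rfl (fun e _ => mul_add _ _ _)

theorem sumOn_xor (Y : E → ZMod 2) (P Q : E → Prop) :
    sumOn Y P + sumOn Y Q = sumOn Y (fun e => ¬ (P e ↔ Q e)) := by
  unfold sumOn
  rw [← Finset.sum_add_distrib]
  exact Finset.sum_congr rfl (fun e _ => by rw [← add_mul, chi_add])

theorem sumOn_single (Y : E → ZMod 2) (e : E) : sumOn Y (fun e' => e' = e) = Y e := by
  unfold sumOn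
  rw [Finset.sum_eq_single e]
  · simp [chi_pos]
  · intro b _ hb
    simp [chi_neg hb]
  · simp

theorem sum_chi (P : E → Prop) (h : ∀ e e', P e → P e' → e = e') :
    ∑ e, chi (P e) = chi (∃ e, P e) := by
  by_cases h0 : ∃ e, P e
  · rw [chi_pos h0]
    obtain ⟨e, h1⟩ := h0
    rw [Finset.sum_eq_single e]
    · exact chi_pos h1
    · intro e' _ hne
      exact chi_neg (fun h2 => hne (h _ _ h2 h1))
    · simp
  · rw [chi_neg h0]
    exact Finset.sum_eq_zero (fun e _ => chi_neg (fun h1 => h0 ⟨e, h1⟩))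

theorem sumOn_chi (P Q : E → Prop) (h : ∀ e e', P e → Q e → P e' → Q e' → e = e') :
    sumOn (fun e => chi (P e)) Q = chi (∃ e, P e ∧ Q e) := by
  unfold sumOn
  rw [← sum_chi (fun e => P e ∧ Q e) (fun e e' a b => h e e' a.1 a.2 b.1 b.2)]
  exact Finset.sum_congr rfl (fun e _ => by rw [chi_mul, chi_congr and_comm])

theorem sumOn_swap {C : Type} [Fintype C] (Y : C → ZMod 2) (A : C → E → Prop) (Q : E → Prop)
    (h : ∀ c e e', A c e → Q e → A c e' → Q e' → e = e') :
    sumOn (fun e => sumOn Y (fun c => A c e)) Q = sumOn Y (fun c => ∃ e, A c e ∧ Q e) := by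
  have h1 : ∀ c, chi (∃ e, A c e ∧ Q e) = ∑ e, chi (Q e) * chi (A c e) :=
    fun c => (sumOn_chi (A c) Q (h c)).symm
  unfold sumOn
  simp only [h1, Finset.mul_sum, Finset.sum_mul]
  rw [Finset.sum_comm]
  simp only [mul_assoc]

open Classical in
theorem sumOn_subtype (X : E → Prop) [Fintype {e // X e}] (Y : {e // X e} → ZMod 2)
    (P : {e // X e} → Prop) :
    sumOn Y P = sumOn (fun e => if h : X e then Y ⟨e, h⟩ else 0) (fun e => ∃ h, P ⟨e, h⟩) := by
  have h1 : (fun e => if h : X e then Y ⟨e, h⟩ else 0) = fun e => sumOn Y (fun c => c.1 = e) := by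
    funext e
    split_ifs with h
    · rw [← sumOn_single Y ⟨e, h⟩]
      exact sumOn_congr (fun c _ => Subtype.ext_iff)
    · exact (sumOn_eq_zero (fun c hc => absurd (hc ▸ c.2) h)).symm
  rw [h1, sumOn_swap Y (fun c e => c.1 = e) _ (fun c e e' a _ b _ => a.symm.trans b)]
  refine sumOn_congr (fun c _ => ⟨fun h => ⟨c.1, rfl, c.2, h⟩, ?_⟩)
  rintro ⟨e, rfl, _, h⟩
  exact h

end SumOn

/-- A rooted structure. Edges with `src e = none` leave the contracted blob (exits); `ork` ranks
the edges with a common source from left to right (for exits: the contour order of the blob),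
`irk` ranks the edges with a common head from left to right, and `lt q l` says that `q` and `l`
meet a common horizontal line, `q` on the left. -/
structure RS (V E : Type) [Fintype E] where
  src : E → Option V
  hd : E → V
  τ : V → ℤ
  ork : E → ℤ
  irk : E → ℤ
  lt : E → E → Prop
  τ_inj : Function.Injective τ
  τ_lt : ∀ e v, src e = some v → τ v < τ (hd e)
  ork_inj : ∀ e e', src e = src e' → ork e = ork e' → e = e'
  irk_inj : ∀ e e', hd e = hd e' → irk e = irk e' → e = e'
  lt_out : ∀ q l v, src q = some v → src l = some v → (lt q l ↔ ork q < ork l)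
  lt_in : ∀ q l a c, src q = some a → src l = some c → hd q = hd l → (lt q l ↔ irk q < irk l)
  up1 : ∀ q l q', lt q l → τ (hd q) < τ (hd l) → src q' = some (hd q) → lt q' l
  up2 : ∀ q l l', lt q l → τ (hd l) < τ (hd q) → src l' = some (hd l) → lt q l'
  dn1 : ∀ q l q' a c a', lt q l → src q = some a → src l = some c → τ c < τ a → hd q' = a →
    src q' = some a' → lt q' l
  dn2 : ∀ q l l' a c c', lt q l → src q = some a → src l = some c → τ a < τ c → hd l' = c →
    src l' = some c' → lt q l'
  jordan : ∀ Y : E → ZMod 2,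
    (∀ v, sumOn Y (fun e => hd e = v) = sumOn Y (fun e => src e = some v)) →
    sumOn Y (fun e => src e = none) = 0 →
    ∃ (s : E → ZMod 2) (w : Option V → ZMod 2), w none = 0 ∧
      (∀ e, s e = w (src e) + sumOn Y (fun f => src f = src e ∧ ork f < ork e)) ∧
      (∀ e, s e = w (some (hd e)) + sumOn Y (fun f => hd f = hd e ∧ irk f < irk e))

namespace RS

variable {V E : Type} [Fintype E] (R : RS V E)

theorem mirror_aux {α : Type} (Y : E → ZMod 2) (k : E → α) (r : E → ℤ)
    (hr : ∀ e e', k e = k e' → r e = r e' → e = e') (e : E) :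
    sumOn Y (fun f => k f = k e ∧ r f < r e) + Y e =
      sumOn Y (fun f => k f = k e) + sumOn Y (fun f => k f = k e ∧ - r f < - r e) := by
  rw [← sumOn_single Y e, sumOn_xor, sumOn_xor]
  refine sumOn_congr (fun f _ => ?_)
  by_cases h1 : f = e
  · subst h1; simp
  · by_cases h2 : k f = k e
    · have := mt (hr f e h2) h1
      simp only [h1, h2, true_and, iff_false, not_not, true_iff, not_lt]
      omega
    · simp [h1, h2]

/-- Left-right reflection. -/
def mirror : RS V E where
  src := R.src
  hd := R.hd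
  τ := R.τ
  ork e := - R.ork e
  irk e := - R.irk e
  lt q l := R.lt l q
  τ_inj := R.τ_inj
  τ_lt := R.τ_lt
  ork_inj e e' h h' := R.ork_inj e e' h (neg_injective h')
  irk_inj e e' h h' := R.irk_inj e e' h (neg_injective h')
  lt_out q l v h h' := by rw [R.lt_out l q v h' h]; omega
  lt_in q l a c h h' h'' := by rw [R.lt_in l q c a h' h h''.symm]; omega
  up1 q l q' h1 h2 h3 := R.up2 l q q' h1 h2 h3
  up2 q l l' h1 h2 h3 := R.up1 l q l' h1 h2 h3
  dn1 q l q' a c a' h1 h2 h3 h4 h5 h6 := R.dn2 l q q' c a a' h1 h3 h2 h4 h5 h6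
  dn2 q l l' a c c' h1 h2 h3 h4 h5 h6 := R.dn1 l q l' c a c' h1 h3 h2 h4 h5 h6
  jordan Y h1 h2 := by
    obtain ⟨s, w, hw, ho, hi⟩ := R.jordan Y h1 h2
    refine ⟨fun e => s e + Y e, fun o => w o + sumOn Y (fun f => R.src f = o), ?_, ?_, ?_⟩
    · simp only [hw, h2, add_zero]
    · intro e
      beta_reduce
      rw [ho e, add_assoc, mirror_aux Y R.src R.ork R.ork_inj e, add_assoc]
    · intro e
      beta_reduce
      rw [hi e, add_assoc, mirror_aux Y R.hd R.irk R.irk_inj e, add_assoc, h1]

def adj (a b : V) : Prop := ∃ e, R.src e = some a ∧ R.hd e = b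

/-- Reachability. -/
def le (a b : V) : Prop := Relation.ReflTransGen R.adj a b

/-- Reachable from the root. -/
def green (v : V) : Prop := ∃ e, R.src e = none ∧ R.le (R.hd e) v

/-- The source of the edge is the root or green. -/
def gsrc (e : E) : Prop := ∀ v, R.src e = some v → R.green v

theorem le_refl (a : V) : R.le a a := Relation.ReflTransGen.refl

variable {R}

theorem le.trans {a b c : V} (h : R.le a b) (h' : R.le b c) : R.le a c :=
  Relation.ReflTransGen.trans h h'

theorem le_hd {e : E} {a : V} (h : R.src e = some a) : R.le a (R.hd e) :=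
  Relation.ReflTransGen.single ⟨e, h, rfl⟩

theorem le.τ_le {a b : V} (h : R.le a b) : R.τ a ≤ R.τ b := by
  induction h with
  | refl => exact le_rfl
  | tail _ h2 ih =>
    obtain ⟨e, h3, rfl⟩ := h2
    exact ih.trans (R.τ_lt e _ h3).le

theorem le.cases_head {a b : V} (h : R.le a b) :
    a = b ∨ ∃ e, R.src e = some a ∧ R.le (R.hd e) b := by
  rcases Relation.ReflTransGen.cases_head h with h | ⟨c, ⟨e, h1, rfl⟩, h2⟩
  · exact Or.inl h
  · exact Or.inr ⟨e, h1, h2⟩

theorem le.cases_tail {a b : V} (h : R.le a b) :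
    a = b ∨ ∃ e c, R.src e = some c ∧ R.hd e = b ∧ R.le a c := by
  rcases Relation.ReflTransGen.cases_tail h with h | ⟨c, h2, ⟨e, h1, rfl⟩⟩
  · exact Or.inl h.symm
  · exact Or.inr ⟨e, c, h1, rfl, h2⟩

theorem green.le {a b : V} (h : R.green a) (h' : R.le a b) : R.green b := by
  obtain ⟨e, h1, h2⟩ := h
  exact ⟨e, h1, h2.trans h'⟩

theorem gsrc.green_hd {e : E} (h : R.gsrc e) : R.green (R.hd e) := by
  cases hs : R.src e with
  | none => exact ⟨e, hs, R.le_refl _⟩
  | some v => exact (h v hs).le (le_hd hs)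

theorem gsrc_of_none {e : E} (h : R.src e = none) : R.gsrc e := by
  intro v hv; rw [h] at hv; cases hv

theorem gsrc_of_some {e : E} {v : V} (h : R.src e = some v) (hv : R.green v) : R.gsrc e := by
  intro v' hv'; rw [h] at hv'; cases hv'; exact hv

theorem green.exists_in {v : V} (h : R.green v) : ∃ e, R.hd e = v ∧ R.gsrc e := by
  obtain ⟨e, h1, h2⟩ := h
  rcases h2.cases_tail with h3 | ⟨e', c, h3, h4, h5⟩
  · exact ⟨e, h3, gsrc_of_none h1⟩
  · exact ⟨e', h4, gsrc_of_some h3 ⟨e, h1, h5⟩⟩

/-- Induction upwards, bounded by `b`. -/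
theorem ind_top (R : RS V E) (b : V) {P : E → Prop}
    (h : ∀ e, R.le (R.hd e) b → (∀ e', R.src e' = some (R.hd e) → R.le (R.hd e') b → P e') → P e)
    (e : E) (he : R.le (R.hd e) b) : P e := by
  generalize hn : (R.τ b - R.τ (R.hd e)).toNat = n
  induction n using Nat.strong_induction_on generalizing e with
  | _ n ih =>
    refine h e he (fun e' h1 h2 => ih _ ?_ e' h2 rfl)
    have := R.τ_lt e' _ h1
    have := h2.τ_le
    omega

variable (R) in
/-- A spanning forest of the green part, given by one entering edge at every green vertex. -/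
structure Tree where
  par : V → E
  hd_par : ∀ v, R.green v → R.hd (par v) = v
  gsrc_par : ∀ v, R.green v → R.gsrc (par v)

/-- The same tree in the mirror image. -/
def Tree.mirror (T : R.Tree) : R.mirror.Tree := ⟨T.par, T.hd_par, T.gsrc_par⟩

namespace Tree

variable [Fintype V] (T : R.Tree)

open Classical in
noncomputable def F : Forest V :=
  Forest.ofMeasure (fun v => if R.green v then R.src (T.par v) else none) R.τ (by
    intro u v h
    split_ifs at h with hu
    have := R.τ_lt _ _ h
    rwa [T.hd_par u hu] at this)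

theorem up_eq {v : V} (h : R.green v) : T.F.up v = R.src (T.par v) := by
  simp [F, Forest.ofMeasure, h]

theorem green_of_up {v u : V} (h : T.F.up v = some u) : R.green v := by
  by_contra hv
  simp [F, Forest.ofMeasure, hv] at h

/-- `v` lies on the tree path to `b`. -/
def Anc (v b : V) : Prop := T.F.Anc v b

/-- `e` is an edge of the tree path to `b`. -/
def On (b : V) (e : E) : Prop := T.par (R.hd e) = e ∧ T.Anc (R.hd e) b

theorem anc_refl (b : V) : T.Anc b b := Forest.Anc.refl _ _

variable {T}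

theorem Anc.trans {u v w : V} (h : T.Anc u v) (h' : T.Anc v w) : T.Anc u w :=
  Forest.Anc.trans h h'

theorem Anc.le {v b : V} (h : T.Anc v b) : R.le v b := by
  refine T.F.anc_induction (P := fun c => R.le c b) (R.le_refl b) ?_ h
  intro c u _ h2 h3
  have hc := T.green_of_up h3
  rw [T.up_eq hc] at h3
  have := le_hd h3
  rw [T.hd_par c hc] at this
  exact this.trans h2

theorem Anc.green {v b : V} (h : T.Anc v b) (hb : R.green b) : R.green v := by
  refine T.F.anc_induction (P := fun c => R.green c) hb ?_ h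
  intro c u _ h2 h3
  rw [T.up_eq h2] at h3
  exact T.gsrc_par c h2 u h3

theorem Anc.on {v b : V} (h : T.Anc v b) (hb : R.green b) : T.On b (T.par v) := by
  have := T.hd_par v (h.green hb)
  exact ⟨by rw [this], by rw [this]; exact h⟩

theorem On.le {b : V} {e : E} (h : T.On b e) : R.le (R.hd e) b := h.2.le

theorem On.gsrc {b : V} {e : E} (h : T.On b e) (hb : R.green b) : R.gsrc e := by
  rw [← h.1]; exact T.gsrc_par _ (h.2.green hb)

theorem On.up {b : V} {e : E} (h : T.On b e) (hb : R.green b) : T.F.up (R.hd e) = R.src e := by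
  rw [T.up_eq (h.2.green hb), h.1]

theorem On.anc_src {b u : V} {e : E} (h : T.On b e) (hb : R.green b) (hu : R.src e = some u) :
    T.Anc u b := Forest.Anc.up h.2 ((h.up hb).trans hu)

theorem On.src_ne {b : V} {e : E} (h : T.On b e) : R.src e ≠ some b := by
  intro hs
  have := R.τ_lt e b hs
  have := h.le.τ_le
  omega

theorem On.trans {b v : V} {e : E} (h : T.On v e) (h' : T.Anc v b) : T.On b e :=
  ⟨h.1, h.2.trans h'⟩

theorem On.eq_of_hd {b b' : V} {e e' : E} (h : T.On b e) (h' : T.On b' e')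
    (hh : R.hd e = R.hd e') : e = e' := by
  rw [← h.1, ← h'.1, hh]

theorem On.eq_of_src {b : V} {e e' : E} (hb : R.green b) (h : T.On b e) (h' : T.On b e')
    (hh : R.src e = R.src e') : e = e' := by
  have key : ∀ {e e' : E}, T.On b e → T.On b e' → R.src e = R.src e' →
      T.Anc (R.hd e) (R.hd e') → e = e' := by
    intro e e' h h' hh ha
    rcases Forest.Anc.cases_tail ha with h1 | ⟨c, h1, h2⟩
    · exact h.eq_of_hd h' h1
    · rw [h'.up hb, ← hh] at h1
      have := R.τ_lt e c h1
      have := (Anc.le (T := T) h2).τ_le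
      omega
  rcases Forest.Anc.total h.2 h'.2 with ha | ha
  · exact key h h' hh ha
  · exact (key h' h hh.symm ha).symm

theorem Anc.exists_out {v b : V} (h : T.Anc v b) (hb : R.green b) (hne : v ≠ b) :
    ∃ e, T.On b e ∧ R.src e = some v := by
  rcases Forest.Anc.cases h with h1 | ⟨c, h1, h2⟩
  · exact absurd h1 hne
  · exact ⟨T.par c, Anc.on h2 hb, by rw [← T.up_eq (T.green_of_up h1), h1]⟩

variable (T) in
theorem exists_root {b : V} (hb : R.green b) : ∃ e, T.On b e ∧ R.src e = none := by
  obtain ⟨w, hw, h | ⟨c, v, h1, h2, h3, -⟩⟩ := T.F.exists_cut (fun _ => False) (some b)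
  · exact (hw b h).elim
  · cases h1
    refine ⟨T.par c, Anc.on h2 hb, ?_⟩
    rw [← T.up_eq (Anc.green h2 hb), h3]
    cases w with
    | none => rfl
    | some u => exact (hw u rfl).elim

/-- Induction along a tree path, from the root upwards. -/
theorem on_induction {b : V} (hb : R.green b) {P : E → Prop}
    (h : ∀ e, T.On b e → (∀ u, R.src e = some u → P (T.par u)) → P e) {e : E} (he : T.On b e) :
    P e := by
  have : ∀ v, T.Anc v b → P (T.par v) := by
    intro v
    induction v using T.F.wf.induction with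
    | _ v ih =>
      intro hv
      refine h _ (hv.on hb) (fun u hu => ih u ?_ ((hv.on hb).anc_src hb hu))
      rw [T.up_eq (hv.green hb), hu]
  rw [← he.1]
  exact this _ he.2

/-- Two tree paths: one contains the other or they diverge. -/
theorem diverge {x b : V} (hx : R.green x) (hb : R.green b) :
    T.Anc x b ∨ ∃ e, T.On x e ∧ (∀ t, T.Anc (R.hd e) t → ¬ T.Anc t b) ∧
      (R.src e = some b ∨ ∃ f, T.On b f ∧ R.src f = R.src e) := by
  obtain ⟨w, hw, h | ⟨c, v, h1, h2, h3, h4, -⟩⟩ := T.F.exists_cut (fun u => T.Anc u b) (some x)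
  · exact Or.inl (hw x h)
  · cases h1
    have hc : R.green c := Anc.green h2 hx
    refine Or.inr ⟨T.par c, Anc.on h2 hx, ?_, ?_⟩
    · intro t ht ht'
      rw [T.hd_par c hc] at ht
      exact h4 (ht.trans ht')
    · rw [← T.up_eq hc, h3]
      cases w with
      | none => exact Or.inr (T.exists_root hb)
      | some u =>
        by_cases hub : u = b
        · exact Or.inl (by rw [hub])
        · exact Or.inr ((hw u rfl).exists_out hb hub)

theorem even_on {b v : V} (hb : R.green b) :
    (∃ e, T.On b e ∧ R.src e = some v) ↔ ¬ ((∃ e, T.On b e ∧ R.hd e = v) ↔ v = b) := by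
  have h1 : (∃ e, T.On b e ∧ R.hd e = v) ↔ T.Anc v b := by
    constructor
    · rintro ⟨e, h1, rfl⟩; exact h1.2
    · intro h; exact ⟨_, h.on hb, T.hd_par v (h.green hb)⟩
  rw [h1]
  constructor
  · rintro ⟨e, h2, h3⟩
    have h4 : v ≠ b := by rintro rfl; exact h2.src_ne h3
    simp [h2.anc_src hb h3, h4]
  · intro h
    by_cases h4 : v = b
    · subst h4; simp [T.anc_refl] at h
    · have : T.Anc v b := by tauto
      exact this.exists_out hb h4

end Tree

variable (R) in
/-- A side function for the union of two tree paths to `b`. -/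
structure Sides [Fintype V] (T1 T2 : R.Tree) (b : V) (s : E → Prop) (w : Option V → Prop) :
    Prop where
  root : ¬ w none
  out : ∀ e, s e ↔ ¬ (w (R.src e) ↔
    ¬ ((∃ f, T1.On b f ∧ R.src f = R.src e ∧ R.ork f < R.ork e) ↔
       (∃ f, T2.On b f ∧ R.src f = R.src e ∧ R.ork f < R.ork e)))
  inn : ∀ e, s e ↔ ¬ (w (some (R.hd e)) ↔
    ¬ ((∃ f, T1.On b f ∧ R.hd f = R.hd e ∧ R.irk f < R.irk e) ↔
       (∃ f, T2.On b f ∧ R.hd f = R.hd e ∧ R.irk f < R.irk e)))

theorem exists_sides [Fintype V] (T1 T2 : R.Tree) {b : V} (hb : R.green b) :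
    ∃ s w, R.Sides T1 T2 b s w := by
  have hs : ∀ (T : R.Tree) (o : Option V) (Q : E → Prop),
      sumOn (fun e => chi (T.On b e)) (fun e => R.src e = o ∧ Q e) =
        chi (∃ e, T.On b e ∧ R.src e = o ∧ Q e) := fun T o Q =>
    sumOn_chi _ _ (fun e e' h1 h2 h3 h4 => h1.eq_of_src hb h3 (h2.1.trans h4.1.symm))
  have hh : ∀ (T : R.Tree) (v : V) (Q : E → Prop),
      sumOn (fun e => chi (T.On b e)) (fun e => R.hd e = v ∧ Q e) =
        chi (∃ e, T.On b e ∧ R.hd e = v ∧ Q e) := fun T o Q =>
    sumOn_chi _ _ (fun e e' h1 h2 h3 h4 => h1.eq_of_hd h3 (h2.1.trans h4.1.symm))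
  have hs' : ∀ (T : R.Tree) (o : Option V),
      sumOn (fun e => chi (T.On b e)) (fun e => R.src e = o) =
        chi (∃ e, T.On b e ∧ R.src e = o) := fun T o => by simpa using hs T o (fun _ => True)
  have hh' : ∀ (T : R.Tree) (v : V),
      sumOn (fun e => chi (T.On b e)) (fun e => R.hd e = v) =
        chi (∃ e, T.On b e ∧ R.hd e = v) := fun T o => by simpa using hh T o (fun _ => True)
  obtain ⟨s, w, h0, ho, hi⟩ := R.jordan (fun e => chi (T1.On b e) + chi (T2.On b e)) (by
      intro v
      rw [sumOn_add, sumOn_add, hs', hs', hh', hh', chi_add, chi_add]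
      refine chi_congr ?_
      rw [Tree.even_on hb, Tree.even_on hb]
      generalize (∃ e, T1.On b e ∧ R.hd e = v) = p
      generalize (∃ e, T2.On b e ∧ R.hd e = v) = q
      generalize (v = b) = r
      tauto) (by
      rw [sumOn_add, hs', hs', chi_pos (T1.exists_root hb), chi_pos (T2.exists_root hb)]
      rfl)
  refine ⟨fun e => s e = 1, fun o => w o = 1, ?_, fun e => ?_, fun e => ?_⟩
  · rw [h0]; decide
  · apply chi_inj
    rw [← chi_add, ← chi_add, chi_eq_one, chi_eq_one, ho e, sumOn_add, hs, hs]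
  · apply chi_inj
    rw [← chi_add, ← chi_add, chi_eq_one, chi_eq_one, hi e, sumOn_add, hh, hh]

end RS

/-- `K` is a down-closed set of the digraph `A` whose contraction is a rooted structure. -/
def Good {V : Type} (A : V → V → Prop) (K : Set V) : Prop :=
  (∀ a b, A a b → b ∈ K → a ∈ K) ∧ ∃ (E : Type) (_ : Fintype E) (R : RS V E),
    (∀ a b, R.adj a b ↔ (a ∉ K ∧ A a b)) ∧
    (∀ b, (∃ e, R.src e = none ∧ R.hd e = b) ↔ (b ∉ K ∧ ∃ k ∈ K, A k b))

/-- Edges whose source is a vertex that is not green. -/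
def RS.red {V E : Type} [Fintype E] (R : RS V E) (e : E) : Prop :=
  ∃ v, R.src e = some v ∧ ¬ R.green v

/-- Contracting the green part along a spanning forest `T` and rotating by a half turn gives a
rooted structure on the red edges, whose exits are ordered along the contour of the forest. -/
def ExtStmt : Prop :=
  ∀ (V E : Type) [Fintype V] [Fintype E] (R : RS V E) (T : R.Tree) [Fintype {e // R.red e}],
    ∃ (R' : RS V {e // R.red e}) (r : {e // R.red e} → ℤ) (p : V → ℤ),
      (∀ e, R.green (R.hd e.1) → R'.src e = none) ∧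
      (∀ e, ¬ R.green (R.hd e.1) → R'.src e = some (R.hd e.1)) ∧
      (∀ e, R.src e.1 = some (R'.hd e)) ∧
      (∀ b c, R.green b → R'.src c = none → p b ≠ R'.ork c) ∧
      (∀ c, R'.src c = none → R'.ork c ≤ r c) ∧
      (∀ c c', R'.src c = none → R'.src c' = none → R'.ork c < R'.ork c' → R'.ork c' ≤ r c →
        r c' ≤ r c) ∧
      (∀ b c, R.green b → R'.src c = none → ((R'.ork c < p b ∧ p b ≤ r c) ↔
        (R.irk c.1 < R.irk (T.par (R.hd c.1)) ∧ T.Anc (R.hd c.1) b)))

def BaseStmt : Prop :=
  ∀ (V E : Type) [Fintype V] [Fintype E] (S : UP V E) (x₀ : V), (∀ a, ¬ S.adj a x₀) →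
    Good S.adj {x₀}

end Pool.Agent.MP_a17da5_co
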