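import Pool.Agent.MP_a17da5_co.Green

/-!
The region between the leftmost down path and the lexicographically rightmost path.
-/

set_option autoImplicit false

namespace Pool.Agent.MP_a17da5_co

theorem list_le_append {α : Type} [LinearOrder α] (p t : List α) : p ≤ p ++ t := by
  induction p with
  | nil => exact not_lt.1 (List.not_lt_nil _)
  | cons a p ih =>
    rcases ih.lt_or_eq with h | h
    · exact le_of_lt (List.Lex.cons h)
    · rw [List.cons_append, ← h]

/-- Strict divergence of two lists. -/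
def Far (l l' : List ℤ) : Prop := ∃ p r r' t t', r < r' ∧ l = p ++ r :: t ∧ l' = p ++ r' :: t'

theorem Far.lt {l l' : List ℤ} (h : Far l l') : l < l' := by
  obtain ⟨p, r, r', t, t', h1, rfl, rfl⟩ := h
  exact Forest.list_lt_of_lt _ _ _ h1

theorem Far.append {l l' : List ℤ} (h : Far l l') (u : List ℤ) : Far (l ++ u) l' := by
  obtain ⟨p, r, r', t, t', h1, rfl, rfl⟩ := h
  exact ⟨p, r, r', t ++ u, t', h1, by simp, rfl⟩

namespace RS

variable {V E : Type} [Fintype V] [Fintype E] {R : RS V E}

namespace Tree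

variable (T : R.Tree)

noncomputable def preR (o : Option V) : List ℤ := T.F.path (fun v => R.ork (T.par v)) o

noncomputable def postR (o : Option V) : List (WithTop ℤ) :=
  T.F.path (fun v => ((R.ork (T.par v) : ℤ) : WithTop ℤ)) o

/-- Preorder key. -/
noncomputable def pre (v : V) : List ℤ := T.preR (some v)

/-- Postorder key. -/
noncomputable def post (v : V) : List (WithTop ℤ) := T.postR (some v) ++ [⊤]

variable {T} {x b : V} {e f : E}

theorem path_on {α : Type} (φ : ℤ → α) (hx : R.green x) (h : T.On x e) :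
    ∃ t, T.F.path (fun v => φ (R.ork (T.par v))) (some x) =
      T.F.path (fun v => φ (R.ork (T.par v))) (R.src e) ++ φ (R.ork e) :: t := by
  obtain ⟨t, ht⟩ := T.F.path_anc (fun v => φ (R.ork (T.par v))) h.2
  exact ⟨t, by rw [ht, Forest.path_some, h.up hx, h.1]; simp⟩

theorem pre_on (hx : R.green x) (h : T.On x e) :
    ∃ t, T.pre x = T.preR (R.src e) ++ R.ork e :: t := path_on id hx h

theorem post_on (hx : R.green x) (h : T.On x e) :
    ∃ t, T.post x = T.postR (R.src e) ++ ((R.ork e : ℤ) : WithTop ℤ) :: t := by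
  obtain ⟨t, ht⟩ := path_on (fun z => ((z : ℤ) : WithTop ℤ)) hx h
  exact ⟨t ++ [⊤], by rw [post, postR, ht]; simp [postR]⟩

theorem pre_par (hx : R.green x) : T.pre x = T.preR (R.src (T.par x)) ++ [R.ork (T.par x)] := by
  rw [pre, preR, Forest.path_some, T.up_eq hx]; rfl

theorem pre_lt_of_div (hx : R.green x) (hb : R.green b) (h : T.On x e) (h' : T.On b f)
    (hs : R.src f = R.src e) (hr : R.ork e < R.ork f) : T.pre x < T.pre b := by
  obtain ⟨t, ht⟩ := pre_on hx h
  obtain ⟨t', ht'⟩ := pre_on hb h'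
  rw [ht, ht', hs]
  exact Forest.list_lt_of_lt _ _ _ hr

theorem post_lt_of_div (hx : R.green x) (hb : R.green b) (h : T.On x e) (h' : T.On b f)
    (hs : R.src f = R.src e) (hr : R.ork e < R.ork f) : T.post x < T.post b := by
  obtain ⟨t, ht⟩ := post_on hx h
  obtain ⟨t', ht'⟩ := post_on hb h'
  rw [ht, ht', hs]
  exact Forest.list_lt_of_lt _ _ _ (WithTop.coe_lt_coe.2 hr)

theorem post_lt_of_src (hx : R.green x) (h : T.On x e) (hs : R.src e = some b) :
    T.post x < T.post b := by
  obtain ⟨t, ht⟩ := post_on hx h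
  rw [ht, hs]
  exact Forest.list_lt_of_lt _ _ _ (WithTop.coe_lt_top _)

theorem pre_le_of_anc (h : T.Anc x b) : T.pre x ≤ T.pre b := by
  obtain ⟨t, ht⟩ := T.F.path_anc (fun v => R.ork (T.par v)) h
  rw [pre, pre, preR, preR, ht]
  exact list_le_append _ _

theorem exists_out_reg (hb : R.green b) {o : Option V} (h : ∀ u, o = some u → T.Anc u b)
    (hne : o ≠ some b) : ∃ f, T.On b f ∧ R.src f = o := by
  cases o with
  | none => exact T.exists_root hb
  | some u => exact (h u rfl).exists_out hb (by rintro rfl; exact hne rfl)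

/-- The lexicographically rightmost path dominates every edge leading to its top. -/
theorem dominate (hT : T.IsLex) (hx : R.green x) (n : ℕ) : ∀ e, R.gsrc e → R.le (R.hd e) x →
    (T.preR (R.src e)).length ≤ n → T.On x e ∨ Far (T.preR (R.src e) ++ [R.ork e]) (T.pre x) := by
  induction n using Nat.strong_induction_on with
  | _ n ih =>
    intro e he hle hn
    have key : (∀ u, R.src e = some u → T.Anc u x) →
        T.On x e ∨ Far (T.preR (R.src e) ++ [R.ork e]) (T.pre x) := by
      intro ha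
      obtain ⟨f, hf, hs⟩ := exists_out_reg hx ha (by
        intro h
        have := R.τ_lt e x h
        have := hle.τ_le
        omega)
      rcases (hT x f e hx hf hs.symm hle).lt_or_eq with h | h
      · obtain ⟨t, ht⟩ := pre_on hx hf
        exact Or.inr ⟨_, _, _, [], t, h, rfl, by rw [ht, hs]⟩
      · exact Or.inl (R.ork_inj _ _ hs h.symm ▸ hf)
    cases hs : R.src e with
    | none => rw [← hs]; exact key (by simp [hs])
    | some u =>
      have hu := he u hs
      have h1 := T.hd_par u hu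
      have h2 := pre_par (T := T) hu
      have h3 : (T.preR (R.src (T.par u))).length + 1 ≤ n := by
        have := congrArg List.length h2
        rw [hs] at hn
        simp only [pre, List.length_append, List.length_singleton] at this
        omega
      rcases ih (n - 1) (by omega) (T.par u) (T.gsrc_par u hu)
        (by rw [h1]; exact (le_hd hs).trans hle) (by omega) with h | h
      · rw [← hs]
        refine key (fun u' hu' => ?_)
        rw [hs] at hu'
        cases hu'
        exact h1 ▸ h.2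
      · rw [← h2] at h
        exact Or.inr (h.append _)

theorem pre_lt_of_right (hT : T.IsLex) (hx : R.green x) (hb : R.green b) (he : R.gsrc e)
    (hle : R.le (R.hd e) x) (hf : T.On b f) (hs : R.src f = R.src e) (hr : R.ork f < R.ork e) :
    T.pre b < T.pre x := by
  rcases dominate hT hx _ e he hle le_rfl with h | h
  · exact pre_lt_of_div hb hx hf h hs.symm hr
  · obtain ⟨t, ht⟩ := pre_on hb hf
    refine lt_trans ?_ h.lt
    rw [ht, hs]
    exact Forest.list_lt_of_lt _ _ _ hr

end Tree

/-- The data describing the region of `b`. -/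
structure Reg (L W : R.Tree) (b : V) (s : E → Prop) (w : Option V → Prop) : Prop where
  hL : L.IsLeft
  hW : W.IsLex
  hb : R.green b
  sd : R.Sides L W b s w

namespace Reg

variable {L W : R.Tree} {b : V} {s : E → Prop} {w : Option V → Prop} (h : Reg L W b s w)
include h

theorem ork_le {f1 f2 : E} (h1 : L.On b f1) (h2 : W.On b f2) (hs : R.src f1 = R.src f2) :
    R.ork f1 ≤ R.ork f2 := h.hW b f2 f1 h.hb h2 hs h1.le

theorem wL {v : V} (hv : L.Anc v b) : ¬ w (some v) := by
  have hb := h.hb
  have := Tree.on_induction hb (P := fun e => ¬ w (some (R.hd e))) (T := L) ?_ (hv.on hb)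
  · rwa [L.hd_par v (hv.green hb)] at this
  intro e he ih
  have a1 : ¬ w (R.src e) := by
    cases hs : R.src e with
    | none => exact h.sd.root
    | some u =>
      have := ih u hs
      rwa [L.hd_par u (he.gsrc hb u hs)] at this
  have a2 : ¬ W.oL b e := by
    rintro ⟨f, h1, h2, h3⟩
    have := h.ork_le he h1 h2.symm
    omega
  have a3 : ¬ W.iL b e := by
    rintro ⟨f, h1, h2, h3⟩
    have := h.hL f (h1.gsrc hb)
    rw [h2, he.1] at this
    omega
  have b1 := h.sd.out' e
  have b2 := h.sd.inn' e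
  simp only [a1, a2, a3, Tree.not_oL_self hb he, Tree.not_iL_self hb he] at b1 b2
  tauto

theorem wreg {o : Option V} (ho : ∀ u, o = some u → L.Anc u b) : ¬ w o := by
  cases o with
  | none => exact h.sd.root
  | some u => exact h.wL (ho u rfl)

theorem wW {v : V} (hv : W.Anc v b) (hv' : ¬ L.Anc v b) : w (some v) := by
  have hb := h.hb
  have := Tree.on_induction hb (P := fun e => ¬ L.Anc (R.hd e) b → w (some (R.hd e))) (T := W) ?_
    (hv.on hb)
  · rw [W.hd_par v (hv.green hb)] at this
    exact this hv'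
  intro e he ih hn
  have a0 : s e := by
    have b1 := h.sd.out' e
    by_cases hc : ∀ u, R.src e = some u → L.Anc u b
    · obtain ⟨f, h1, h2⟩ := Tree.exists_out_reg h.hb hc he.src_ne
      have a1 := h.ork_le h1 he h2
      have a2 : R.ork f ≠ R.ork e := by
        intro h3
        exact hn (R.ork_inj _ _ h2 h3 ▸ h1.2)
      have a3 : L.oL b e := ⟨f, h1, h2, by omega⟩
      simp only [h.wreg hc, a3, Tree.not_oL_self hb he] at b1
      tauto
    · push Not at hc
      obtain ⟨u, h1, h2⟩ := hc
      have a1 := ih u h1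
      rw [W.hd_par u (he.gsrc hb u h1)] at a1
      simp only [h1, a1 h2, Tree.not_oL hb h1 h2, Tree.not_oL_self hb he] at b1
      tauto
  have b2 := h.sd.inn' e
  simp only [a0, Tree.not_iL hn, Tree.not_iL_self hb he] at b2
  tauto

theorem left_out {e f : E} (hf : L.On b f) (hs : R.src f = R.src e) (hr : R.ork e < R.ork f) :
    ¬ s e := by
  have hb := h.hb
  have a1 : ¬ w (R.src e) := h.wreg (fun u hu => hf.anc_src hb (hs.trans hu))
  have a2 : ¬ L.oL b e := by rw [Tree.oL_iff hb hf hs]; omega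
  have a3 : ¬ W.oL b e := by
    rintro ⟨f', h1, h2, h3⟩
    have := h.ork_le hf h1 (hs.trans h2.symm)
    omega
  have b1 := h.sd.out' e
  simp only [a1, a2, a3] at b1
  tauto

theorem right_out {e f : E} (hf : W.On b f) (hs : R.src f = R.src e) (hr : R.ork f < R.ork e) :
    ¬ s e := by
  have hb := h.hb
  have a0 : W.oL b e := ⟨f, hf, hs, hr⟩
  have b1 := h.sd.out' e
  by_cases hc : ∀ u, R.src e = some u → L.Anc u b
  · obtain ⟨f', h1, h2⟩ := Tree.exists_out_reg h.hb hc (hs ▸ hf.src_ne)
    have a1 := h.ork_le h1 hf (h2.trans hs.symm)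
    have a3 : L.oL b e := ⟨f', h1, h2, by omega⟩
    simp only [h.wreg hc, a3, a0] at b1
    tauto
  · push Not at hc
    obtain ⟨u, h1, h2⟩ := hc
    have a1 := h.wW (hf.anc_src hb (hs.trans h1)) h2
    simp only [h1, a1, Tree.not_oL hb h1 h2, a0] at b1
    tauto

theorem top_out {e : E} (hs : R.src e = some b) : ¬ s e := by
  have b1 := h.sd.out' e
  simp only [hs, h.wL (L.anc_refl b), Tree.not_oL_top hs] at b1
  tauto

theorem class_out {e : E} (hc : ∀ u, R.src e = some u → L.Anc u b ∨ W.Anc u b) (hs : ¬ s e)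
    (h1 : ¬ L.On b e) : R.src e = some b ∨
      (∃ f, L.On b f ∧ R.src f = R.src e ∧ R.ork e < R.ork f) ∨
      (∃ f, W.On b f ∧ R.src f = R.src e ∧ R.ork f < R.ork e) := by
  have hb := h.hb
  by_cases ht : R.src e = some b
  · exact Or.inl ht
  refine Or.inr ?_
  have b1 := h.sd.out' e
  by_cases hc' : ∀ u, R.src e = some u → L.Anc u b
  · obtain ⟨f, h2, h3⟩ := Tree.exists_out_reg h.hb hc' ht
    rcases lt_trichotomy (R.ork e) (R.ork f) with h4 | h4 | h4
    · exact Or.inl ⟨f, h2, h3, h4⟩
    · exact absurd (R.ork_inj _ _ h3 h4.symm ▸ h2) h1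
    · have a3 : L.oL b e := ⟨f, h2, h3, h4⟩
      simp only [h.wreg hc', a3, hs] at b1
      exact Or.inr (show W.oL b e by tauto)
  · push Not at hc'
    obtain ⟨u, h2, h3⟩ := hc'
    have a1 := h.wW ((hc u h2).resolve_left h3) h3
    simp only [h2, a1, Tree.not_oL hb h2 h3, hs] at b1
    exact Or.inr (show W.oL b e by tauto)

theorem class_in {e : E} (hc : L.Anc (R.hd e) b ∨ W.Anc (R.hd e) b) (hs : ¬ s e)
    (h1 : ¬ R.gsrc e) : (L.Anc (R.hd e) b ∧ R.irk e < R.irk (L.par (R.hd e))) ∨
      (W.Anc (R.hd e) b ∧ R.irk (W.par (R.hd e)) < R.irk e) := by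
  have hb := h.hb
  have b1 := h.sd.inn' e
  have fin : W.iL b e → W.Anc (R.hd e) b ∧ R.irk (W.par (R.hd e)) < R.irk e := by
    intro hi
    have : W.Anc (R.hd e) b := by
      by_contra hn
      exact Tree.not_iL hn hi
    exact ⟨this, (Tree.iL_iff hb this).1 hi⟩
  by_cases hc' : L.Anc (R.hd e) b
  · rcases lt_trichotomy (R.irk e) (R.irk (L.par (R.hd e))) with h4 | h4 | h4
    · exact Or.inl ⟨hc', h4⟩
    · have := R.irk_inj _ _ (L.hd_par _ (hc'.green hb)).symm h4
      exact absurd (this ▸ L.gsrc_par _ (hc'.green hb)) h1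
    · simp only [h.wL hc', (Tree.iL_iff hb hc').2 h4, hs] at b1
      exact Or.inr (fin (by tauto))
  · simp only [h.wW (hc.resolve_left hc') hc', Tree.not_iL hc', hs] at b1
    exact Or.inr (fin (by tauto))

omit h in
variable (L W b w) in
/-- The closed region of `b`. -/
def Cl (v : V) : Prop := L.Anc v b ∨ W.Anc v b ∨ w (some v)

theorem post_lt {x : V} (hx : R.green x) (hne : x ≠ b) (hc : Cl L W b w x) :
    L.post b < L.post x := by
  have hb := h.hb
  rcases L.diverge hx hb with h1 | ⟨e, he, hn, h1⟩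
  · obtain ⟨f, h2, h3⟩ := h1.exists_out hb hne
    exact Tree.post_lt_of_src hb h2 h3
  have step : ∀ e', L.On x e' → ¬ L.Anc (R.hd e') b → ¬ s e' → ¬ Cl L W b w (R.hd e') := by
    intro e' h1 h2 h3
    have b2 := h.sd.inn' e'
    have a3 : ¬ W.iL b e' := by
      rintro ⟨f, h4, h5, h6⟩
      have := h.hL f (h4.gsrc hb)
      rw [h5, h1.1] at this
      omega
    simp only [h3, Tree.not_iL h2, a3] at b2
    rintro (h4 | h4 | h4)
    · exact h2 h4
    · have := h.wW h4 h2
      tauto
    · tauto
  have main : ¬ s e → False := by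
    intro hs
    have := Tree.on_induction hx (T := L)
      (P := fun e' => L.Anc (R.hd e) (R.hd e') → ¬ Cl L W b w (R.hd e')) ?_
      ((L.anc_refl x).on hx)
    · rw [L.hd_par x hx] at this
      exact this he.2 hc
    intro e' h1 ih h2
    refine step e' h1 (hn _ h2) ?_
    rcases Forest.Anc.cases_tail h2 with h3 | ⟨c, h3, h4⟩
    · rwa [← he.eq_of_hd h1 h3]
    · rw [h1.up hx] at h3
      have h5 := ih c h3
      rw [L.hd_par c (h1.gsrc hx c h3)] at h5
      have h6 := h5 h4
      rw [h.sd.s_src hb h3 (fun a => h6 (Or.inl a)) (fun a => h6 (Or.inr (Or.inl a)))]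
      exact fun a => h6 (Or.inr (Or.inr a))
  rcases h1 with h1 | ⟨f, h1, h2⟩
  · exact (main (h.top_out h1)).elim
  · rcases lt_trichotomy (R.ork e) (R.ork f) with h4 | h4 | h4
    · exact (main (h.left_out h1 h2 h4)).elim
    · exact absurd (R.ork_inj _ _ h2 h4.symm ▸ h1.2) (hn _ (L.anc_refl _))
    · exact Tree.post_lt_of_div hb hx h1 he h2.symm h4

theorem post_le {x : V} (hx : R.green x) (hc : Cl L W b w x) : L.post b ≤ L.post x := by
  by_cases hne : x = b
  · rw [hne]
  · exact (h.post_lt hx hne hc).le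

theorem not_cl_of {e : E} {x : V} (hs : ¬ s e) (hn : ¬ R.le (R.hd e) b) (hx : R.le (R.hd e) x) :
    ¬ Cl L W b w x := by
  obtain ⟨h1, h2, h3⟩ := h.sd.trap h.hb hx hn
  rw [h.sd.s_hd (fun a => hn a.le) (fun a => hn a.le), h1] at hs
  rintro (a | a | a)
  exacts [h2 a, h3 a, hs a]

theorem pre_le {x : V} (hx : R.green x) (hc : Cl L W b w x) : W.pre x ≤ W.pre b := by
  have hb := h.hb
  rcases W.diverge hx hb with h1 | ⟨e, he, hn, h1 | ⟨f, h1, h2⟩⟩
  · exact Tree.pre_le_of_anc h1
  · refine absurd hc (h.not_cl_of (h.top_out h1) (fun a => ?_) he.le)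
    have := R.τ_lt _ _ h1
    have := a.τ_le
    omega
  · rcases lt_trichotomy (R.ork e) (R.ork f) with h4 | h4 | h4
    · exact (Tree.pre_lt_of_div hx hb he h1 h2 h4).le
    · exact absurd (R.ork_inj _ _ h2 h4.symm ▸ h1.2) (hn _ (W.anc_refl _))
    · refine absurd hc (h.not_cl_of (h.right_out h1 h2 h4) (fun a => ?_) he.le)
      have := h.hW b f e hb h1 h2.symm a
      omega

theorem cl_of_tests {x : V} (hx : R.green x) (h1 : L.post b ≤ L.post x) (h2 : W.pre x ≤ W.pre b) :
    Cl L W b w x := by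
  have hb := h.hb
  by_contra hc
  obtain ⟨o, ho, h3 | ⟨c, v, h3, h4, h5, h6, h7⟩⟩ :=
    L.F.exists_cut (fun u => L.Anc u b ∨ W.Anc u b) (some x)
  · rcases ho x h3 with a | a
    exacts [hc (Or.inl a), hc (Or.inr (Or.inl a))]
  cases h3
  have hcx : L.Anc c x := h4
  have hcg := hcx.green hx
  have he := hcx.on hx
  have hd := L.hd_par c hcg
  have hw : ∀ t, L.Anc t x → L.Anc c t → ¬ w (some t) := by
    intro t ht
    refine L.F.anc_induction (P := fun t => L.Anc c t → ¬ w (some t))
      (fun _ a => hc (Or.inr (Or.inr a))) ?_ ht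
    intro t u a1 ih a2 a3
    have a4 : L.Anc c t := a3.trans (Forest.Anc.up (Forest.Anc.refl _ t) a2)
    have tg := L.green_of_up a2
    have a5 := h7 t a4 a1
    have a6 := h7 u a3 (Forest.Anc.up a1 a2)
    rw [L.up_eq tg] at a2
    rw [← h.sd.s_src hb a2 (fun a => a6 (Or.inl a)) (fun a => a6 (Or.inr a)),
      h.sd.s_hd (by rw [L.hd_par t tg]; exact fun a => a5 (Or.inl a))
        (by rw [L.hd_par t tg]; exact fun a => a5 (Or.inr a)), L.hd_par t tg]
    exact ih a4
  have hs : ¬ s (L.par c) := by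
    rw [h.sd.s_hd (by rw [hd]; exact fun a => h6 (Or.inl a))
      (by rw [hd]; exact fun a => h6 (Or.inr a)), hd]
    exact hw c hcx (L.anc_refl c)
  rw [L.up_eq hcg] at h5
  rcases h.class_out (e := L.par c) (fun u hu => ho u (h5.symm.trans hu)) hs
    (fun a => h6 (Or.inl (hd ▸ a.2))) with a | ⟨f, a1, a2, a3⟩ | ⟨f, a1, a2, a3⟩
  · exact absurd (Tree.post_lt_of_src hx he a) (not_lt.2 h1)
  · exact absurd (Tree.post_lt_of_div hx hb he a1 a2 a3) (not_lt.2 h1)
  · exact absurd (Tree.pre_lt_of_right h.hW hx hb (he.gsrc hx) he.le a1 a2 a3) (not_lt.2 h2)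

/-- Edges leading to `b` that start inside the region stay inside. -/
theorem cl_hd {e lam : E} (hl : L.On b lam) (hl' : R.src lam = none) (hle : R.le (R.hd e) b)
    (h0 : R.src e = none → R.ork lam ≤ R.ork e) (h1 : ∀ t, R.src e = some t → Cl L W b w t) :
    Cl L W b w (R.hd e) := by
  have hb := h.hb
  by_contra hc
  have a1 : ¬ L.Anc (R.hd e) b := fun a => hc (Or.inl a)
  have a2 : ¬ W.Anc (R.hd e) b := fun a => hc (Or.inr (Or.inl a))
  have hs : ¬ s e := by
    rw [h.sd.s_hd a1 a2]; exact fun a => hc (Or.inr (Or.inr a))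
  by_cases hp : ∀ u, R.src e = some u → L.Anc u b ∨ W.Anc u b
  · rcases h.class_out hp hs (fun a => a1 a.2) with a | ⟨f, a3, a4, a5⟩ | ⟨f, a3, a4, a5⟩
    · have := R.τ_lt _ _ a
      have := hle.τ_le
      omega
    · cases hsrc : R.src e with
      | none =>
        have := h0 hsrc
        rw [hl.eq_of_src hb a3 (hl'.trans (a4.trans hsrc).symm)] at this
        omega
      | some v =>
        have := west h.hL hb a3 (a4.trans hsrc) hsrc hle
        omega
    · have := h.hW b f e hb a3 a4.symm hle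
      omega
  · push Not at hp
    obtain ⟨u, a3, a4, a5⟩ := hp
    rw [h.sd.s_src hb a3 a4 a5] at hs
    rcases h1 u a3 with a | a | a
    exacts [a4 a, a5 a, hs a]

theorem cl_of_exit {k lam : E} (hl : L.On b lam) (hl' : R.src lam = none) (hk : R.src k = none)
    (h0 : R.ork lam ≤ R.ork k) {x : V} (h1 : R.le (R.hd k) x) (h2 : R.le x b) :
    Cl L W b w x := by
  induction h1 with
  | refl => exact h.cl_hd hl hl' h2 (fun _ => h0) (by simp [hk])
  | tail h3 h4 ih =>
    obtain ⟨e, h5, rfl⟩ := h4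
    refine h.cl_hd hl hl' h2 (by simp [h5]) (fun t ht => ?_)
    rw [h5] at ht
    cases ht
    exact ih ((le_hd h5).trans h2)

/-- An exit in the range of `b` that does not reach `b` is trapped inside the region. -/
theorem cl_of_range {y lam rho : E} (hl : L.On b lam) (hl' : R.src lam = none) (hr : W.On b rho)
    (hr' : R.src rho = none) (hy : R.src y = none) (h1 : R.ork lam ≤ R.ork y)
    (h2 : R.ork y ≤ R.ork rho) (hn : ¬ R.le (R.hd y) b) {a : V} (ha : R.le (R.hd y) a) :
    Cl L W b w a ∧ a ≠ b := by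
  have hb := h.hb
  have hs : s y := by
    by_contra hs
    rcases h.class_out (by simp [hy]) hs (fun a => hn a.le) with
      a | ⟨f, a3, a4, a5⟩ | ⟨f, a3, a4, a5⟩
    · simp [hy] at a
    · rw [hl.eq_of_src hb a3 (hl'.trans (a4.trans hy).symm)] at h1
      omega
    · rw [hr.eq_of_src hb a3 (hr'.trans (a4.trans hy).symm)] at h2
      omega
  obtain ⟨a1, a2, -⟩ := h.sd.trap hb ha hn
  rw [h.sd.s_hd (fun a => hn a.le) (fun a => hn a.le), a1] at hs
  exact ⟨Or.inr (Or.inr hs), by rintro rfl; exact hn ha⟩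

end Reg

end RS

end Pool.Agent.MP_a17da5_co
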