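import Pool.Agent.MP_a17da5_co.Dec

/-!
Lexicographic keys along a rooted forest.
-/

set_option autoImplicit false

namespace Pool.Agent.MP_a17da5_co

/-- A rooted forest given by its parent map (`none` is the common root region). -/
structure Forest (N : Type) where
  up : N → Option N
  wf : WellFounded (fun v u => up u = some v)

/-- A parent map that strictly decreases an integer measure on a finite type is a forest. -/
def Forest.ofMeasure {N : Type} [Finite N] (up : N → Option N) (m : N → ℤ)
    (h : ∀ u v, up u = some v → m v < m u) : Forest N where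
  up := up
  wf := by
    haveI : IsTrans N (fun v u => m v < m u) := ⟨fun _ _ _ => lt_trans⟩
    haveI : Std.Irrefl (fun v u : N => m v < m u) := ⟨fun _ => lt_irrefl _⟩
    exact Subrelation.wf (fun {v u} h' => h u v h')
      (Finite.wellFounded_of_trans_of_irrefl (fun v u => m v < m u))

namespace Forest

variable {N α : Type} (F : Forest N)

/-- `u` is an ancestor of `v` or equal to it. -/
def Anc (u v : N) : Prop := Relation.ReflTransGen (fun a b => F.up b = some a) u v

theorem Anc.refl (u : N) : F.Anc u u := Relation.ReflTransGen.refl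

variable {F} in
theorem Anc.trans {u v w : N} (h : F.Anc u v) (h' : F.Anc v w) : F.Anc u w :=
  Relation.ReflTransGen.trans h h'

variable {F} in
theorem Anc.up {u v w : N} (h : F.Anc v w) (h' : F.up v = some u) : F.Anc u w :=
  Relation.ReflTransGen.head h' h

/-- A property that is inherited by parents holds for all ancestors. -/
theorem anc_induction {P : N → Prop} {v : N} (h0 : P v)
    (hs : ∀ c u, F.Anc c v → P c → F.up c = some u → P u) {c : N} (h : F.Anc c v) : P c := by
  induction h using Relation.ReflTransGen.head_induction_on with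
  | refl => exact h0
  | head h1 h2 ih => exact hs _ _ h2 ih h1

variable {F} in
theorem Anc.cases {u v : N} (h : F.Anc u v) : u = v ∨ ∃ c, F.up c = some u ∧ F.Anc c v :=
  Relation.ReflTransGen.cases_head h

variable {F} in
theorem Anc.cases_tail {u v : N} (h : F.Anc u v) : u = v ∨ ∃ c, F.up v = some c ∧ F.Anc u c := by
  rcases Relation.ReflTransGen.cases_tail h with h | ⟨c, h1, h2⟩
  · exact Or.inl h.symm
  · exact Or.inr ⟨c, h2, h1⟩

variable {F} in
theorem Anc.total {u u' v : N} (h : F.Anc u v) (h' : F.Anc u' v) : F.Anc u u' ∨ F.Anc u' u := by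
  refine F.anc_induction (P := fun c => F.Anc c u' ∨ F.Anc u' c) (Or.inr h') ?_ h
  intro c w _ hc hw
  rcases hc with hc | hc
  · exact Or.inl (hc.up hw)
  · rcases hc.cases_tail with rfl | ⟨c', h1, h2⟩
    · exact Or.inl ((Anc.refl F _).up hw)
    · rw [hw] at h1
      cases h1
      exact Or.inr h2

noncomputable def path1 (rk : N → α) : N → List α :=
  F.wf.fix (fun u ih => (match h : F.up u with
    | none => []
    | some v => ih v h) ++ [rk u])

/-- The list of ranks from the root region down to a region. -/
noncomputable def path (rk : N → α) : Option N → List α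
  | none => []
  | some u => F.path1 rk u

@[simp] theorem path_none (rk : N → α) : F.path rk none = [] := rfl

theorem path_some (rk : N → α) (u : N) : F.path rk (some u) = F.path rk (F.up u) ++ [rk u] := by
  show F.path1 rk u = _
  rw [path1, WellFounded.fix_eq]
  congr 1
  split
  · next h => rw [h]; rfl
  · next v h =>
    have : F.path rk (F.up u) = F.path1 rk v := by rw [h]; rfl
    rw [this]; rfl

theorem path_anc (rk : N → α) {c v : N} (h : F.Anc c v) :
    ∃ t, F.path rk (some v) = F.path rk (some c) ++ t := by
  refine F.anc_induction (P := fun c => ∃ t, F.path rk (some v) = F.path rk (some c) ++ t)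
    ⟨[], by simp⟩ ?_ h
  rintro c u _ ⟨t, ht⟩ hu
  exact ⟨rk c :: t, by rw [ht, path_some, hu]; simp⟩

/-- The token with region `reg` and rank `ρ` passes through region `y` with rank `r`. -/
def Pass (rk : N → α) (reg : Option N) (ρ : α) (y : Option N) (r : α) : Prop :=
  (y = reg ∧ r = ρ) ∨ ∃ c v, reg = some v ∧ F.Anc c v ∧ F.up c = y ∧ r = rk c

/-- The key of a token. -/
noncomputable def key (rk : N → α) (reg : Option N) (ρ : α) : List α := F.path rk reg ++ [ρ]

theorem key_of_pass {rk : N → α} {reg y : Option N} {ρ r : α} (h : F.Pass rk reg ρ y r) :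
    ∃ t, F.key rk reg ρ = F.path rk y ++ r :: t := by
  rcases h with ⟨rfl, rfl⟩ | ⟨c, v, rfl, h1, rfl, rfl⟩
  · exact ⟨[], rfl⟩
  · obtain ⟨t, ht⟩ := F.path_anc rk h1
    exact ⟨t ++ [ρ], by rw [key, ht, path_some]; simp⟩

theorem list_lt_of_lt [LinearOrder α] (p t t' : List α) {r r' : α} (h : r < r') :
    p ++ r :: t < p ++ r' :: t' := by
  induction p with
  | nil => exact List.Lex.rel h
  | cons a p ih => exact List.Lex.cons ih

/-- Two tokens passing through a common region are ordered by their ranks there. -/
theorem key_lt_of_pass [LinearOrder α] {rk : N → α} {reg reg' y : Option N} {ρ ρ' r r' : α}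
    (h : F.Pass rk reg ρ y r) (h' : F.Pass rk reg' ρ' y r') (hr : r < r') :
    F.key rk reg ρ < F.key rk reg' ρ' := by
  obtain ⟨t, ht⟩ := F.key_of_pass h
  obtain ⟨t', ht'⟩ := F.key_of_pass h'
  rw [ht, ht']
  exact list_lt_of_lt _ _ _ hr

/-- The first region on the chain above `reg` that satisfies `Q` (or the root region), with the
previous item on the chain. -/
theorem exists_cut (Q : N → Prop) (reg : Option N) :
    ∃ w : Option N, (∀ u, w = some u → Q u) ∧
      (w = reg ∨ ∃ c v, reg = some v ∧ F.Anc c v ∧ F.up c = w ∧ ¬ Q c ∧
        ∀ c', F.Anc c c' → F.Anc c' v → ¬ Q c') := by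
  cases reg with
  | none => exact ⟨none, by simp, Or.inl rfl⟩
  | some v =>
    induction v using F.wf.induction with
    | _ v ih =>
      by_cases hv : Q v
      · exact ⟨some v, by simpa using hv, Or.inl rfl⟩
      · have hself : ∀ c', F.Anc v c' → F.Anc c' v → ¬ Q c' := by
          intro c' h1 h2
          have : c' = v := by
            by_contra hne
            have hT : Relation.TransGen (fun a b => F.up b = some a) v v := by
              rcases Relation.reflTransGen_iff_eq_or_transGen.1 h2 with h | h
              · exact absurd h.symm hne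
              · exact Relation.TransGen.trans_right h1 h
            exact (F.wf.transGen.irrefl.irrefl v) hT
          rw [this]; exact hv
        cases hu : F.up v with
        | none => exact ⟨none, by simp, Or.inr ⟨v, v, rfl, Anc.refl F v, hu, hv, hself⟩⟩
        | some u =>
          obtain ⟨w, hw, h | ⟨c, v', h1, h2, h3, h4, h5⟩⟩ := ih u hu
          · exact ⟨w, hw, Or.inr ⟨v, v, rfl, Anc.refl F v, hu.trans h.symm, hv, hself⟩⟩
          · cases h1
            refine ⟨w, hw, Or.inr ⟨c, v, rfl, Relation.ReflTransGen.tail h2 hu, h3, h4, ?_⟩⟩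
            intro c' a1 a2
            rcases a2.cases_tail with rfl | ⟨c'', b1, b2⟩
            · exact hv
            · rw [hu] at b1
              cases b1
              exact h5 c' a1 b2

end Forest

end Pool.Agent.MP_a17da5_co
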